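import Pool.Agent.Lib.MP_f00b8a_ag.Gen

/-!
# The identity (C) of the text
-/

set_option autoImplicit false

namespace Pool.Agent.MPf00b8a

open MvPolynomial

variable {r m : ℕ} {L : Fin r → Submodule ℂ V4} {z : Fin r × Fin m → V4}

/-- The polynomial of a linear form. -/
private noncomputable def lp (f : V4 →ₗ[ℂ] ℂ) : MvPolynomial (Fin 4) ℂ :=
  ∑ t, C (f (Pi.single t 1)) * X t

private theorem eval_lp (f : V4 →ₗ[ℂ] ℂ) (P : V4) : eval P (lp f) = f P := by
  have h : f P = ∑ t, P t * f (Pi.single t 1) := by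
    conv_lhs => rw [pi_eq_sum_univ' P]
    rw [map_sum]
    refine Finset.sum_congr rfl fun t _ => ?_
    rw [map_smul, smul_eq_mul]
  rw [lp, map_sum, h]
  refine Finset.sum_congr rfl fun t _ => ?_
  rw [map_mul, eval_C, eval_X, mul_comm]

private theorem om_smul {L : Submodule ℂ V4} (b : Module.Basis (Fin 2) ℂ L) (x : L) (c : ℂ) :
    om b x (c • x) = 0 := by
  simp only [om, map_smul, Finsupp.smul_apply, smul_eq_mul]
  ring

private theorem om_eq_zero {L : Submodule ℂ V4} (b : Module.Basis (Fin 2) ℂ L) {x y : L}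
    (hx : x ≠ 0) (h : om b x y = 0) : ∃ c : ℂ, y = c • x := by
  have h' : b.repr x 0 * b.repr y 1 = b.repr x 1 * b.repr y 0 := sub_eq_zero.1 h
  by_cases h0 : b.repr x 0 = 0
  · have h1 : b.repr x 1 ≠ 0 := by
      intro h1
      apply hx
      apply b.repr.injective
      ext t
      fin_cases t
      · simpa using h0
      · simpa using h1
    refine ⟨b.repr y 1 / b.repr x 1, ?_⟩
    apply b.repr.injective
    ext t
    fin_cases t
    · have h2 : b.repr y 0 = 0 := by
        rw [h0, zero_mul] at h'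
        exact (mul_eq_zero.1 h'.symm).resolve_left h1
      simp [h0, h2]
    · simp [h1]
  · refine ⟨b.repr y 0 / b.repr x 0, ?_⟩
    apply b.repr.injective
    ext t
    fin_cases t
    · simp [h0]
    · have h2 : b.repr y 1 = b.repr y 0 / b.repr x 0 * b.repr x 1 := by
        field_simp
        linear_combination h'
      simpa using h2

private theorem proj_add {A B : Submodule ℂ V4} (hAB : IsCompl A B) (P : V4) :
    (A.projectionOnto B hAB P : V4) + (B.projectionOnto A hAB.symm P : V4) = P :=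
  Submodule.projection_add_projection_eq_self hAB P

/-- The linear form of the plane spanned by a point of one line and another line. -/
private noncomputable def lam {A B : Submodule ℂ V4} (hAB : IsCompl A B)
    (b : Module.Basis (Fin 2) ℂ A) (x : A) : V4 →ₗ[ℂ] ℂ :=
  (b.repr x 0 • b.coord 1 - b.repr x 1 • b.coord 0) ∘ₗ A.projectionOnto B hAB

private theorem lam_apply {A B : Submodule ℂ V4} (hAB : IsCompl A B)
    (b : Module.Basis (Fin 2) ℂ A) (x : A) (P : V4) :
    lam hAB b x P = om b x (A.projectionOnto B hAB P) := rfl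

private theorem lam_zero_iff {A B : Submodule ℂ V4} (hAB : IsCompl A B)
    (b : Module.Basis (Fin 2) ℂ A) {x : A} (hx : x ≠ 0) (P : V4) :
    lam hAB b x P = 0 ↔ P ∈ Submodule.span ℂ {(x : V4)} ⊔ B := by
  rw [lam_apply]
  constructor
  · intro h
    obtain ⟨c, hc⟩ := om_eq_zero b hx h
    have h1 := proj_add hAB P
    rw [← h1, hc]
    refine Submodule.add_mem_sup ?_ (Subtype.mem _)
    exact Submodule.mem_span_singleton.2 ⟨c, rfl⟩
  · intro h
    obtain ⟨y, hy, u, hu, rfl⟩ := Submodule.mem_sup.1 h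
    obtain ⟨c, rfl⟩ := Submodule.mem_span_singleton.1 hy
    have h1 : A.projectionOnto B hAB (c • (x : V4) + u) = c • x := by
      have h2 : A.projectionOnto B hAB u = 0 :=
        (Submodule.projectionOnto_apply_eq_zero_iff hAB).2 hu
      rw [map_add, map_smul, Submodule.projectionOnto_apply_left, h2, add_zero]
    rw [h1]
    exact om_smul b x c

private theorem eval_neg_hom {F : MvPolynomial (Fin 4) ℂ} {m : ℕ} (hF : F.IsHomogeneous m)
    (x : V4) : eval (-x) F = (-1) ^ m * eval x F := by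
  rw [eval_eq', eval_eq', Finset.mul_sum]
  refine Finset.sum_congr rfl fun d hd => ?_
  have h1 : ∑ i, d i = m := by
    have h2 := hF (mem_support_iff.1 hd)
    rw [← h2, Finsupp.weight_apply, Finsupp.sum_fintype]
    · simp
    · simp
  have h3 : ∏ i, (-x) i ^ d i = (-1) ^ m * ∏ i, x i ^ d i := by
    rw [← h1, ← Finset.prod_pow_eq_pow_sum, ← Finset.prod_mul_distrib]
    refine Finset.prod_congr rfl fun i _ => ?_
    rw [Pi.neg_apply, neg_pow]
  rw [h3]
  ring

/-- One of the three relations. -/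
private theorem rel {A B : Submodule ℂ V4} (hAB : IsCompl A B) {m : ℕ}
    (b : Module.Basis (Fin 2) ℂ A) (b' : Module.Basis (Fin 2) ℂ B) (x : Fin m → A)
    (x' : Fin m → B) {F : MvPolynomial (Fin 4) ℂ} (hF : F.IsHomogeneous m) {P : V4}
    (hcone : ∀ (x : V4) (c : ℂ), eval (x + c • P) F = eval x F) {c c' : ℂ}
    (h : ∀ y : A, eval (y : V4) F = c * ∏ a, om b (x a) y)
    (h' : ∀ y : B, eval (y : V4) F = c' * ∏ a, om b' (x' a) y) :
    c * ∏ a, lam hAB b (x a) P = (-1) ^ m * (c' * ∏ a, lam hAB.symm b' (x' a) P) := by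
  have h1 := proj_add hAB P
  have h2 : (A.projectionOnto B hAB P : V4) =
      -(B.projectionOnto A hAB.symm P : V4) + (1 : ℂ) • P := by
    rw [one_smul, eq_sub_of_add_eq h1, sub_eq_neg_add]
  have h3 : eval (A.projectionOnto B hAB P : V4) F =
      (-1) ^ m * eval (B.projectionOnto A hAB.symm P : V4) F := by
    rw [h2, hcone, eval_neg_hom hF]
  rw [h, h'] at h3
  simpa only [lam_apply] using h3

/-- (The identity (C) of Step 5, as an identity of polynomial functions of `P`; the left side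
vanishes.) -/
theorem carnot (hC : Conf r m L z) (hg : GenCone m z) (hr : m < r) {i j k : Fin r}
    (hij : i ≠ j) (hjk : j ≠ k) (hik : i ≠ k) {P : V4} {a : Fin m}
    (hP : P ∈ Submodule.span ℂ {z (i, a)} ⊔ L j) :
    (∃ b, P ∈ Submodule.span ℂ {z (j, b)} ⊔ L i) ∨ (∃ b, P ∈ Submodule.span ℂ {z (k, b)} ⊔ L j) ∨
      ∃ b, P ∈ Submodule.span ℂ {z (i, b)} ⊔ L k := by
  classical
  have hm : 0 < m := Fin.pos a
  have hne : ∀ p : Fin r × Fin m, z p ≠ 0 := by
    rintro ⟨s, t⟩ h0
    obtain ⟨s', hs'⟩ : ∃ s', s' ≠ s := by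
      by_cases h : s = i
      · exact ⟨j, fun h1 => hij (h ▸ h1.symm)⟩
      · exact ⟨i, fun h1 => h h1.symm⟩
    have h1 := (hC.indep (s, t) (s', t) (fun h => hs' (congrArg Prod.fst h).symm)).ne_zero 0
    exact h1 h0
  obtain ⟨Φ, hΦ, hcone⟩ := hg
  obtain ⟨Ψ, hΨ, hgen⟩ := exists_gen hC
  let b : ∀ s, Module.Basis (Fin 2) ℂ (L s) := fun s =>
    Module.finBasisOfFinrankEq ℂ (L s) (hC.two s)
  let x : ∀ s, Fin m → L s := fun s t => ⟨z (s, t), hC.mem (s, t)⟩
  have hx : ∀ s t, x s t ≠ 0 := fun s t h => hne (s, t) (congrArg Subtype.val h)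
  have cij : IsCompl (L i) (L j) := hC.isCompl hij
  have cjk : IsCompl (L j) (L k) := hC.isCompl hjk
  have cki : IsCompl (L k) (L i) := hC.isCompl hik.symm
  have hsq : ((-1 : ℂ) ^ m) ^ 2 = 1 := by
    rw [← pow_mul, mul_comm, pow_mul]
    norm_num
  have key : ((∏ t, lp (lam cij (b i) (x i t))) * (∏ t, lp (lam cjk (b j) (x j t))) *
      (∏ t, lp (lam cki (b k) (x k t))) - C ((-1) ^ m) *
      ((∏ t, lp (lam cij.symm (b j) (x j t))) * (∏ t, lp (lam cjk.symm (b k) (x k t))) *
      (∏ t, lp (lam cki.symm (b i) (x i t))))) * (Φ * Ψ) = 0 := by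
    apply MvPolynomial.funext
    intro Q
    rw [map_zero, map_mul, map_mul]
    by_cases h1 : eval Q Φ = 0
    · rw [h1, zero_mul, mul_zero]
    by_cases h2 : eval Q Ψ = 0
    · rw [h2, mul_zero, mul_zero]
    obtain ⟨F, hF, hF0, hco, hz⟩ := hcone Q h1
    have hQ := hgen Q h2
    have hQ' : ∀ s, Q ∉ L s := by
      intro s hs
      obtain ⟨s', hs'⟩ : ∃ s', s ≠ s' := by
        by_cases h : s = i
        · exact ⟨j, fun h1 => hij (h ▸ h1)⟩
        · exact ⟨i, h⟩
      exact hQ (s', a) s hs' (Submodule.mem_sup_right hs)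
    have hline : ∀ s, ∃ c : ℂ, c ≠ 0 ∧
        ∀ y : L s, eval (y : V4) F = c * ∏ t, om (b s) (x s t) y := by
      intro s
      have hne : ∀ t, x s t ≠ 0 := by
        intro t h0
        obtain ⟨s', hs'⟩ : ∃ s', s ≠ s' := by
          by_cases h : s = i
          · exact ⟨j, fun h1 => hij (h ▸ h1)⟩
          · exact ⟨i, h⟩
        have h1 := (hC.indep (s, t) (s', a) fun h' => hs' (congrArg Prod.fst h')).ne_zero 0
        exact h1 (congrArg (fun w : L s => (w : V4)) h0)
      obtain ⟨c, hc⟩ := form_on_line (b s) (x s)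
        (fun t t' h => hC.indep (s, t) (s, t') fun h' => h (congrArg Prod.snd h')) hne hF
        (fun t => hz (s, t))
      refine ⟨c, ?_, hc⟩
      rintro rfl
      obtain ⟨y, hy, hy0⟩ := cone_lines hC hr hQ hQ' hF hF0 hco hz s
      exact hy0 (by rw [hc ⟨y, hy⟩, zero_mul])
    obtain ⟨ci, hi0, hi⟩ := hline i
    obtain ⟨cj, hj0, hj⟩ := hline j
    obtain ⟨ck, hk0, hk⟩ := hline k
    have r1 := rel cij (b i) (b j) (x i) (x j) hF hco hi hj
    have r2 := rel cjk (b j) (b k) (x j) (x k) hF hco hj hk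
    have r3 := rel cki (b k) (b i) (x k) (x i) hF hco hk hi
    have h3 : (∏ t, lam cij (b i) (x i t) Q) * (∏ t, lam cjk (b j) (x j t) Q) *
        (∏ t, lam cki (b k) (x k t) Q) = (-1) ^ m *
        ((∏ t, lam cij.symm (b j) (x j t) Q) * (∏ t, lam cjk.symm (b k) (x k t) Q) *
        (∏ t, lam cki.symm (b i) (x i t) Q)) := by
      have h4 : ci * cj * ck ≠ 0 := mul_ne_zero (mul_ne_zero hi0 hj0) hk0
      apply mul_left_cancel₀ h4
      have h5 : (ci * ∏ t, lam cij (b i) (x i t) Q) * (cj * ∏ t, lam cjk (b j) (x j t) Q) *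
          (ck * ∏ t, lam cki (b k) (x k t) Q) = _ := congrArg₂ (· * ·)
            (congrArg₂ (· * ·) r1 r2) r3
      linear_combination h5 + (-1 : ℂ) ^ m * (ci * cj * ck) *
        ((∏ t, lam cij.symm (b j) (x j t) Q) * (∏ t, lam cjk.symm (b k) (x k t) Q) *
        (∏ t, lam cki.symm (b i) (x i t) Q)) * hsq
    have h6 : eval Q ((∏ t, lp (lam cij (b i) (x i t))) * (∏ t, lp (lam cjk (b j) (x j t))) *
        (∏ t, lp (lam cki (b k) (x k t))) - C ((-1) ^ m) *
        ((∏ t, lp (lam cij.symm (b j) (x j t))) * (∏ t, lp (lam cjk.symm (b k) (x k t))) *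
        (∏ t, lp (lam cki.symm (b i) (x i t))))) = 0 := by
      simp only [map_sub, map_mul, map_prod, eval_lp, eval_C]
      rw [h3, sub_self]
    rw [h6, zero_mul]
  have hid := (mul_eq_zero.1 key).resolve_right (mul_ne_zero hΦ hΨ)
  have hP2 := congrArg (eval P) hid
  simp only [map_sub, map_mul, map_prod, eval_lp, eval_C, map_zero] at hP2
  have hzero : ∏ t, lam cij (b i) (x i t) P = 0 :=
    Finset.prod_eq_zero (Finset.mem_univ a) ((lam_zero_iff cij (b i) (hx i a) P).2 hP)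
  rw [hzero, zero_mul, zero_mul, zero_sub, neg_eq_zero] at hP2
  have hm1 : ((-1 : ℂ) ^ m) ≠ 0 := pow_ne_zero _ (by norm_num)
  have h7 := (mul_eq_zero.1 hP2).resolve_left hm1
  rcases mul_eq_zero.1 h7 with h8 | h8
  · rcases mul_eq_zero.1 h8 with h9 | h9
    · obtain ⟨t, -, ht⟩ := Finset.prod_eq_zero_iff.1 h9
      exact Or.inl ⟨t, (lam_zero_iff cij.symm (b j) (hx j t) P).1 ht⟩
    · obtain ⟨t, -, ht⟩ := Finset.prod_eq_zero_iff.1 h9
      exact Or.inr (Or.inl ⟨t, (lam_zero_iff cjk.symm (b k) (hx k t) P).1 ht⟩)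
  · obtain ⟨t, -, ht⟩ := Finset.prod_eq_zero_iff.1 h8
    exact Or.inr (Or.inr ⟨t, (lam_zero_iff cki.symm (b i) (hx i t) P).1 ht⟩)

end Pool.Agent.MPf00b8a
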