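import Pool.Agent.Lib.MP_f00b8a_ag.Defs

/-!
# Forms on a line
-/

set_option autoImplicit false

namespace Pool.Agent.MPf00b8a

open MvPolynomial

private theorem LineA_deg {t : ℕ} {q : MvPolynomial (Fin 4) ℂ} (hq : q.IsHomogeneous t)
    {d : Fin 4 →₀ ℕ} (hd : d ∈ q.support) : ∑ i, d i = t := by
  have h := hq (mem_support_iff.1 hd)
  rw [Finsupp.weight_apply, Finsupp.sum_fintype _ _ (by simp)] at h
  simpa using h

private theorem LineA_smul {t : ℕ} {q : MvPolynomial (Fin 4) ℂ} (hq : q.IsHomogeneous t) (c : ℂ)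
    (x : V4) : eval (c • x) q = c ^ t * eval x q := by
  rw [eval_eq', eval_eq', Finset.mul_sum]
  refine Finset.sum_congr rfl fun d hd => ?_
  simp only [Pi.smul_apply, smul_eq_mul, mul_pow, Finset.prod_mul_distrib,
    Finset.prod_pow_eq_pow_sum, LineA_deg hq hd]
  ring

/-- The restriction of a form to an affine line. -/
private noncomputable def LineA_poly (q : MvPolynomial (Fin 4) ℂ) (u w : V4) : Polynomial ℂ :=
  ∑ d ∈ q.support, Polynomial.C (q.coeff d) *
    ∏ i, (Polynomial.C (u i) + Polynomial.C (w i) * Polynomial.X) ^ d i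

private theorem LineA_eval (q : MvPolynomial (Fin 4) ℂ) (u w : V4) (s : ℂ) :
    (LineA_poly q u w).eval s = eval (u + s • w) q := by
  rw [eval_eq', LineA_poly, Polynomial.eval_finsetSum]
  refine Finset.sum_congr rfl fun d _ => ?_
  rw [Polynomial.eval_mul, Polynomial.eval_C, Polynomial.eval_prod]
  congr 1
  refine Finset.prod_congr rfl fun i _ => ?_
  simp only [Polynomial.eval_pow, Polynomial.eval_add, Polynomial.eval_C, Polynomial.eval_mul,
    Polynomial.eval_X, Pi.add_apply, Pi.smul_apply, smul_eq_mul]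
  ring

private theorem LineA_natDegree {t : ℕ} {q : MvPolynomial (Fin 4) ℂ} (hq : q.IsHomogeneous t)
    (u w : V4) : (LineA_poly q u w).natDegree ≤ t := by
  refine Polynomial.natDegree_sum_le_of_forall_le _ _ fun d hd => ?_
  refine (Polynomial.natDegree_C_mul_le _ _).trans ((Polynomial.natDegree_prod_le _ _).trans ?_)
  rw [← LineA_deg hq hd]
  refine Finset.sum_le_sum fun i _ => ?_
  have h : (Polynomial.C (u i) + Polynomial.C (w i) * Polynomial.X : Polynomial ℂ).natDegree ≤
      1 := by
    compute_degree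
  have h2 := Polynomial.natDegree_pow_le_of_le (d i) h
  rwa [mul_one] at h2

section Om

variable {L : Submodule ℂ V4} (b : Module.Basis (Fin 2) ℂ L)

private theorem LineA_self (x : L) : om b x x = 0 := by
  rw [om]
  ring

private theorem LineA_pl (x y w : L) : om b y w • x = om b x w • y + om b y x • w := by
  refine b.ext_elem fun i => ?_
  simp only [map_smul, map_add, Finsupp.smul_apply, Finsupp.add_apply, smul_eq_mul, om]
  fin_cases i
  · simp only [Fin.zero_eta]
    ring
  · simp only [Fin.mk_one]
    ring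

private theorem LineA_lin (x y : L) (r s : ℂ) : om b (r • x) (s • y) = r * s * om b x y := by
  simp only [om, map_smul, Finsupp.smul_apply, smul_eq_mul]
  ring

private theorem LineA_ne {x y : L} (h : LinearIndependent ℂ ![(x : V4), (y : V4)]) :
    om b x y ≠ 0 := by
  intro h0
  have h1 : ∀ r s : ℂ, r • x + s • y = 0 → r = 0 ∧ s = 0 := by
    intro r s hrs
    have h2 := congrArg (fun z : L => (z : V4)) hrs
    exact (LinearIndependent.pair_iff.1 h) r s h2
  have h3 : ∀ i, b.repr y i • x + (-b.repr x i) • y = 0 := by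
    intro i
    refine b.ext_elem fun j => ?_
    simp only [map_smul, map_add, Finsupp.smul_apply, Finsupp.add_apply, smul_eq_mul, map_zero,
      Finsupp.zero_apply]
    rw [om] at h0
    fin_cases i <;> fin_cases j
    · simp only [Fin.zero_eta]
      ring
    · simp only [Fin.zero_eta, Fin.mk_one]
      linear_combination (-1 : ℂ) * h0
    · simp only [Fin.zero_eta, Fin.mk_one]
      linear_combination h0
    · simp only [Fin.mk_one]
      ring
  have h4 : y = 0 := by
    refine b.ext_elem fun i => ?_
    rw [(h1 _ _ (h3 i)).1, map_zero, Finsupp.zero_apply]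
  have h5 := h1 0 1 (by rw [h4, smul_zero, zero_smul, add_zero])
  exact one_ne_zero h5.2

private theorem LineA_exists {κ : Type} (S : Finset κ) (x : κ → L) (hx : ∀ a ∈ S, x a ≠ 0) :
    ∃ w : L, ∀ a ∈ S, om b (x a) w ≠ 0 := by
  classical
  obtain ⟨c, hc⟩ := Infinite.exists_notMem_finset
    (S.image fun a => b.repr (x a) 1 / b.repr (x a) 0)
  refine ⟨b 0 + c • b 1, fun a ha h0 => ?_⟩
  have e0 : b.repr (b 0 + c • b 1) 0 = 1 := by simp
  have e1 : b.repr (b 0 + c • b 1) 1 = c := by simp
  rw [om, e0, e1, mul_one] at h0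
  by_cases h1 : b.repr (x a) 0 = 0
  · refine hx a ha (b.ext_elem fun i => ?_)
    rw [map_zero, Finsupp.zero_apply]
    fin_cases i
    · exact h1
    · change b.repr (x a) 1 = 0
      rw [h1, zero_mul, zero_sub, neg_eq_zero] at h0
      exact h0
  · refine hc (Finset.mem_image.2 ⟨a, ha, ?_⟩)
    rw [div_eq_iff h1]
    linear_combination (-1 : ℂ) * h0

private theorem LineA_main {κ : Type} (S : Finset κ) (x : κ → L) (hne : ∀ a ∈ S, x a ≠ 0)
    (hind : ∀ a ∈ S, ∀ a' ∈ S, a ≠ a' → om b (x a) (x a') ≠ 0) {t : ℕ} (ht : t < S.card)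
    {q : MvPolynomial (Fin 4) ℂ} (hq : q.IsHomogeneous t)
    (h0 : ∀ a ∈ S, eval (x a : V4) q = 0) (y : L) : eval (y : V4) q = 0 := by
  classical
  by_cases hy : y = 0
  · obtain ⟨a, ha⟩ := Finset.card_pos.1 (lt_of_le_of_lt (Nat.zero_le _) ht)
    have h1 := LineA_smul hq 0 (x a : V4)
    rw [h0 a ha, mul_zero, zero_smul] at h1
    rw [hy]
    exact h1
  · obtain ⟨w, hw⟩ := LineA_exists b (Finset.insertNone S) (fun o => o.elim y x) (by
      intro o ho
      cases o with
      | none => exact hy
      | some a => exact hne a (Finset.some_mem_insertNone.1 ho))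
    have hyw : om b y w ≠ 0 := hw none (Finset.none_mem_insertNone)
    have hxw : ∀ a ∈ S, om b (x a) w ≠ 0 := fun a ha =>
      hw (some a) (Finset.some_mem_insertNone.2 ha)
    have key : ∀ a ∈ S, y + (om b y (x a) / om b (x a) w) • w =
        (om b y w / om b (x a) w) • x a := by
      intro a ha
      have h1 := LineA_pl b (x a) y w
      have h2 := hxw a ha
      have h3 : (om b y w / om b (x a) w) • x a = (om b (x a) w)⁻¹ • (om b y w • x a) := by
        rw [smul_smul, div_eq_inv_mul]
      have h4 : (om b y (x a) / om b (x a) w) • w = (om b (x a) w)⁻¹ • (om b y (x a) • w) := by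
        rw [smul_smul, div_eq_inv_mul]
      rw [h3, h4, h1, smul_add, inv_smul_smul₀ h2]
    have hinj : Set.InjOn (fun a => om b y (x a) / om b (x a) w) (S : Set κ) := by
      intro a ha a' ha' he
      by_contra hne'
      have he' : om b y (x a) / om b (x a) w = om b y (x a') / om b (x a') w := he
      have h1 := key a ha
      rw [he', key a' ha'] at h1
      have h2 := LineA_lin b (x a) (x a') (om b y w / om b (x a) w) (om b y w / om b (x a') w)
      rw [h1, LineA_self] at h2
      have h3 := hxw a ha
      have h4 := hxw a' ha'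
      exact (mul_ne_zero (mul_ne_zero (div_ne_zero hyw h3) (div_ne_zero hyw h4))
        (hind a ha a' ha' hne')) h2.symm
    have hP : LineA_poly q (y : V4) (w : V4) = 0 := by
      refine Polynomial.eq_zero_of_natDegree_lt_card_of_eval_eq_zero' _
        (S.image fun a => om b y (x a) / om b (x a) w) ?_ ?_
      · intro s hs
        obtain ⟨a, ha, rfl⟩ := Finset.mem_image.1 hs
        rw [LineA_eval]
        have h1 := congrArg (fun z : L => (z : V4)) (key a ha)
        have h2 : (y : V4) + (om b y (x a) / om b (x a) w) • (w : V4) =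
            (om b y w / om b (x a) w) • (x a : V4) := h1
        rw [h2, LineA_smul hq, h0 a ha, mul_zero]
      · rw [Finset.card_image_of_injOn hinj]
        exact lt_of_le_of_lt (LineA_natDegree hq _ _) ht
    have h5 := LineA_eval q (y : V4) (w : V4) 0
    rw [hP, Polynomial.eval_zero, zero_smul, add_zero] at h5
    exact h5.symm

end Om

/-- A form of degree `t` that vanishes at more than `t` points of a line vanishes on the line. -/
theorem form_zero_on_line {L : Submodule ℂ V4} (hL : Module.finrank ℂ L = 2) {κ : Type}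
    (S : Finset κ) (x : κ → V4) (hx : ∀ a ∈ S, x a ∈ L)
    (hind : ∀ a ∈ S, ∀ b ∈ S, a ≠ b → LinearIndependent ℂ ![x a, x b]) {t : ℕ} (ht : t < S.card)
    {q : MvPolynomial (Fin 4) ℂ} (hq : q.IsHomogeneous t) (h0 : ∀ a ∈ S, eval (x a) q = 0)
    {y : V4} (hy : y ∈ L) : eval y q = 0 := by
  classical
  rcases Nat.eq_zero_or_pos t with rfl | htp
  · obtain ⟨a, ha⟩ := Finset.card_pos.1 ht
    have h1 := LineA_smul hq 0 (x a)
    have h2 := LineA_smul hq 0 y
    rw [pow_zero, one_mul, zero_smul] at h1 h2
    rw [← h2, h1, h0 a ha]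
  · let b : Module.Basis (Fin 2) ℂ L := Module.finBasisOfFinrankEq ℂ L hL
    let x' : κ → L := fun a => if h : a ∈ S then ⟨x a, hx a h⟩ else 0
    have hx' : ∀ a ∈ S, (x' a : V4) = x a := by
      intro a ha
      change ((if h : a ∈ S then (⟨x a, hx a h⟩ : L) else 0 : L) : V4) = x a
      rw [dif_pos ha]
    have hind' : ∀ a ∈ S, ∀ a' ∈ S, a ≠ a' → LinearIndependent ℂ ![(x' a : V4), (x' a' : V4)] := by
      intro a ha a' ha' h
      rw [hx' a ha, hx' a' ha']
      exact hind a ha a' ha' h
    refine LineA_main b S x' ?_ (fun a ha a' ha' h => LineA_ne b (hind' a ha a' ha' h)) ht hq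
      (fun a ha => by rw [hx' a ha]; exact h0 a ha) ⟨y, hy⟩
    intro a ha he
    obtain ⟨a', ha', hne⟩ := Finset.exists_mem_ne (by omega : 1 < S.card) a
    have h1 := (hind' a' ha' a ha hne).ne_zero 1
    refine h1 ?_
    change (x' a : V4) = 0
    rw [he]
    rfl

/-- A form of degree `m` that vanishes at `m` points of a line. -/
theorem form_on_line {L : Submodule ℂ V4} (b : Module.Basis (Fin 2) ℂ L) {m : ℕ}
    (x : Fin m → L) (hind : ∀ a a', a ≠ a' → LinearIndependent ℂ ![(x a : V4), (x a' : V4)])
    (hne : ∀ a, x a ≠ 0)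
    {q : MvPolynomial (Fin 4) ℂ} (hq : q.IsHomogeneous m) (h0 : ∀ a, eval (x a : V4) q = 0) :
    ∃ c : ℂ, ∀ y : L, eval (y : V4) q = c * ∏ a, om b (x a) y := by
  classical
  obtain ⟨w, hw⟩ := LineA_exists b Finset.univ x fun a _ => hne a
  have hext : ∀ a, ∃ g : V4 →ₗ[ℂ] ℂ, ∀ y : L, g (y : V4) = om b (x a) y := by
    intro a
    obtain ⟨g, hg⟩ := LinearMap.exists_extend
      (b.repr (x a) 0 • b.coord 1 - b.repr (x a) 1 • b.coord 0)
    refine ⟨g, fun y => ?_⟩
    have h1 := LinearMap.congr_fun hg y
    simpa [om] using h1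
  choose g hg using hext
  let l : Fin m → MvPolynomial (Fin 4) ℂ := fun a =>
    ∑ i, C (g a fun j => if i = j then 1 else 0) * X i
  have hl : ∀ a (z : V4), eval z (l a) = g a z := by
    intro a z
    change eval z (∑ i, C (g a fun j => if i = j then 1 else 0) * X i) = g a z
    rw [LinearMap.pi_apply_eq_sum_univ (g a) z, map_sum]
    refine Finset.sum_congr rfl fun i _ => ?_
    rw [map_mul, eval_C, eval_X, smul_eq_mul, mul_comm]
  have hlh : ∀ a, (l a).IsHomogeneous 1 := by
    intro a
    exact IsHomogeneous.sum _ _ _ fun i _ => isHomogeneous_C_mul_X _ _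
  have hprod : (∏ a, l a).IsHomogeneous m := by
    have h1 := IsHomogeneous.prod Finset.univ l (fun _ => 1) fun a _ => hlh a
    simpa using h1
  have hpe : ∀ y : L, eval (y : V4) (∏ a, l a) = ∏ a, om b (x a) y := by
    intro y
    rw [map_prod]
    exact Finset.prod_congr rfl fun a _ => by rw [hl, hg]
  have hw0 : ∏ a, om b (x a) w ≠ 0 := Finset.prod_ne_zero_iff.2 fun a ha => hw a ha
  refine ⟨eval (w : V4) q / ∏ a, om b (x a) w, fun y => ?_⟩
  have hwne : ∀ _ : Fin m, w ≠ 0 := by
    intro a h
    refine hw a (Finset.mem_univ a) ?_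
    rw [h, om]
    simp
  rcases Nat.eq_zero_or_pos m with rfl | hm
  · have h1 := LineA_smul hq 0 (w : V4)
    have h2 := LineA_smul hq 0 (y : V4)
    rw [pow_zero, one_mul, zero_smul] at h1 h2
    rw [← h2, h1]
    simp
  · have hmain := LineA_main b (κ := Option (Fin m)) Finset.univ (fun o => o.elim w x) ?_ ?_
      (t := m) ?_ (q := q - C (eval (w : V4) q / ∏ a, om b (x a) w) * ∏ a, l a) ?_ ?_ y
    · rw [map_sub, map_mul, eval_C, hpe] at hmain
      exact sub_eq_zero.1 hmain
    · intro o _
      cases o with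
      | none => exact hwne ⟨0, hm⟩
      | some a => exact hne a
    · intro o _ o' _ hoo
      cases o with
      | none =>
        cases o' with
        | none => exact absurd rfl hoo
        | some a =>
          intro h
          refine hw a (Finset.mem_univ a) ?_
          have h' : om b w (x a) = 0 := h
          rw [om] at h' ⊢
          linear_combination (-1 : ℂ) * h'
      | some a =>
        cases o' with
        | none => exact hw a (Finset.mem_univ a)
        | some a' => exact LineA_ne b (hind a a' fun h => hoo (by rw [h]))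
    · rw [Finset.card_univ, Fintype.card_option, Fintype.card_fin]
      exact Nat.lt_succ_self m
    · have h1 := hprod.C_mul (eval (w : V4) q / ∏ a, om b (x a) w)
      exact hq.sub h1
    · intro o _
      rw [map_sub, map_mul, eval_C, sub_eq_zero]
      cases o with
      | none =>
        change eval (w : V4) q = _ * eval (w : V4) (∏ a, l a)
        rw [hpe, div_mul_cancel₀ _ hw0]
      | some a =>
        change eval (x a : V4) q = _ * eval (x a : V4) (∏ a, l a)
        have h2 : ∏ a', om b (x a') (x a) = 0 :=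
          Finset.prod_eq_zero (Finset.mem_univ a) (LineA_self b (x a))
        rw [hpe, h0, h2, mul_zero]

end Pool.Agent.MPf00b8a
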