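import Pool.Agent.Lib.MP_f00b8a_ag.FiltA
import Pool.Agent.Lib.MP_f00b8a_ag.LineA

/-!
# Collinear points
-/

set_option autoImplicit false

namespace Pool.Agent.MPf00b8a

open MvPolynomial

variable {ι : Type}

theorem rk_line {v : ι → V4} {l : MvPolynomial (Fin 4) ℂ} (h : Norm v l) (Y : Finset ι)
    {T : Submodule ℂ V4} (hT : Module.finrank ℂ T = 2) (hY : ∀ i ∈ Y, v i ∈ T)
    (hind : ∀ i ∈ Y, ∀ j ∈ Y, i ≠ j → LinearIndependent ℂ ![v i, v j]) (t : ℕ) :
    rk v Y t = min t Y.card := by
  classical
  rcases t with _ | t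
  · rw [rk, filt_zero, Submodule.map_bot, finrank_bot, Nat.zero_min]
  · obtain ⟨Y', hYY, hcard⟩ := Finset.exists_subset_card_eq (s := Y) (n := min (t + 1) Y.card)
      (min_le_right _ _)
    let inc : Y' → Y := fun x => ⟨x.1, hYY x.2⟩
    let ρ : ((filt v (t + 1)).map (LinearMap.funLeft ℂ ℂ (Subtype.val : Y → ι))) →ₗ[ℂ]
        (Y' → ℂ) := (LinearMap.funLeft ℂ ℂ inc).domRestrict _
    have hbij : Function.Bijective ρ := by
      constructor
      · rw [← LinearMap.ker_eq_bot, LinearMap.ker_eq_bot']
        rintro ⟨u, hu⟩ hρ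
        obtain ⟨f, hf, rfl⟩ := hu
        obtain ⟨q, hq, hqf⟩ := (mem_filt_succ v t f).1 hf
        have h0 : ∀ a ∈ Y', eval (v a) q = 0 := by
          intro a ha
          rw [hqf a]
          exact congrFun hρ ⟨a, ha⟩
        apply Subtype.ext
        funext y
        show f y.1 = 0
        rw [← hqf]
        by_cases ht : t < Y'.card
        · exact form_zero_on_line hT Y' v (fun a ha => hY a (hYY ha))
            (fun a ha b hb hab => hind a (hYY ha) b (hYY hb) hab) ht hq h0 (hY y.1 y.2)
        · have hYe : Y' = Y := by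
            refine Finset.eq_of_subset_of_card_le hYY ?_
            rw [hcard] at ht ⊢
            omega
          exact h0 y.1 (by rw [hYe]; exact y.2)
      · intro g
        have hN : Norm (fun x : Y' => v x.1) l := ⟨h.hom, fun x => h.one x.1⟩
        have hinj : Function.Injective (fun x : Y' => v x.1) := by
          intro a b hab
          by_contra hne
          have h1 := hind a.1 (hYY a.2) b.1 (hYY b.2) (fun h => hne (Subtype.ext h))
          have h2 : v a.1 = v b.1 := hab
          rw [h2] at h1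
          have h3 := LinearIndependent.injective h1 (a₁ := 0) (a₂ := 1) rfl
          exact absurd h3 (by decide)
        have htop := filt_card hN hinj
        rw [Fintype.card_coe] at htop
        have hle : filt (fun x : Y' => v x.1) Y'.card ≤ filt (fun x : Y' => v x.1) (t + 1) :=
          filt_mono hN (by rw [hcard]; exact min_le_left _ _)
        have hg : g ∈ filt (fun x : Y' => v x.1) (t + 1) := by
          apply hle
          rw [htop]
          exact Submodule.mem_top
        obtain ⟨q, hq, hqg⟩ := (mem_filt_succ _ t g).1 hg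
        refine ⟨⟨_, Submodule.mem_map_of_mem
          ((mem_filt_succ v t (fun i => eval (v i) q)).2 ⟨q, hq, fun _ => rfl⟩)⟩, ?_⟩
        funext x
        exact hqg x
    have h1 := (LinearEquiv.ofBijective ρ hbij).finrank_eq
    rw [rk, h1, Module.finrank_fintype_fun_eq_card, Fintype.card_coe, hcard]

/-- (Otherwise there is a nonzero function `c` on `Y` which is orthogonal to the restrictions of
the elements of `filt v (σ - 1)`; so `c / w`, extended by zero, is in `filt v 1`, and it is
zero at `i`.) -/
theorem Dual.card_lt [Fintype ι] {v : ι → V4} {σ : ℕ} {w : ι → ℂ} (hD : Dual v σ w)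
    {l : MvPolynomial (Fin 4) ℂ} (h : Norm v l) (Y : Finset ι)
    {T : Submodule ℂ V4} (hT : Module.finrank ℂ T = 2) (hY : ∀ i ∈ Y, v i ∈ T)
    (hind : ∀ i ∈ Y, ∀ j ∈ Y, i ≠ j → LinearIndependent ℂ ![v i, v j]) {i : ι} (hi : i ∉ Y) :
    Y.card < σ := by
  classical
  rcases Nat.eq_zero_or_pos σ with h0 | hpos
  · exfalso
    subst h0
    have h1 := (hD.perp 0 le_rfl (fun _ => (1 : ℂ))).2 (by
      intro g hg
      have hg0 : g = 0 := by simpa [filt_zero] using hg
      rw [hg0]
      simp)
    have h2 : (fun _ : ι => (1 : ℂ)) = 0 := by simpa [filt_zero] using h1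
    exact one_ne_zero (congrFun h2 i)
  · by_contra hcon
    have hle : σ ≤ Y.card := not_lt.1 hcon
    have hrk := rk_line h Y hT hY hind (σ - 1)
    rw [min_eq_left (by omega)] at hrk
    have hne : (filt v (σ - 1)).map (LinearMap.funLeft ℂ ℂ (Subtype.val : Y → ι)) ≠ ⊤ := by
      intro htop
      rw [rk, htop, finrank_top, Module.finrank_fintype_fun_eq_card, Fintype.card_coe] at hrk
      omega
    obtain ⟨φ, hφ, hker⟩ := Submodule.exists_le_ker_of_lt_top _ (lt_top_iff_ne_top.2 hne)
    have hval : ∀ u : Y → ℂ, φ u = ∑ y, u y * φ (Pi.single y 1) := by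
      intro u
      rw [LinearMap.pi_apply_eq_sum_univ φ u]
      refine Finset.sum_congr rfl fun s _ => ?_
      rw [smul_eq_mul]
      congr 2
      funext j
      rw [Pi.single_apply]
      simp only [eq_comm]
    let f : ι → ℂ := fun j => if hj : j ∈ Y then φ (Pi.single ⟨j, hj⟩ 1) / w j else 0
    have hfY : ∀ y : Y, w y.1 * f y.1 = φ (Pi.single y 1) := by
      intro y
      show w y.1 * (if hj : y.1 ∈ Y then φ (Pi.single ⟨y.1, hj⟩ 1) / w y.1 else 0) = _
      rw [dif_pos y.2]
      exact mul_div_cancel₀ _ (hD.ne y.1)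
    have hf0 : ∀ j, j ∉ Y → f j = 0 := by
      intro j hj
      exact dif_neg hj
    have hf1 : f ∈ filt v (σ - (σ - 1)) := by
      refine (hD.perp (σ - 1) (Nat.sub_le _ _) f).2 fun g hg => ?_
      have h1 : ∑ j, w j * f j * g j = ∑ j ∈ Y, w j * f j * g j := by
        refine (Finset.sum_subset (Finset.subset_univ Y) fun j _ hj => ?_).symm
        rw [hf0 j hj, mul_zero, zero_mul]
      have h2 : φ (LinearMap.funLeft ℂ ℂ (Subtype.val : Y → ι) g) = 0 :=
        hker (Submodule.mem_map_of_mem hg)
      rw [h1, ← Finset.sum_coe_sort Y (fun j => w j * f j * g j), ← h2, hval]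
      refine Finset.sum_congr rfl fun y _ => ?_
      rw [hfY y, mul_comm]
      rfl
    have hσ : σ - (σ - 1) = 1 := by omega
    rw [hσ] at hf1
    obtain ⟨c, hc⟩ := (mem_filt_one v f).1 hf1
    have hc0 : c = 0 := by rw [← hc i, hf0 i hi]
    apply hφ
    refine LinearMap.ext fun u => ?_
    rw [hval u, LinearMap.zero_apply]
    refine Finset.sum_eq_zero fun y _ => ?_
    rw [← hfY y, hc y.1, hc0, mul_zero, mul_zero]

end Pool.Agent.MPf00b8a
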