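import Pool.Agent.Lib.MP_f00b8a_ag.RkA
import Pool.Agent.Lib.MP_f00b8a_ag.Coll

/-!
# The plane section
-/

set_option autoImplicit false

namespace Pool.Agent.MPf00b8a

open MvPolynomial

private theorem RkC_sup_top {r m : ℕ} {L : Fin r → Submodule ℂ V4} {z : Fin r × Fin m → V4}
    (hC : Conf r m L z) {i j : Fin r} (hij : i ≠ j) : L i ⊔ L j = ⊤ := by
  have h := Submodule.finrank_sup_add_finrank_inf_eq (L i) (L j)
  rw [(hC.skew i j hij).eq_bot, finrank_bot, hC.two i, hC.two j] at h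
  refine Submodule.eq_top_of_finrank_eq ?_
  rw [Module.finrank_fintype_fun_eq_card, Fintype.card_fin]
  omega

/-- A functional that vanishes at two points of `L i` and on `L j` is zero. -/
private theorem RkC_unique {r m : ℕ} {L : Fin r → Submodule ℂ V4} {z : Fin r × Fin m → V4}
    (hC : Conf r m L z) {i j : Fin r} (hij : i ≠ j) {lam : V4 →ₗ[ℂ] ℂ} (hlam : lam ≠ 0)
    (hj : L j ≤ LinearMap.ker lam) {b b' : Fin m} (hb : lam (z (i, b)) = 0)
    (hb' : lam (z (i, b')) = 0) : b = b' := by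
  by_contra hne
  have hind := hC.indep (i, b) (i, b') (fun h => hne (congrArg Prod.snd h))
  have h1 : Submodule.span ℂ (Set.range ![z (i, b), z (i, b')]) = L i := by
    refine Submodule.eq_of_le_of_finrank_eq ?_ ?_
    · rw [Submodule.span_le]
      rintro _ ⟨k, rfl⟩
      fin_cases k
      · exact hC.mem (i, b)
      · exact hC.mem (i, b')
    · rw [finrank_span_eq_card hind, Fintype.card_fin, hC.two i]
  have h2 : L i ≤ LinearMap.ker lam := by
    rw [← h1, Submodule.span_le]
    rintro _ ⟨k, rfl⟩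
    fin_cases k
    · exact hb
    · exact hb'
  have h3 : (⊤ : Submodule ℂ V4) ≤ LinearMap.ker lam := by
    rw [← RkC_sup_top hC hij]
    exact sup_le h2 hj
  exact hlam (LinearMap.ker_eq_top.1 (top_le_iff.1 h3))

/-- ((8a) of the text.  The plane is spanned by one of the lines, `L i₀`, and a point of another
line; `Y` = the points of the configuration in the plane; compare `filt z t ⊓ fsupp Y` and
`filt z t ⊓ fsupp Y'`, `Y'` = the points on `L i₀`, for `t ≤ m - 1`.) -/
theorem plane_section {r m : ℕ} {L : Fin r → Submodule ℂ V4} {z : Fin r × Fin m → V4}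
    (hC : Conf r m L z) (hT : PropT L z) (hr : 2 ≤ r) (hm : 1 ≤ m)
    {l : MvPolynomial (Fin 4) ℂ} (h : Norm z l) {σ : ℕ} {w : Fin r × Fin m → ℂ}
    (hD : Dual z σ w) (hσ : m ≤ σ) :
    ∃ (Y : Finset (Fin r × Fin m)) (lam : V4 →ₗ[ℂ] ℂ), (∀ p, p ∈ Y ↔ lam (z p) = 0) ∧
      Y.card + 1 = m + r ∧ ∀ j, σ + 1 ≤ j + m → j ≤ m → rk z Y j + 1 = r + j := by
  classical
  obtain ⟨i₀, i₁, h01⟩ : ∃ i₀ i₁ : Fin r, i₁ ≠ i₀ :=
    ⟨⟨0, by omega⟩, ⟨1, by omega⟩, fun h => absurd (congrArg Fin.val h) (by norm_num)⟩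
  obtain ⟨a⟩ : Nonempty (Fin m) := ⟨⟨0, by omega⟩⟩
  have hv0 : z (i₁, a) ≠ 0 :=
    (hC.indep (i₁, a) (i₀, a) (fun h => h01 (congrArg Prod.fst h))).ne_zero 0
  have hlt : Submodule.span ℂ {z (i₁, a)} ⊔ L i₀ < ⊤ := by
    rw [lt_top_iff_ne_top]
    intro htop
    have h1 := Submodule.finrank_sup_add_finrank_inf_eq (Submodule.span ℂ {z (i₁, a)}) (L i₀)
    rw [htop, finrank_span_singleton hv0, hC.two, finrank_top,
      Module.finrank_fintype_fun_eq_card, Fintype.card_fin] at h1
    omega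
  obtain ⟨lam, hlam, hker⟩ := Submodule.exists_le_ker_of_lt_top _ hlt
  have hker0 : L i₀ ≤ LinearMap.ker lam := le_sup_right.trans hker
  have hex : ∀ i, i ≠ i₀ → ∃ b : Fin m, lam (z (i, b)) = 0 := by
    intro i hi
    by_cases hi1 : i = i₁
    · subst hi1
      exact ⟨a, hker (Submodule.mem_sup_left (Submodule.mem_span_singleton_self _))⟩
    · obtain ⟨b, hb⟩ := hT i₁ i₀ i h01 hi.symm (Ne.symm hi1) a
      exact ⟨b, hker hb⟩
  have hβ : ∃ β : Fin r → Fin m, ∀ i, i ≠ i₀ → ∀ b, lam (z (i, b)) = 0 ↔ b = β i := by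
    have h1 : ∀ i, ∃ c : Fin m, i ≠ i₀ → ∀ b, lam (z (i, b)) = 0 ↔ b = c := by
      intro i
      by_cases hi : i = i₀
      · exact ⟨a, fun h => absurd hi h⟩
      · obtain ⟨c, hc⟩ := hex i hi
        refine ⟨c, fun _ b => ⟨fun hb => RkC_unique hC hi hlam hker0 hb hc, fun hb => ?_⟩⟩
        rw [hb]
        exact hc
    choose β hβ using h1
    exact ⟨β, hβ⟩
  obtain ⟨β, hβ⟩ := hβ
  have h0 : ∀ b, lam (z (i₀, b)) = 0 := fun b => hker0 (hC.mem (i₀, b))
  set Y : Finset (Fin r × Fin m) := Finset.univ.filter fun p => lam (z p) = 0 with hYdef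
  have hY : ∀ p, p ∈ Y ↔ lam (z p) = 0 := fun p => by
    rw [hYdef, Finset.mem_filter]
    exact and_iff_right (Finset.mem_univ p)
  have hYc : Y.card + 1 = m + r := by
    rw [hYdef, Finset.card_filter, Fintype.sum_prod_type,
      ← Finset.add_sum_erase Finset.univ _ (Finset.mem_univ i₀)]
    have e1 : ∑ b : Fin m, (if lam (z (i₀, b)) = 0 then 1 else 0) = m := by
      rw [Finset.sum_congr rfl fun b _ => if_pos (h0 b), Finset.sum_const, Finset.card_univ,
        Fintype.card_fin, smul_eq_mul, mul_one]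
    have e2 : ∑ i ∈ Finset.univ.erase i₀, ∑ b : Fin m,
        (if lam (z (i, b)) = 0 then 1 else 0) = r - 1 := by
      have e3 : ∀ i ∈ Finset.univ.erase i₀, ∑ b : Fin m,
          (if lam (z (i, b)) = 0 then 1 else 0) = 1 := by
        intro i hi
        have hi' : i ≠ i₀ := Finset.ne_of_mem_erase hi
        simp only [hβ i hi', Finset.sum_ite_eq', Finset.mem_univ, if_true]
      rw [Finset.sum_congr rfl e3, Finset.sum_const, smul_eq_mul, mul_one,
        Finset.card_erase_of_mem (Finset.mem_univ _), Finset.card_univ, Fintype.card_fin]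
    rw [e1, e2]
    omega
  set Y' : Finset (Fin r × Fin m) := Finset.univ.filter fun p => p.1 = i₀ with hYdef'
  have hY' : ∀ p, p ∈ Y' ↔ p.1 = i₀ := fun p => by
    rw [hYdef', Finset.mem_filter]
    exact and_iff_right (Finset.mem_univ p)
  have hYc' : Y'.card = m := by
    rw [hYdef', Finset.card_filter, Fintype.sum_prod_type]
    have e1 : ∀ i : Fin r, ∑ _b : Fin m, (if i = i₀ then 1 else 0) = if i = i₀ then m else 0 := by
      intro i
      rw [Finset.sum_const, Finset.card_univ, Fintype.card_fin, smul_eq_mul, mul_ite, mul_one,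
        mul_zero]
    rw [Finset.sum_congr rfl fun i _ => e1 i, Finset.sum_ite_eq', if_pos (Finset.mem_univ _)]
  have hsub : Y' ⊆ Y := by
    rintro ⟨i, b⟩ hp
    have h1 : i = i₀ := (hY' _).1 hp
    rw [hY, h1]
    exact h0 b
  have hinf : ∀ t, t + 1 ≤ m → (filt z t ⊓ fsupp Y : Submodule ℂ (Fin r × Fin m → ℂ)) =
      filt z t ⊓ fsupp Y' := by
    intro t ht
    refine le_antisymm ?_ (inf_le_inf_left _ ?_)
    · rintro f ⟨hf1, hf2⟩
      refine ⟨hf1, ?_⟩
      rintro ⟨i, b⟩ hp
      have hi : i ≠ i₀ := fun h => hp ((hY' _).2 h)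
      by_cases hb : b = β i
      · rcases t with _ | t
        · have h1 : f = 0 := by simpa [filt_zero] using hf1
          rw [h1]
          rfl
        · obtain ⟨q, hq, hqf⟩ := (mem_filt_succ z t f).1 hf1
          rw [← hqf]
          refine form_zero_on_line (hC.two i) (Finset.univ.erase (β i)) (fun c => z (i, c))
            (fun c _ => hC.mem (i, c))
            (fun c _ c' _ hcc => hC.indep (i, c) (i, c') fun h => hcc (congrArg Prod.snd h))
            (t := t) ?_ hq ?_ (hC.mem (i, b))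
          · rw [Finset.card_erase_of_mem (Finset.mem_univ _), Finset.card_univ, Fintype.card_fin]
            omega
          · intro c hc
            rw [hqf]
            refine hf2 _ fun hcY => ?_
            exact Finset.ne_of_mem_erase hc ((hβ i hi c).1 ((hY _).1 hcY))
      · exact hf2 _ fun hbY => hb ((hβ i hi b).1 ((hY _).1 hbY))
    · intro f hf p hp
      exact hf p fun h => hp (hsub h)
  refine ⟨Y, lam, hY, hYc, fun j hj1 hj2 => ?_⟩
  have d1 := rk_dual hD Y (t := σ - j) (Nat.sub_le _ _)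
  have d2 := rk_dual hD Y' (t := σ - j) (Nat.sub_le _ _)
  have e1 : σ - (σ - j) = j := Nat.sub_sub_self (hj2.trans hσ)
  have e2 := rk_line h Y' (hC.two i₀) (fun p hp => by
      have h1 := hC.mem p
      rwa [(hY' p).1 hp] at h1) (fun p _ q _ hpq => hC.indep p q hpq) j
  rw [hinf (σ - j) (by omega), e1] at d1
  rw [e1, e2, hYc', min_eq_left hj2] at d2
  omega

end Pool.Agent.MPf00b8a
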