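import Pool.Agent.Lib.MP_f00b8a_ag.FiltA

/-!
# Separators for points on skew lines
-/

set_option autoImplicit false

namespace Pool.Agent.MPf00b8a

open MvPolynomial

/-- A linear form that vanishes on `W` and not at `x`. -/
private theorem sep_form {W : Submodule ℂ V4} {x : V4} (h : x ∉ W) :
    ∃ q : MvPolynomial (Fin 4) ℂ, q.IsHomogeneous 1 ∧ (∀ y ∈ W, eval y q = 0) ∧
      eval x q ≠ 0 := by
  obtain ⟨f, hf, hW⟩ := Submodule.exists_le_ker_of_notMem h
  have he : ∀ y : V4, eval y (∑ i : Fin 4, C (f fun j => if i = j then 1 else 0) * X i) =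
      f y := by
    intro y
    rw [map_sum, LinearMap.pi_apply_eq_sum_univ f y]
    refine Finset.sum_congr rfl fun i _ => ?_
    rw [map_mul, eval_C, eval_X, smul_eq_mul, mul_comm]
  refine ⟨∑ i : Fin 4, C (f fun j => if i = j then 1 else 0) * X i, ?_, ?_, ?_⟩
  · refine IsHomogeneous.sum _ _ _ fun i _ => ?_
    exact (isHomogeneous_X ℂ i).C_mul _
  · intro y hy
    rw [he]
    exact hW hy
  · rw [he]
    exact hf

/-- The plane number `k` for the point `(i, a)`. -/
private noncomputable def sepW {r m : ℕ} (L : Fin (r + 1) → Submodule ℂ V4)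
    (z : Fin (r + 1) × Fin (m + 1) → V4) (i : Fin (r + 1)) (a : Fin (m + 1)) (k : ℕ) :
    Submodule ℂ V4 :=
  (if h : k < r then L (i.succAbove ⟨k, h⟩) else ⊥) ⊔
    (if h : k < m then Submodule.span ℂ {z (i, a.succAbove ⟨k, h⟩)} else ⊥)

private theorem sep_ne {ι : Type} {z : ι → V4} {l : MvPolynomial (Fin 4) ℂ} (h : Norm z l)
    (p : ι) : z p ≠ 0 := by
  intro h0
  have h1 := h.one p
  have h2 : eval (z p) l = 0 := by
    rw [h0, MvPolynomial.eval_zero, MvPolynomial.constantCoeff_eq]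
    exact h.hom.coeff_eq_zero (by simp)
  rw [h2] at h1
  exact zero_ne_one h1

private theorem sep_notMem {r m : ℕ} {L : Fin (r + 1) → Submodule ℂ V4}
    {z : Fin (r + 1) × Fin (m + 1) → V4} (hC : Conf (r + 1) (m + 1) L z)
    {l : MvPolynomial (Fin 4) ℂ} (h : Norm z l) (i : Fin (r + 1)) (a : Fin (m + 1)) (k : ℕ) :
    z (i, a) ∉ sepW L z i a k := by
  intro hx
  unfold sepW at hx
  obtain ⟨y, hy, w, hw, hyw⟩ := Submodule.mem_sup.mp hx
  have hwL : w ∈ L i := by
    split_ifs at hw with h1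
    · obtain ⟨c, rfl⟩ := Submodule.mem_span_singleton.mp hw
      exact (L i).smul_mem c (hC.mem (i, _))
    · rw [(Submodule.mem_bot ℂ).mp hw]
      exact (L i).zero_mem
  have hyL : y ∈ L i := by
    have h1 : y = z (i, a) - w := eq_sub_of_add_eq hyw
    rw [h1]
    exact (L i).sub_mem (hC.mem (i, a)) hwL
  have hy0 : y = 0 := by
    split_ifs at hy with h1
    · have h2 := (Submodule.disjoint_def.mp (hC.skew i _ (Fin.succAbove_ne i ⟨k, h1⟩).symm))
      exact h2 y hyL hy
    · exact (Submodule.mem_bot ℂ).mp hy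
  rw [hy0, zero_add] at hyw
  split_ifs at hw with h1
  · obtain ⟨c, hc⟩ := Submodule.mem_span_singleton.mp hw
    have h2 := hC.indep (i, a.succAbove ⟨k, h1⟩) (i, a)
      (fun he => Fin.succAbove_ne a ⟨k, h1⟩ (Prod.ext_iff.mp he).2)
    rw [LinearIndependent.pair_iff] at h2
    have h3 := h2 c (-1) (by rw [hc, hyw, neg_one_smul, add_neg_cancel])
    exact one_ne_zero (neg_eq_zero.mp h3.2)
  · rw [(Submodule.mem_bot ℂ).mp hw] at hyw
    exact sep_ne h (i, a) hyw.symm

private theorem sep_exists {r m : ℕ} {L : Fin (r + 1) → Submodule ℂ V4}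
    {z : Fin (r + 1) × Fin (m + 1) → V4} (hC : Conf (r + 1) (m + 1) L z)
    {l : MvPolynomial (Fin 4) ℂ} (h : Norm z l) (p : Fin (r + 1) × Fin (m + 1)) :
    ∃ c : ℂ, c ≠ 0 ∧ Pi.single p c ∈ filt z (max m r + 1) := by
  obtain ⟨i, a⟩ := p
  choose q hq1 hq2 hq3 using fun k => sep_form (sep_notMem hC h i a k)
  have he : ∀ x : V4, eval x (∏ k ∈ Finset.range (max m r), q k) =
      ∏ k ∈ Finset.range (max m r), eval x (q k) := fun x => map_prod _ _ _
  refine ⟨∏ k ∈ Finset.range (max m r), eval (z (i, a)) (q k),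
    Finset.prod_ne_zero_iff.mpr fun k _ => hq3 k, ?_⟩
  rw [mem_filt_succ]
  refine ⟨∏ k ∈ Finset.range (max m r), q k, ?_, ?_⟩
  · have h1 := IsHomogeneous.prod (Finset.range (max m r)) q (fun _ => 1) fun k _ => hq1 k
    simpa using h1
  · intro p
    rw [he]
    by_cases hp : p = (i, a)
    · rw [hp, Pi.single_eq_same]
    · rw [Pi.single_eq_of_ne hp]
      obtain ⟨j, b⟩ := p
      by_cases hj : j = i
      · subst hj
        have hb : b ≠ a := fun hb => hp (by rw [hb])
        obtain ⟨b', rfl⟩ := Fin.exists_succAbove_eq hb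
        refine Finset.prod_eq_zero (i := (b' : ℕ)) (Finset.mem_range.mpr
          (lt_of_lt_of_le b'.isLt (le_max_left _ _))) (hq2 _ _ ?_)
        unfold sepW
        rw [dif_pos b'.isLt]
        exact Submodule.mem_sup_right (Submodule.mem_span_singleton_self _)
      · obtain ⟨j', rfl⟩ := Fin.exists_succAbove_eq hj
        refine Finset.prod_eq_zero (i := (j' : ℕ)) (Finset.mem_range.mpr
          (lt_of_lt_of_le j'.isLt (le_max_right _ _))) (hq2 _ _ ?_)
        unfold sepW
        rw [dif_pos j'.isLt]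
        exact Submodule.mem_sup_left (hC.mem (i.succAbove j', b))

/-- (Step 3 of the text.) -/
theorem filt_top_conf {r m : ℕ} {L : Fin r → Submodule ℂ V4} {z : Fin r × Fin m → V4}
    (hC : Conf r m L z) {l : MvPolynomial (Fin 4) ℂ} (h : Norm z l) : filt z (max m r) = ⊤ := by
  obtain _ | r := r
  · rw [eq_top_iff]
    intro f _
    have h1 : f = 0 := Subsingleton.elim _ _
    rw [h1]
    exact Submodule.zero_mem _
  obtain _ | m := m
  · rw [eq_top_iff]
    intro f _
    have h1 : f = 0 := Subsingleton.elim _ _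
    rw [h1]
    exact Submodule.zero_mem _
  rw [show max (m + 1) (r + 1) = max m r + 1 by omega, eq_top_iff]
  intro f _
  rw [← Finset.univ_sum_single f]
  refine Submodule.sum_mem _ fun p _ => ?_
  obtain ⟨c, hc, hm⟩ := sep_exists hC h p
  have h1 : (Pi.single p (f p) : Fin (r + 1) × Fin (m + 1) → ℂ) =
      (f p / c) • (Pi.single p c : Fin (r + 1) × Fin (m + 1) → ℂ) := by
    rw [← Pi.single_smul, smul_eq_mul, div_mul_cancel₀ _ hc]
  rw [h1]
  exact Submodule.smul_mem _ _ hm

end Pool.Agent.MPf00b8a
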