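import Pool.Agent.Lib.MP_f00b8a_ag.StdB

/-!
# The filtration in affine coordinates
-/

set_option autoImplicit false

namespace Pool.Agent.MPf00b8a

open MvPolynomial

variable {ι : Type}

private theorem aff_mul (x : Fin 3 → ι → ℂ) {s t : ℕ} {f g : ι → ℂ} (hf : f ∈ aff x (s + 1))
    (hg : g ∈ aff x (t + 1)) : f * g ∈ aff x (s + t + 1) := by
  have h1 : f * g ∈ aff x (s + 1) * aff x (t + 1) := Submodule.mul_mem_mul hf hg
  rw [aff, aff, Submodule.span_mul_span] at h1
  refine Submodule.span_mono ?_ h1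
  rintro _ ⟨a, ⟨e, he, rfl⟩, b, ⟨e', he', rfl⟩, rfl⟩
  refine ⟨e + e', ?_, ?_⟩
  · simp only [Pi.add_apply, Finset.sum_add_distrib]
    omega
  · funext p
    simp only [mon, Pi.mul_apply, Pi.add_apply, pow_add, Finset.prod_mul_distrib]

private theorem one_mem_aff (x : Fin 3 → ι → ℂ) (t : ℕ) : (1 : ι → ℂ) ∈ aff x (t + 1) := by
  refine Submodule.subset_span ⟨0, by simp, ?_⟩
  funext p
  simp [mon]

private theorem coord_mem_aff (x : Fin 3 → ι → ℂ) (k : Fin 3) : x k ∈ aff x 2 := by
  refine Submodule.subset_span ⟨Pi.single k 1, by simp, ?_⟩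
  funext p
  rw [mon, Finset.prod_eq_single k]
  · simp
  · intro b _ hb
    simp [Pi.single_eq_of_ne hb]
  · intro hk
    exact absurd (Finset.mem_univ k) hk

private theorem aff_pow (x : Fin 3 → ι → ℂ) {f : ι → ℂ} (hf : f ∈ aff x 2) (n : ℕ) :
    f ^ n ∈ aff x (n + 1) := by
  induction n with
  | zero => simpa using one_mem_aff x 0
  | succ n ih =>
    rw [pow_succ]
    exact aff_mul x ih hf

/-- The monomials in four functions. -/
private theorem aff_prod (x : Fin 3 → ι → ℂ) {F : Fin 4 → ι → ℂ} (hF : ∀ k, F k ∈ aff x 2)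
    (e : Fin 4 → ℕ) : ∏ k, F k ^ e k ∈ aff x (∑ k, e k + 1) := by
  rw [Fin.prod_univ_four, Fin.sum_univ_four]
  exact aff_mul x (aff_mul x (aff_mul x (aff_pow x (hF 0) _) (aff_pow x (hF 1) _))
    (aff_pow x (hF 2) _)) (aff_pow x (hF 3) _)

/-- (Take linear forms `y 0, y 1, y 2` such that `l, y 0, y 1, y 2` is a basis of the linear forms;
if `ι` is empty everything is zero; `x k i` = the value of `y k` at `v i`.) -/
theorem filt_eq_aff {v : ι → V4} {l : MvPolynomial (Fin 4) ℂ} (h : Norm v l) :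
    ∃ x : Fin 3 → ι → ℂ, ∀ t, filt v t = aff x t := by
  rcases isEmpty_or_nonempty ι with hι | hι
  · refine ⟨fun _ _ => 0, fun t => ?_⟩
    ext f
    have hf : f = 0 := Subsingleton.elim _ _
    simp [hf]
  -- the coefficients of the linear form
  have hl : l ∈ homogeneousSubmodule (Fin 4) ℂ 1 := h.hom
  rw [homogeneousSubmodule_one_eq_span_X, Submodule.mem_span_range_iff_exists_fun] at hl
  obtain ⟨c, hc⟩ := hl
  have hone : ∀ i, ∑ k, c k * v i k = 1 := by
    intro i
    have h1 := h.one i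
    rw [← hc] at h1
    simpa [map_sum, smul_eval] using h1
  obtain ⟨k0, hk0⟩ : ∃ k, c k ≠ 0 := by
    by_contra hcon
    push Not at hcon
    obtain ⟨i⟩ := hι
    have h1 := hone i
    simp [hcon] at h1
  let x : Fin 3 → ι → ℂ := fun k i => v i (k0.succAbove k)
  have hcoord : ∀ k : Fin 4, (fun i => v i k) ∈ aff x 2 := by
    intro k
    rcases Fin.eq_self_or_eq_succAbove k0 k with rfl | ⟨j, rfl⟩
    · have h2 : (fun i => v i k) = (c k)⁻¹ • ((1 : ι → ℂ) - ∑ j, c (k.succAbove j) • x j) := by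
        funext i
        have h1 := hone i
        rw [Fin.sum_univ_succAbove _ k] at h1
        simp only [Pi.smul_apply, Pi.sub_apply, Pi.one_apply, Finset.sum_apply, smul_eq_mul, x]
        rw [← h1, add_sub_cancel_right, inv_mul_cancel_left₀ hk0]
      rw [h2]
      refine Submodule.smul_mem _ _ (Submodule.sub_mem _ (one_mem_aff x 1) ?_)
      exact Submodule.sum_mem _ fun j _ => Submodule.smul_mem _ _ (coord_mem_aff x j)
    · exact coord_mem_aff x j
  refine ⟨x, fun t => ?_⟩
  rcases t with _ | t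
  · rw [filt_zero, aff]
    symm
    rw [Submodule.span_eq_bot]
    rintro f ⟨e, he, -⟩
    exact absurd he (Nat.not_lt_zero _)
  apply le_antisymm
  · intro f hf
    rw [mem_filt_succ] at hf
    obtain ⟨q, hq, hqf⟩ := hf
    have h1 : f = ∑ d ∈ q.support, coeff d q • ∏ k, (fun i => v i k) ^ d k := by
      funext i
      rw [← hqf i, eval_eq']
      simp [Finset.sum_apply, Finset.prod_apply]
    rw [h1]
    refine Submodule.sum_mem _ fun d hd => Submodule.smul_mem _ _ ?_
    have h2 : ∑ k, d k = t := by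
      have h3 := hq.degree_eq_sum_deg_support hd
      rw [h3]
      symm
      refine Finset.sum_subset (Finset.subset_univ _) fun k _ hk => ?_
      exact Finsupp.notMem_support_iff.mp hk
    have h4 := aff_prod x hcoord d
    rw [h2] at h4
    exact h4
  · rw [aff, Submodule.span_le]
    rintro f ⟨e, he, rfl⟩
    rw [SetLike.mem_coe, mem_filt_succ]
    refine ⟨(∏ k, X (k0.succAbove k) ^ e k) * l ^ (t - ∑ k, e k), ?_, ?_⟩
    · have h1 : (∏ k, (X (k0.succAbove k) : MvPolynomial (Fin 4) ℂ) ^ e k).IsHomogeneous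
          (∑ k, e k) :=
        IsHomogeneous.prod _ _ _ fun k _ => isHomogeneous_X_pow _ _
      have h2 : (l ^ (t - ∑ k, e k)).IsHomogeneous (t - ∑ k, e k) := by
        have h3 := h.hom.pow (t - ∑ k, e k)
        rwa [one_mul] at h3
      have h4 := h1.mul h2
      rwa [Nat.add_sub_cancel' (Nat.lt_succ_iff.mp he)] at h4
    · intro i
      rw [map_mul, map_pow, h.one i, one_pow, mul_one, map_prod]
      simp [mon, x]

theorem filt_mac [Finite ι] {v : ι → V4} {l : MvPolynomial (Fin 4) ℂ} (h : Norm v l) (j : ℕ) :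
    j * Module.finrank ℂ (filt v (j + 1)) ≤ (j + 3) * Module.finrank ℂ (filt v j) := by
  obtain ⟨x, hx⟩ := filt_eq_aff h
  rw [hx, hx]
  exact aff_mac x j

end Pool.Agent.MPf00b8a
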