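import Pool.Agent.Lib.MP_f00b8a_ag.RkB
import Pool.Agent.Lib.MP_f00b8a_ag.RkC
import Pool.Agent.Lib.MP_f00b8a_ag.Sep
import Pool.Agent.Lib.MP_f00b8a_ag.StdC

/-!
# No duality for half grids with `r < 2 m`
-/

set_option autoImplicit false

namespace Pool.Agent.MPf00b8a

open MvPolynomial

/-- The number of points on a line is less than `σ`. -/
theorem Conf.lt_sigma {r m : ℕ} {L : Fin r → Submodule ℂ V4} {z : Fin r × Fin m → V4}
    (hC : Conf r m L z) (hr : 2 ≤ r) (hm : 1 ≤ m)
    {l : MvPolynomial (Fin 4) ℂ} (h : Norm z l) {σ : ℕ} {w : Fin r × Fin m → ℂ}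
    (hD : Dual z σ w) : m < σ := by
  classical
  have h0 : 0 < r := by omega
  have h1 : 1 < r := by omega
  have hm0 : 0 < m := hm
  set i₀ : Fin r := ⟨0, h0⟩ with hi₀
  have hcard : (Finset.univ.image (fun a : Fin m => ((i₀, a) : Fin r × Fin m))).card = m := by
    rw [Finset.card_image_of_injective _ (fun a b hab => (Prod.mk.inj hab).2)]
    simp
  have := hD.card_lt h (Finset.univ.image (fun a : Fin m => ((i₀, a) : Fin r × Fin m)))
    (hC.two i₀) (fun p hp => ?_) (fun p _ q _ hpq => hC.indep p q hpq)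
    (i := ((⟨1, h1⟩ : Fin r), (⟨0, hm0⟩ : Fin m))) ?_
  · rwa [hcard] at this
  · obtain ⟨a, _, rfl⟩ := Finset.mem_image.1 hp
    exact hC.mem (i₀, a)
  · intro hp
    obtain ⟨a, _, ha⟩ := Finset.mem_image.1 hp
    have := congrArg Prod.fst ha
    simp [hi₀] at this

/-- The separators bound `σ`. -/
theorem Conf.sigma_le {r m : ℕ} {L : Fin r → Submodule ℂ V4} {z : Fin r × Fin m → V4}
    (hC : Conf r m L z) (hr : 2 ≤ r) (hm : 1 ≤ m)
    {l : MvPolynomial (Fin 4) ℂ} (h : Norm z l) {σ : ℕ} {w : Fin r × Fin m → ℂ}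
    (hD : Dual z σ w) : σ ≤ max m r := by
  by_contra hlt
  push Not at hlt
  have h1 : filt z (σ - 1) = ⊤ := by
    rw [eq_top_iff, ← filt_top_conf hC h]
    exact filt_mono h (by omega)
  have h0 : 0 < r := by omega
  have hm0 : 0 < m := hm
  set p : Fin r × Fin m := (⟨0, h0⟩, ⟨0, hm0⟩)
  have h2 : (Pi.single p 1 : Fin r × Fin m → ℂ) ∈ filt z (σ - 1) := by
    rw [h1]
    trivial
  have h3 := (hD.perp 1 (by omega) _).1 h2 (fun _ => 1) ((mem_filt_one z _).2 ⟨1, fun _ => rfl⟩)
  have h4 : ∑ i, w i * (Pi.single p 1 : Fin r × Fin m → ℂ) i * 1 = w p := by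
    rw [Finset.sum_eq_single p]
    · simp
    · intro b _ hb
      simp [Pi.single_eq_of_ne hb]
    · intro hp
      exact absurd (Finset.mem_univ p) hp
  rw [h4] at h3
  exact hD.ne p h3

/-- ((8c) of the text.) -/
theorem chain {r m : ℕ} {L : Fin r → Submodule ℂ V4} {z : Fin r × Fin m → V4}
    (hC : Conf r m L z) (hT : PropT L z) (hm : 1 ≤ m) (hmr : m < r) (hr : r < 2 * m)
    {l : MvPolynomial (Fin 4) ℂ} (h : Norm z l) {σ : ℕ} {w : Fin r × Fin m → ℂ}
    (hD : Dual z σ w) : False := by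
  have hr2 : 2 ≤ r := by omega
  have h1 : m < σ := hC.lt_sigma hr2 hm h hD
  have h2 : σ ≤ r := by
    have := hC.sigma_le hr2 hm h hD
    rwa [max_eq_right hmr.le] at this
  obtain ⟨Y, lam, hY, hcard, hrk⟩ := plane_section hC hT hr2 hm h hD h1.le
  obtain ⟨u, hu⟩ : ∃ u, σ = m + u := ⟨σ - m, by omega⟩
  subst hu
  have hstep : ∀ t, u ≤ t → t + 1 ≤ m → Module.finrank ℂ (filt z t) + (r + u) ≤
      Module.finrank ℂ (filt z (t + 1)) := by
    intro t ht1 ht2
    have h3 := growth_section hD Y lam hY (t := t) (by omega)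
    have h4 := hrk (t + 1) (by omega) (by omega)
    have h5 := hrk (m + u - t) (by omega) (by omega)
    omega
  have hsum : ∀ k, u + k ≤ m → Module.finrank ℂ (filt z u) + k * (r + u) ≤
      Module.finrank ℂ (filt z (u + k)) := by
    intro k
    induction k with
    | zero => intro _; simp
    | succ k ih =>
      intro hk
      have h3 := ih (by omega)
      have h4 := hstep (u + k) (by omega) (by omega)
      have h5 : (k + 1) * (r + u) = k * (r + u) + (r + u) := by ring
      rw [h5]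
      have h6 : u + (k + 1) = u + k + 1 := rfl
      rw [h6]
      omega
  obtain ⟨k, hk⟩ : ∃ k, m = u + k := ⟨m - u, by omega⟩
  have h3 := hsum k (by omega)
  rw [← hk] at h3
  have h4 := finrank_dual hD (t := m) (by omega)
  have h5 : m + u - m = u := by omega
  rw [h5, Fintype.card_prod, Fintype.card_fin, Fintype.card_fin] at h4
  have h6 := filt_mac h u
  have h7 := hstep u le_rfl (by omega)
  set β := Module.finrank ℂ (filt z u)
  set β' := Module.finrank ℂ (filt z (u + 1))
  have h8 : u * (r + u) ≤ 3 * β := by nlinarith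
  have hu1 : 1 ≤ u := by omega
  have h9 : 2 * β + k * (r + u) ≤ r * m := by omega
  have h10 : 2 * (u * (r + u)) + 3 * (k * (r + u)) ≤ 3 * (r * m) := by omega
  subst hk
  have h11 : u * (r + u) ≥ 3 * (u * (u + k)) := by nlinarith
  have h12 : r + u ≥ 3 * (u + k) := by
    by_contra hcon
    push Not at hcon
    nlinarith
  omega

end Pool.Agent.MPf00b8a
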