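import Pool.Agent.Lib.MP_f00b8a_ag.Stmt

/-!
# Cones from the geproci property
-/

set_option autoImplicit false

namespace Pool.Agent.MPf00b8a

open MvPolynomial

private theorem Cone_smul {n m : ℕ} {F : MvPolynomial (Fin n) ℂ} (hF : F.IsHomogeneous m)
    (a : ℂ) (x : Fin n → ℂ) : eval (a • x) F = a ^ m * eval x F := by
  rw [eval_eq', eval_eq', Finset.mul_sum]
  refine Finset.sum_congr rfl fun d hd => ?_
  have h1 : ∑ i, d i = m := by
    rw [hF.degree_eq_sum_deg_support hd]
    symm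
    refine Finset.sum_subset (Finset.subset_univ _) fun i _ hi => ?_
    simpa using hi
  have h2 : ∏ i, (a • x) i ^ d i = a ^ m * ∏ i, x i ^ d i := by
    rw [← h1, ← Finset.prod_pow_eq_pow_sum, ← Finset.prod_mul_distrib]
    refine Finset.prod_congr rfl fun i _ => ?_
    rw [Pi.smul_apply, smul_eq_mul, mul_pow]
  rw [h2]
  ring

/-- Elements of the homogeneous ideal vanish at the points. -/
private theorem Cone_van {n : ℕ} {S : Set (Projectivization ℂ (Fin n → ℂ))}
    {F : MvPolynomial (Fin n) ℂ} (hF : F ∈ homIdeal S) {p : Projectivization ℂ (Fin n → ℂ)}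
    (hp : p ∈ S) : eval p.rep F = 0 := by
  have h1 : homIdeal S ≤ RingHom.ker (eval p.rep) := by
    refine Ideal.span_le.2 ?_
    rintro f ⟨_, hf⟩
    exact hf p hp
  exact h1 hF

/-- The projection. -/
private noncomputable def Cone_pi (P : V4) : (Fin 4 → ℂ) →ₗ[ℂ] (Fin 3 → ℂ) where
  toFun x j := P 0 * x j.succ - x 0 * P j.succ
  map_add' x y := by
    funext j
    simp only [Pi.add_apply]
    ring
  map_smul' c x := by
    funext j
    simp only [Pi.smul_apply, smul_eq_mul, RingHom.id_apply]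
    ring

private theorem Cone_pi_apply (P x : V4) (j : Fin 3) :
    Cone_pi P x j = P 0 * x j.succ - x 0 * P j.succ := rfl

private theorem Cone_ker {P : V4} (hP : P 0 ≠ 0) :
    LinearMap.ker (Cone_pi P) = Submodule.span ℂ {P} := by
  ext x
  rw [LinearMap.mem_ker, Submodule.mem_span_singleton]
  constructor
  · intro h
    refine ⟨x 0 / P 0, ?_⟩
    funext i
    refine Fin.cases ?_ (fun j => ?_) i
    · rw [Pi.smul_apply, smul_eq_mul, div_mul_cancel₀ _ hP]
    · have h1 := congrFun h j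
      rw [Cone_pi_apply, Pi.zero_apply, sub_eq_zero] at h1
      rw [Pi.smul_apply, smul_eq_mul, div_mul_eq_mul_div, ← h1, mul_div_cancel_left₀ _ hP]
  · rintro ⟨c, rfl⟩
    funext j
    rw [Cone_pi_apply, Pi.zero_apply, Pi.smul_apply, Pi.smul_apply, smul_eq_mul, smul_eq_mul]
    ring

/-- The forms of degree `m` that vanish at the projected points. -/
private theorem Cone_form {Z : Set (Projectivization ℂ (Fin 4 → ℂ))} {r m : ℕ}
    (hg : IsGeproci Z m r ∨ IsGeproci Z r m) :
    ∃ Φ : MvPolynomial (Fin 4) ℂ, Φ ≠ 0 ∧ ∀ P : V4, eval P Φ ≠ 0 →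
      ∀ π : (Fin 4 → ℂ) →ₗ[ℂ] (Fin 3 → ℂ), LinearMap.ker π = Submodule.span ℂ {P} →
        ∃ F : MvPolynomial (Fin 3) ℂ, F.IsHomogeneous m ∧ F ≠ 0 ∧
          F ∈ homIdeal (projImage π Z) := by
  rcases hg with ⟨Φ, h0, h⟩ | ⟨Φ, h0, h⟩
  · refine ⟨Φ, h0, fun P hP π hπ => ?_⟩
    obtain ⟨F, G, h1, h2, h3, h4, h5⟩ := h P hP π hπ
    refine ⟨F, h1, h3, ?_⟩
    rw [h5]
    exact Ideal.subset_span (Set.mem_insert _ _)
  · refine ⟨Φ, h0, fun P hP π hπ => ?_⟩
    obtain ⟨F, G, h1, h2, h3, h4, h5⟩ := h P hP π hπ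
    refine ⟨G, h2, h4, ?_⟩
    rw [h5]
    exact Ideal.subset_span (Set.mem_insert_of_mem _ rfl)

/-- (Pull back the generator of degree `m` by a linear map `π` with kernel spanned by `P`.) -/
theorem genCone_of_geproci {Z : Set (Projectivization ℂ (Fin 4 → ℂ))} {r m : ℕ} (hm : 1 ≤ m)
    (hg : IsGeproci Z m r ∨ IsGeproci Z r m) {ι : Type} (z : ι → V4) (h0 : ∀ i, z i ≠ 0)
    (hz : ∀ i, Projectivization.mk ℂ (z i) (h0 i) ∈ Z) : GenCone m z := by
  obtain ⟨Φ, hΦ, h⟩ := Cone_form hg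
  refine ⟨Φ * X 0, mul_ne_zero hΦ (X_ne_zero 0), fun P hP => ?_⟩
  rw [map_mul, eval_X] at hP
  have hP0 : P 0 ≠ 0 := right_ne_zero_of_mul hP
  obtain ⟨F, h1, h2, h3⟩ := h P (left_ne_zero_of_mul hP) (Cone_pi P) (Cone_ker hP0)
  let g : Fin 3 → MvPolynomial (Fin 4) ℂ := fun j => C (P 0) * X j.succ - C (P j.succ) * X 0
  have hev : ∀ x : V4, eval x (aeval g F) = eval (Cone_pi P x) F := by
    intro x
    have e1 : (fun j => eval x (g j)) = Cone_pi P x := by
      funext j
      rw [Cone_pi_apply]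
      simp only [g, map_sub, map_mul, eval_C, eval_X]
      ring
    have e2 := map_aeval g (eval x : MvPolynomial (Fin 4) ℂ →+* ℂ) F
    have e3 : (eval x : MvPolynomial (Fin 4) ℂ →+* ℂ).comp
        (algebraMap ℂ (MvPolynomial (Fin 4) ℂ)) = RingHom.id ℂ := by
      refine RingHom.ext fun a => ?_
      rw [RingHom.comp_apply, algebraMap_eq, eval_C, RingHom.id_apply]
    rw [e2, e1, e3]
    rfl
  refine ⟨aeval g F, ?_, ?_, ?_, ?_⟩
  · have h4 := h1.aeval (n := 1) g (fun j => by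
      refine IsHomogeneous.sub ?_ ?_
      · exact isHomogeneous_C_mul_X _ _
      · exact isHomogeneous_C_mul_X _ _)
    rwa [one_mul] at h4
  · intro h4
    apply h2
    refine MvPolynomial.funext fun y => ?_
    have h5 := hev (Fin.cons 0 (fun j => y j / P 0))
    rw [h4, map_zero] at h5
    have e3 : Cone_pi P (Fin.cons 0 (fun j => y j / P 0)) = y := by
      funext j
      rw [Cone_pi_apply, Fin.cons_succ, Fin.cons_zero, zero_mul, sub_zero,
        mul_div_cancel₀ _ hP0]
    rw [e3] at h5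
    rw [← h5, map_zero]
  · intro x c
    rw [hev, hev, map_add, map_smul]
    have h4 : Cone_pi P P = 0 := by
      funext j
      rw [Cone_pi_apply, Pi.zero_apply]
      ring
    rw [h4, smul_zero, add_zero]
  · intro i
    rw [hev]
    obtain ⟨a, ha⟩ := Projectivization.exists_smul_eq_mk_rep ℂ (z i) (h0 i)
    by_cases h4 : Cone_pi P (z i) = 0
    · have h5 := Cone_smul h1 0 (0 : Fin 3 → ℂ)
      rw [zero_pow (by omega), zero_mul, smul_zero] at h5
      rw [h4]
      exact h5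
    · have h5 : Cone_pi P (Projectivization.mk ℂ (z i) (h0 i)).rep ≠ 0 := by
        rw [← ha, Units.smul_def, map_smul]
        exact smul_ne_zero a.ne_zero h4
      have h6 := Cone_van h3 (p := Projectivization.mk ℂ _ h5) ⟨_, hz i, h5, rfl⟩
      obtain ⟨b, hb⟩ := Projectivization.exists_smul_eq_mk_rep ℂ _ h5
      rw [← hb, ← ha, Units.smul_def, Units.smul_def, map_smul, smul_smul, Cone_smul h1] at h6
      exact (mul_eq_zero.1 h6).resolve_left
        (pow_ne_zero _ (mul_ne_zero b.ne_zero a.ne_zero))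

end Pool.Agent.MPf00b8a
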