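import Mathlib

/-!
# Grids and half grids are not arithmetically Gorenstein: working definitions

Points of projective 3-space are given by families of vectors `v : ι → V4`.
-/

set_option autoImplicit false

namespace Pool.Agent.MPf00b8a

open MvPolynomial

/-- Vectors of `ℂ⁴`. -/
abbrev V4 := Fin 4 → ℂ

/-- The evaluation of polynomials at a family of vectors. -/
noncomputable def evalMap {ι : Type} (v : ι → V4) : MvPolynomial (Fin 4) ℂ →ₗ[ℂ] (ι → ℂ) :=
  LinearMap.pi fun i => (aeval (v i)).toLinearMap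

@[simp] theorem evalMap_apply {ι : Type} (v : ι → V4) (q : MvPolynomial (Fin 4) ℂ) (i : ι) :
    evalMap v q i = eval (v i) q := by
  simp [evalMap, MvPolynomial.aeval_eq_eval]

/-- `filt v 0 = 0`, and `filt v (t + 1)` is the space of the values of the forms of degree `t`. -/
noncomputable def filt {ι : Type} (v : ι → V4) : ℕ → Submodule ℂ (ι → ℂ)
  | 0 => ⊥
  | t + 1 => (homogeneousSubmodule (Fin 4) ℂ t).map (evalMap v)

theorem filt_zero {ι : Type} (v : ι → V4) : filt v 0 = ⊥ := rfl

theorem mem_filt_succ {ι : Type} (v : ι → V4) (t : ℕ) (f : ι → ℂ) :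
    f ∈ filt v (t + 1) ↔
      ∃ q : MvPolynomial (Fin 4) ℂ, q.IsHomogeneous t ∧ ∀ i, eval (v i) q = f i := by
  constructor
  · rintro ⟨q, hq, rfl⟩
    exact ⟨q, hq, fun i => (evalMap_apply v q i).symm⟩
  · rintro ⟨q, hq, h⟩
    exact ⟨q, hq, funext fun i => by rw [evalMap_apply, h i]⟩

/-- `l` is a linear form with value `1` at all vectors of the family. -/
structure Norm {ι : Type} (v : ι → V4) (l : MvPolynomial (Fin 4) ℂ) : Prop where
  hom : l.IsHomogeneous 1
  one : ∀ i, eval (v i) l = 1

/-- The ideal generated by the forms that vanish at the vectors of the family. -/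
noncomputable def vanIdeal {ι : Type} (v : ι → V4) : Ideal (MvPolynomial (Fin 4) ℂ) :=
  Ideal.span {f | (∃ d, f.IsHomogeneous d) ∧ ∀ i, eval (v i) f = 0}

/-- The socle of `ℂ[x₀, x₁, x₂, x₃] / J`: the elements that are killed by all variables. -/
noncomputable def socle (J : Ideal (MvPolynomial (Fin 4) ℂ)) :
    Submodule ℂ (MvPolynomial (Fin 4) ℂ ⧸ J) where
  carrier := {x | ∀ i, Ideal.Quotient.mk J (X i) * x = 0}
  add_mem' := by
    intro x y hx hy i
    rw [mul_add, hx i, hy i, add_zero]
  zero_mem' := by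
    intro i
    rw [mul_zero]
  smul_mem' := by
    intro c x hx i
    rw [mul_smul_comm, hx i, smul_zero]

/-- Duality of the filtration (it follows from the Gorenstein property);
`σ` is the socle degree plus one. -/
structure Dual {ι : Type} [Fintype ι] (v : ι → V4) (σ : ℕ) (w : ι → ℂ) : Prop where
  ne : ∀ i, w i ≠ 0
  perp : ∀ t ≤ σ, ∀ f : ι → ℂ,
    f ∈ filt v (σ - t) ↔ ∀ g ∈ filt v t, ∑ i, w i * f i * g i = 0

/-- `r` pairwise skew lines with `m` points on each of them. -/
structure Conf (r m : ℕ) (L : Fin r → Submodule ℂ V4) (z : Fin r × Fin m → V4) : Prop where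
  two : ∀ i, Module.finrank ℂ (L i) = 2
  skew : ∀ i j, i ≠ j → Disjoint (L i) (L j)
  mem : ∀ p, z p ∈ L p.1
  indep : ∀ p q, p ≠ q → LinearIndependent ℂ ![z p, z q]

/-- Property (T): the plane spanned by `L j` and a point of the line `L i` contains a point of
each line `L k`. -/
def PropT {r m : ℕ} (L : Fin r → Submodule ℂ V4) (z : Fin r × Fin m → V4) : Prop :=
  ∀ i j k : Fin r, i ≠ j → j ≠ k → i ≠ k → ∀ a : Fin m, ∃ b : Fin m,
    z (k, b) ∈ Submodule.span ℂ {z (i, a)} ⊔ L j

/-- For general `P` there is a nonzero form of degree `m` which is a cone with vertex `P` and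
vanishes at the points of the family. -/
def GenCone (m : ℕ) {ι : Type} (z : ι → V4) : Prop :=
  ∃ Φ : MvPolynomial (Fin 4) ℂ, Φ ≠ 0 ∧ ∀ P : V4, eval P Φ ≠ 0 →
    ∃ F : MvPolynomial (Fin 4) ℂ, F.IsHomogeneous m ∧ F ≠ 0 ∧
      (∀ (x : V4) (c : ℂ), eval (x + c • P) F = eval x F) ∧ ∀ i, eval (z i) F = 0

/-- The determinant form of a two-dimensional space with a basis. -/
noncomputable def om {L : Submodule ℂ V4} (b : Module.Basis (Fin 2) ℂ L) (x y : L) : ℂ :=
  b.repr x 0 * b.repr y 1 - b.repr x 1 * b.repr y 0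

/-- The functions that vanish outside `Y`. -/
def fsupp {ι : Type} (Y : Finset ι) : Submodule ℂ (ι → ℂ) where
  carrier := {f | ∀ i, i ∉ Y → f i = 0}
  add_mem' := by
    intro f g hf hg i hi
    rw [Pi.add_apply, hf i hi, hg i hi, add_zero]
  zero_mem' := by
    intro i _
    rfl
  smul_mem' := by
    intro c f hf i hi
    rw [Pi.smul_apply, hf i hi, smul_zero]

/-- The dimension of the restriction of `filt v t` to the subset `Y`. -/
noncomputable def rk {ι : Type} (v : ι → V4) (Y : Finset ι) (t : ℕ) : ℕ :=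
  Module.finrank ℂ ((filt v t).map (LinearMap.funLeft ℂ ℂ (Subtype.val : Y → ι)))

end Pool.Agent.MPf00b8a
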