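import Pool.Agent.Lib.MP_f00b8a_ag.Defs

/-!
# Directions lemma: the local lemma
-/

set_option autoImplicit false

namespace Pool.Agent.MPf00b8a

open MvPolynomial

/-- The coefficient of `X ^ d`, as a polynomial in `m`. -/
private noncomputable def daR (B : Polynomial (Polynomial ℂ)) (Ξ : Polynomial ℂ) (d : ℕ) :
    Polynomial ℂ :=
  ∑ k ∈ Finset.range (d + 1), Polynomial.C ((B.coeff k).coeff (d - k)) * Polynomial.X ^ k -
    Polynomial.C (Ξ.coeff d) * Polynomial.X

private theorem da_coeff (B : Polynomial (Polynomial ℂ)) (Ξ : Polynomial ℂ) (d : ℕ) (m : ℂ) :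
    (B.eval (Polynomial.C m * Polynomial.X) - Polynomial.C m * Ξ).coeff d =
      (daR B Ξ d).eval m := by
  have h1 : (B.eval (Polynomial.C m * Polynomial.X)).coeff d =
      ∑ k ∈ Finset.range (d + 1), (B.coeff k).coeff (d - k) * m ^ k := by
    rw [Polynomial.eval_eq_sum_range' (show B.natDegree < B.natDegree + d + 1 by omega),
      Polynomial.finsetSum_coeff]
    have h2 : ∀ k, (B.coeff k * (Polynomial.C m * Polynomial.X) ^ k).coeff d =
        if k ≤ d then (B.coeff k).coeff (d - k) * m ^ k else 0 := by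
      intro k
      rw [mul_pow, ← mul_assoc, ← Polynomial.C_pow, Polynomial.coeff_mul_X_pow',
        Polynomial.coeff_mul_C]
    simp only [h2]
    rw [← Finset.sum_subset (Finset.range_subset_range.2 (show d + 1 ≤ B.natDegree + d + 1 by
      omega))]
    · refine Finset.sum_congr rfl fun k hk => ?_
      rw [if_pos (by have := Finset.mem_range.1 hk; omega)]
    · intro k _ hk
      rw [if_neg (by intro h3; exact hk (Finset.mem_range.2 (by omega)))]
  rw [Polynomial.coeff_sub, h1, Polynomial.coeff_C_mul]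
  unfold daR
  rw [Polynomial.eval_sub, Polynomial.eval_finsetSum]
  simp only [Polynomial.eval_mul, Polynomial.eval_C, Polynomial.eval_pow, Polynomial.eval_X]
  ring

private theorem da_zero {B : Polynomial (Polynomial ℂ)} {Ξ : Polynomial ℂ}
    (hΞ : Ξ.coeff 0 = 0) {M : Finset ℂ}
    (h : ∀ m ∈ M, B.eval (Polynomial.C m * Polynomial.X) = Polynomial.C m * Ξ) {d : ℕ}
    (hd : d < M.card) : daR B Ξ d = 0 := by
  refine Polynomial.eq_zero_of_natDegree_lt_card_of_eval_eq_zero' _ M (fun m hm => ?_) ?_
  · rw [← da_coeff, h m hm, sub_self, Polynomial.coeff_zero]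
  · refine lt_of_le_of_lt ?_ hd
    unfold daR
    refine (Polynomial.natDegree_sub_le _ _).trans (max_le ?_ ?_)
    · refine Polynomial.natDegree_sum_le_of_forall_le _ _ fun k hk => ?_
      refine (Polynomial.natDegree_C_mul_X_pow_le _ _).trans ?_
      have := Finset.mem_range.1 hk
      omega
    · rcases Nat.eq_zero_or_pos d with h0 | h0
      · rw [h0, hΞ, Polynomial.C_0, zero_mul, Polynomial.natDegree_zero]
      · refine (Polynomial.natDegree_C_mul_le _ _).trans ?_
        rw [Polynomial.natDegree_X]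
        exact h0

/-- The shift by `ξ` in `x` and by `v` in `y`. -/
private noncomputable def daS (B : Polynomial (Polynomial ℂ)) (ξ v : ℂ) :
    Polynomial (Polynomial ℂ) :=
  (B.map (Polynomial.compRingHom (Polynomial.X + Polynomial.C ξ))).comp
    (Polynomial.X + Polynomial.C (Polynomial.C v))

private theorem da_shift (B : Polynomial (Polynomial ℂ)) (ξ v m : ℂ) :
    (B.eval (Polynomial.C v + Polynomial.C m * (Polynomial.X - Polynomial.C ξ))).comp
      (Polynomial.X + Polynomial.C ξ) =
      (daS B ξ v).eval (Polynomial.C m * Polynomial.X) := by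
  unfold daS
  rw [Polynomial.eval_comp, Polynomial.eval_add, Polynomial.eval_X, Polynomial.eval_C]
  have h1 := Polynomial.hom_eval₂ B (RingHom.id _)
    (Polynomial.compRingHom (Polynomial.X + Polynomial.C ξ))
    (Polynomial.C v + Polynomial.C m * (Polynomial.X - Polynomial.C ξ))
  rw [Polynomial.eval_map]
  rw [RingHom.comp_id] at h1
  refine h1.trans ?_
  congr 1
  rw [Polynomial.coe_compRingHom_apply]
  simp only [Polynomial.add_comp, Polynomial.mul_comp, Polynomial.sub_comp, Polynomial.C_comp,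
    Polynomial.X_comp]
  ring

private theorem da_main {B : Polynomial (Polynomial ℂ)} {Ξ : Polynomial ℂ} {ξ v : ℂ}
    (hΞ : Ξ.eval ξ = 0) {M : Finset ℂ}
    (h : ∀ m ∈ M, B.eval (Polynomial.C v + Polynomial.C m * (Polynomial.X - Polynomial.C ξ)) =
      Polynomial.C m * Ξ) {d : ℕ} (hd : d < M.card) :
    daR (daS B ξ v) (Ξ.comp (Polynomial.X + Polynomial.C ξ)) d = 0 := by
  refine da_zero (M := M) ?_ (fun m hm => ?_) hd
  · rw [Polynomial.coeff_zero_eq_eval_zero, Polynomial.eval_comp]
    simpa using hΞ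
  · rw [← da_shift, h m hm, Polynomial.mul_comp, Polynomial.C_comp]

open Polynomial in
/-- (6a of the text.  The coefficient of `(X - ξ) ^ s` is a polynomial in `m` of degree at most
`s`, with at least `M.card` zeros.) -/
theorem local_dvd (B : Polynomial (Polynomial ℂ)) (Ξ : Polynomial ℂ) (ξ v : ℂ)
    (hΞ : Ξ.eval ξ = 0) (M : Finset ℂ)
    (h : ∀ m ∈ M, B.eval (Polynomial.C v + Polynomial.C m * (Polynomial.X - Polynomial.C ξ)) =
      Polynomial.C m * Ξ) (m : ℂ) :
    (Polynomial.X - Polynomial.C ξ) ^ M.card ∣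
      B.eval (Polynomial.C v + Polynomial.C m * (Polynomial.X - Polynomial.C ξ)) -
        Polynomial.C m * Ξ := by
  rw [Polynomial.X_sub_C_pow_dvd_iff, Polynomial.X_pow_dvd_iff]
  intro d hd
  rw [Polynomial.sub_comp, da_shift, Polynomial.mul_comp, Polynomial.C_comp, da_coeff,
    da_main hΞ h hd, Polynomial.eval_zero]

open Polynomial in
/-- (The same, coefficient of `m ^ 1`, for `v = 0`.) -/
theorem local_coeff (B : Polynomial (Polynomial ℂ)) (Ξ : Polynomial ℂ) (ξ : ℂ)
    (hΞ : Ξ.eval ξ = 0) (M : Finset ℂ)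
    (h : ∀ m ∈ M, B.eval (Polynomial.C m * (Polynomial.X - Polynomial.C ξ)) =
      Polynomial.C m * Ξ) :
    (Polynomial.X - Polynomial.C ξ) ^ M.card ∣
      (Polynomial.X - Polynomial.C ξ) * B.coeff 1 - Ξ := by
  have h' : ∀ m ∈ M, B.eval (Polynomial.C 0 +
      Polynomial.C m * (Polynomial.X - Polynomial.C ξ)) = Polynomial.C m * Ξ := by
    intro m hm
    rw [Polynomial.C_0, zero_add]
    exact h m hm
  rw [Polynomial.X_sub_C_pow_dvd_iff, Polynomial.X_pow_dvd_iff]
  intro d hd
  have h1 := congrArg (fun p : Polynomial ℂ => p.coeff 1) (da_main hΞ h' hd)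
  have hB : daS B ξ 0 = B.map (Polynomial.compRingHom (Polynomial.X + Polynomial.C ξ)) := by
    unfold daS
    rw [Polynomial.C_0, Polynomial.C_0, add_zero, Polynomial.comp_X]
  rw [hB] at h1
  have hc : (B.map (Polynomial.compRingHom (Polynomial.X + Polynomial.C ξ))).coeff 1 =
      (B.coeff 1).comp (Polynomial.X + Polynomial.C ξ) := by
    rw [Polynomial.coeff_map, Polynomial.coe_compRingHom_apply]
  rw [Polynomial.sub_comp, Polynomial.mul_comp, Polynomial.sub_comp, Polynomial.X_comp,
    Polynomial.C_comp, add_sub_cancel_right, Polynomial.coeff_sub]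
  rcases Nat.eq_zero_or_pos d with h0 | h0
  · have h2 : (Ξ.comp (Polynomial.X + Polynomial.C ξ)).coeff 0 = 0 := by
      rw [Polynomial.coeff_zero_eq_eval_zero, Polynomial.eval_comp]
      simpa using hΞ
    rw [h0, h2, Polynomial.coeff_X_mul_zero, sub_zero]
  · obtain ⟨e, rfl⟩ : ∃ e, d = e + 1 := ⟨d - 1, by omega⟩
    rw [Polynomial.coeff_X_mul]
    unfold daR at h1
    simp only [Polynomial.coeff_sub, Polynomial.finsetSum_coeff, Polynomial.coeff_C_mul,
      Polynomial.coeff_X_pow, Polynomial.coeff_X_one, Polynomial.coeff_zero, mul_one] at h1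
    rw [Finset.sum_eq_single 1] at h1
    · rw [if_pos rfl, mul_one, hc] at h1
      simpa using h1
    · intro k _ hk
      rw [if_neg (Ne.symm hk), mul_zero]
    · intro hk
      exact absurd (Finset.mem_range.2 (by omega)) hk

end Pool.Agent.MPf00b8a
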