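import Pool.Agent.Lib.MP_f00b8a_ag.DirA

/-!
# Directions lemma: interpolation
-/

set_option autoImplicit false

namespace Pool.Agent.MPf00b8a

open MvPolynomial

/-- The total degree of `B` is at most `a`. -/
private def DirB_T (B : Polynomial (Polynomial ℂ)) (a : ℕ) : Prop :=
  ∀ j i, a < i + j → (B.coeff j).coeff i = 0

private theorem DirB_T_iff (B : Polynomial (Polynomial ℂ)) (a : ℕ) :
    DirB_T B a ↔ ∀ j, B.coeff j ≠ 0 → (B.coeff j).natDegree + j ≤ a := by
  constructor
  · intro h j hj
    by_contra hlt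
    push Not at hlt
    have h1 := h j _ hlt
    rw [Polynomial.coeff_natDegree, Polynomial.leadingCoeff_eq_zero] at h1
    exact hj h1
  · intro h j i hlt
    by_cases hj : B.coeff j = 0
    · rw [hj, Polynomial.coeff_zero]
    · refine Polynomial.coeff_eq_zero_of_natDegree_lt ?_
      have := h j hj
      omega

private theorem DirB_T_step {P : Polynomial (Polynomial ℂ)} {k : ℕ} (h : DirB_T P k) (m c : ℂ) :
    DirB_T ((Polynomial.X - Polynomial.C (Polynomial.C m * Polynomial.X + Polynomial.C c)) * P)
      (k + 1) := by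
  have key : ∀ (q : Polynomial ℂ) (d i : ℕ), (∀ i', d < i' → q.coeff i' = 0) → d + 1 < i →
      ((Polynomial.C m * Polynomial.X + Polynomial.C c) * q).coeff i = 0 := by
    intro q d i hq hi
    obtain ⟨i, rfl⟩ : ∃ i', i = i' + 1 := ⟨i - 1, by omega⟩
    rw [add_mul, mul_assoc, Polynomial.coeff_add, Polynomial.coeff_C_mul, Polynomial.coeff_C_mul,
      Polynomial.coeff_X_mul, hq i (by omega), hq (i + 1) (by omega), mul_zero, mul_zero,
      add_zero]
  intro j i hij
  rw [sub_mul, Polynomial.coeff_sub, Polynomial.coeff_C_mul, Polynomial.coeff_sub]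
  have h2 : ((Polynomial.C m * Polynomial.X + Polynomial.C c) * P.coeff j).coeff i = 0 := by
    by_cases hjk : j ≤ k
    · exact key _ (k - j) i (fun i' hi' => h j i' (by omega)) (by omega)
    · have h0 : P.coeff j = 0 := by
        ext i'
        rw [h j i' (by omega), Polynomial.coeff_zero]
      rw [h0, mul_zero, Polynomial.coeff_zero]
  rw [h2, sub_zero]
  cases j with
  | zero => rw [Polynomial.coeff_X_mul_zero, Polynomial.coeff_zero]
  | succ j =>
    rw [Polynomial.coeff_X_mul]
    exact h j i (by omega)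

private theorem DirB_T_prod {ι : Type*} (s : Finset ι) (m c : ι → ℂ) :
    DirB_T (∏ i ∈ s, (Polynomial.X - Polynomial.C (Polynomial.C (m i) * Polynomial.X +
      Polynomial.C (c i)))) s.card := by
  classical
  induction s using Finset.induction_on with
  | empty =>
    intro j i hij
    rw [Finset.card_empty] at hij
    rw [Finset.prod_empty, Polynomial.coeff_one]
    split_ifs with hj
    · rw [Polynomial.coeff_one, if_neg (by omega)]
    · rw [Polynomial.coeff_zero]
  | insert x s hx ih =>
    rw [Finset.prod_insert hx, Finset.card_insert_of_notMem hx]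
    exact DirB_T_step ih _ _

private theorem DirB_T_C_mul {P : Polynomial (Polynomial ℂ)} {k a : ℕ} (h : DirB_T P k)
    {c : Polynomial ℂ} (hc : c.natDegree + k ≤ a) : DirB_T (Polynomial.C c * P) a := by
  intro j i hij
  rw [Polynomial.coeff_C_mul, Polynomial.coeff_mul]
  refine Finset.sum_eq_zero fun x hx => ?_
  have hx' := Finset.HasAntidiagonal.mem_antidiagonal.1 hx
  by_cases h1 : c.natDegree < x.1
  · rw [Polynomial.coeff_eq_zero_of_natDegree_lt h1, zero_mul]
  · rw [h j x.2 (by omega), mul_zero]

private theorem DirB_T_add {P Q : Polynomial (Polynomial ℂ)} {a : ℕ} (h : DirB_T P a)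
    (h' : DirB_T Q a) : DirB_T (P + Q) a := by
  intro j i hij
  rw [Polynomial.coeff_add, Polynomial.coeff_add, h j i hij, h' j i hij, add_zero]

private theorem DirB_eval_deg {B : Polynomial (Polynomial ℂ)} {a : ℕ}
    (h : ∀ j, B.coeff j ≠ 0 → (B.coeff j).natDegree + j ≤ a) (m c : ℂ) :
    (B.eval (Polynomial.C m * Polynomial.X + Polynomial.C c)).natDegree ≤ a := by
  rw [Polynomial.eval_eq_sum_range]
  refine Polynomial.natDegree_sum_le_of_forall_le _ _ fun j _ => ?_
  by_cases hj : B.coeff j = 0
  · rw [hj, zero_mul, Polynomial.natDegree_zero]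
    exact Nat.zero_le _
  · refine (Polynomial.natDegree_mul_le).trans ?_
    have h1 := h j hj
    have h2 : ((Polynomial.C m * Polynomial.X + Polynomial.C c) ^ j).natDegree ≤ j * 1 :=
      Polynomial.natDegree_pow_le_of_le j Polynomial.natDegree_linear_le
    omega

/-- The divisibility, from `local_dvd`. -/
private theorem DirB_dvd {ι : Type*} (s : Finset ι) (m c : ι → ℂ)
    (hinj : ∀ i ∈ s, ∀ j ∈ s, i ≠ j → m i ≠ m j) (S : Finset ℂ) (m0 c0 : ℂ) (x : ι → ℂ)
    (hxS : ∀ i ∈ s, x i ∈ S) (hx : ∀ i ∈ s, m i * x i + c i = m0 * x i + c0)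
    (B : Polynomial (Polynomial ℂ))
    (hB : ∀ i ∈ s, B.eval (Polynomial.C (m i) * Polynomial.X + Polynomial.C (c i)) =
      Polynomial.C (m i) * ∏ ξ ∈ S, (Polynomial.X - Polynomial.C ξ)) :
    (∏ i ∈ s, (Polynomial.X - Polynomial.C (x i))) ∣
      B.eval (Polynomial.C m0 * Polynomial.X + Polynomial.C c0) -
        Polynomial.C m0 * ∏ ξ ∈ S, (Polynomial.X - Polynomial.C ξ) := by
  classical
  rw [← Finset.prod_fiberwise_of_maps_to hxS]
  have hf : ∀ ξ ∈ S, (∏ i ∈ s with x i = ξ, (Polynomial.X - Polynomial.C (x i))) =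
      (Polynomial.X - Polynomial.C ξ) ^ (s.filter fun i => x i = ξ).card := by
    intro ξ _
    rw [← Finset.prod_const]
    exact Finset.prod_congr rfl fun i hi => by rw [(Finset.mem_filter.1 hi).2]
  rw [Finset.prod_congr rfl hf]
  refine Finset.prod_dvd_of_coprime ?_ ?_
  · intro ξ _ η _ hne
    refine IsCoprime.pow ?_
    exact Polynomial.pairwise_coprime_X_sub_C Function.injective_id hne
  · intro ξ hξ
    have hcard : ((s.filter fun i => x i = ξ).image m).card =
        (s.filter fun i => x i = ξ).card := by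
      refine Finset.card_image_of_injOn fun i hi j hj hij => ?_
      by_contra hne
      exact hinj i (Finset.mem_filter.1 hi).1 j (Finset.mem_filter.1 hj).1 hne hij
    have h0 : (∏ η ∈ S, (Polynomial.X - Polynomial.C η)).eval ξ = 0 := by
      rw [Polynomial.eval_prod]
      exact Finset.prod_eq_zero hξ (by simp)
    have key : ∀ m' c' : ℂ, m' * ξ + c' = m0 * ξ + c0 →
        Polynomial.C (m0 * ξ + c0) + Polynomial.C m' * (Polynomial.X - Polynomial.C ξ) =
        Polynomial.C m' * Polynomial.X + Polynomial.C c' := by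
      intro m' c' h
      rw [← h, Polynomial.C_add, Polynomial.C_mul]
      ring
    have h1 := local_dvd B (∏ η ∈ S, (Polynomial.X - Polynomial.C η)) ξ (m0 * ξ + c0) h0
      ((s.filter fun i => x i = ξ).image m) (by
        intro m' hm'
        obtain ⟨i, hi, rfl⟩ := Finset.mem_image.1 hm'
        obtain ⟨his, hiξ⟩ := Finset.mem_filter.1 hi
        have h2 := hx i his
        rw [hiξ] at h2
        rw [key _ _ h2]
        exact hB i his) m0
    rw [key m0 c0 rfl, hcard] at h1
    exact h1

/-- (6b of the text: induction on `k`.) -/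
theorem exists_interp (k : ℕ) (mm cc : Fin k → ℂ) (hinj : ∀ i j, i ≠ j → mm i ≠ mm j)
    (S : Finset ℂ) (hS : ∀ i j, i ≠ j → ∃ ξ ∈ S, mm i * ξ + cc i = mm j * ξ + cc j) :
    ∃ B : Polynomial (Polynomial ℂ), (∀ j, B.coeff j ≠ 0 → (B.coeff j).natDegree + j ≤ S.card) ∧
      (∀ j, k ≤ j → B.coeff j = 0) ∧
      ∀ i, B.eval (Polynomial.C (mm i) * Polynomial.X + Polynomial.C (cc i)) =
        Polynomial.C (mm i) * ∏ ξ ∈ S, (Polynomial.X - Polynomial.C ξ) := by
  classical
  suffices H : ∃ B : Polynomial (Polynomial ℂ), DirB_T B S.card ∧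
      (∀ j, k ≤ j → B.coeff j = 0) ∧
      ∀ i, B.eval (Polynomial.C (mm i) * Polynomial.X + Polynomial.C (cc i)) =
        Polynomial.C (mm i) * ∏ ξ ∈ S, (Polynomial.X - Polynomial.C ξ) by
    obtain ⟨B, h1, h2, h3⟩ := H
    exact ⟨B, (DirB_T_iff B _).1 h1, h2, h3⟩
  induction k with
  | zero =>
    refine ⟨0, fun j i _ => by simp, fun j _ => by simp, fun i => i.elim0⟩
  | succ k ih =>
    obtain ⟨B, hT, hk, hB⟩ := ih (fun i => mm i.castSucc) (fun i => cc i.castSucc)
      (fun i j hij => hinj _ _ fun h => hij (Fin.castSucc_injective _ h))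
      (fun i j hij => hS _ _ fun h => hij (Fin.castSucc_injective _ h))
    set Ξ : Polynomial ℂ := ∏ ξ ∈ S, (Polynomial.X - Polynomial.C ξ) with hΞ
    set m0 := mm (Fin.last k) with hm0
    set c0 := cc (Fin.last k) with hc0
    have hcr : ∀ i : Fin k, ∃ ξ ∈ S, mm i.castSucc * ξ + cc i.castSucc = m0 * ξ + c0 :=
      fun i => hS _ _ (Fin.castSucc_lt_last i).ne
    choose x hxS hx using hcr
    have hdvd := DirB_dvd Finset.univ (fun i : Fin k => mm i.castSucc)
      (fun i : Fin k => cc i.castSucc)
      (fun i _ j _ hij => hinj _ _ fun h => hij (Fin.castSucc_injective _ h)) S m0 c0 x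
      (fun i _ => hxS i) (fun i _ => hx i) B (fun i _ => hB i)
    rw [← hΞ] at hdvd
    -- the denominator
    set D : Polynomial ℂ := ∏ i : Fin k, ((Polynomial.C m0 * Polynomial.X + Polynomial.C c0) -
      (Polynomial.C (mm i.castSucc) * Polynomial.X + Polynomial.C (cc i.castSucc))) with hD
    have hslope : ∀ i : Fin k, m0 - mm i.castSucc ≠ 0 := fun i =>
      sub_ne_zero.2 (hinj _ _ (Fin.castSucc_lt_last i).ne')
    have hfac : ∀ i : Fin k, ((Polynomial.C m0 * Polynomial.X + Polynomial.C c0) -
        (Polynomial.C (mm i.castSucc) * Polynomial.X + Polynomial.C (cc i.castSucc))) =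
        Polynomial.C (m0 - mm i.castSucc) * (Polynomial.X - Polynomial.C (x i)) := by
      intro i
      have h1 : c0 = mm i.castSucc * x i + cc i.castSucc - m0 * x i := by
        rw [hx i]
        ring
      rw [h1]
      simp only [Polynomial.C_sub, Polynomial.C_add, Polynomial.C_mul]
      ring
    have hDeq : D = Polynomial.C (∏ i : Fin k, (m0 - mm i.castSucc)) *
        ∏ i : Fin k, (Polynomial.X - Polynomial.C (x i)) := by
      rw [hD, Finset.prod_congr rfl fun i _ => hfac i, Finset.prod_mul_distrib, map_prod]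
    have hu : (∏ i : Fin k, (m0 - mm i.castSucc)) ≠ 0 :=
      Finset.prod_ne_zero_iff.2 fun i _ => hslope i
    have hD0 : D ≠ 0 := by
      rw [hDeq]
      refine mul_ne_zero (Polynomial.C_ne_zero.2 hu) (Finset.prod_ne_zero_iff.2 fun i _ => ?_)
      exact Polynomial.X_sub_C_ne_zero _
    have hDdeg : D.natDegree = k := by
      rw [hDeq, Polynomial.natDegree_C_mul hu, Polynomial.natDegree_prod _ _
        fun i _ => Polynomial.X_sub_C_ne_zero _]
      simp
    have hDN : D ∣ Polynomial.C m0 * Ξ -
        B.eval (Polynomial.C m0 * Polynomial.X + Polynomial.C c0) := by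
      rw [hDeq, (Polynomial.isUnit_C.2 (isUnit_iff_ne_zero.2 hu)).mul_left_dvd, ← neg_sub,
        dvd_neg]
      exact hdvd
    obtain ⟨c, hc⟩ := hDN
    have hcdeg : c = 0 ∨ c.natDegree + k ≤ S.card := by
      by_cases hc0' : c = 0
      · exact Or.inl hc0'
      · right
        have h1 := congrArg Polynomial.natDegree hc
        rw [Polynomial.natDegree_mul hD0 hc0', hDdeg] at h1
        have h2 : (Polynomial.C m0 * Ξ).natDegree ≤ S.card := by
          refine (Polynomial.natDegree_C_mul_le _ _).trans ?_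
          rw [hΞ, Polynomial.natDegree_prod _ _ fun i _ => Polynomial.X_sub_C_ne_zero _]
          simp
        have h3 := DirB_eval_deg ((DirB_T_iff B _).1 hT) m0 c0
        have h4 := Polynomial.natDegree_sub_le (Polynomial.C m0 * Ξ)
          (B.eval (Polynomial.C m0 * Polynomial.X + Polynomial.C c0))
        have h5 : max (Polynomial.C m0 * Ξ).natDegree
            (B.eval (Polynomial.C m0 * Polynomial.X + Polynomial.C c0)).natDegree ≤ S.card :=
          max_le h2 h3
        omega
    set P : Polynomial (Polynomial ℂ) := ∏ i : Fin k, (Polynomial.X - Polynomial.C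
      (Polynomial.C (mm i.castSucc) * Polynomial.X + Polynomial.C (cc i.castSucc))) with hP
    have hPT : DirB_T P k := by
      have h := DirB_T_prod (Finset.univ : Finset (Fin k)) (fun i => mm i.castSucc)
        (fun i => cc i.castSucc)
      rwa [Finset.card_univ, Fintype.card_fin] at h
    refine ⟨B + Polynomial.C c * P, ?_, ?_, ?_⟩
    · rcases hcdeg with h | h
      · rw [h, Polynomial.C_0, zero_mul, add_zero]
        exact hT
      · exact DirB_T_add hT (DirB_T_C_mul hPT h)
    · intro j hj
      rw [Polynomial.coeff_add, hk j (by omega), Polynomial.coeff_C_mul, zero_add]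
      have h0 : P.coeff j = 0 := by
        ext i
        rw [hPT j i (by omega), Polynomial.coeff_zero]
      rw [h0, mul_zero]
    · intro i
      rw [Polynomial.eval_add, Polynomial.eval_mul, Polynomial.eval_C, hP,
        Polynomial.eval_prod]
      simp only [Polynomial.eval_sub, Polynomial.eval_X, Polynomial.eval_C]
      rcases Fin.eq_castSucc_or_eq_last i with ⟨i, rfl⟩ | rfl
      · rw [Finset.prod_eq_zero (Finset.mem_univ i) (sub_self _), mul_zero, add_zero]
        exact hB i
      · rw [← hm0, ← hc0, ← hD, mul_comm c D, ← hc]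
        ring

end Pool.Agent.MPf00b8a
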