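import Pool.Agent.Lib.MP_f00b8a_ag.DirB

/-!
# Directions lemma
-/

set_option autoImplicit false

namespace Pool.Agent.MPf00b8a

open MvPolynomial

private theorem topc (a : ℕ) (B : Polynomial (Polynomial ℂ))
    (hB : ∀ j, B.coeff j ≠ 0 → (B.coeff j).natDegree + j ≤ a) (m c : ℂ) :
    (B.eval (Polynomial.C m * Polynomial.X + Polynomial.C c)).coeff a =
      ∑ j ∈ Finset.range (a + 1), (B.coeff j).coeff (a - j) * m ^ j := by
  have h1 : B.natDegree < a + 1 := by
    by_contra h
    have h2 : B.coeff B.natDegree ≠ 0 := by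
      rw [Polynomial.coeff_natDegree, Ne, Polynomial.leadingCoeff_eq_zero]
      rintro rfl
      simp at h
    have := hB _ h2
    omega
  rw [Polynomial.eval_eq_sum_range' h1, Polynomial.finsetSum_coeff]
  refine Finset.sum_congr rfl fun j hj => ?_
  have hj' : j ≤ a := by
    have := Finset.mem_range.1 hj
    omega
  by_cases h2 : B.coeff j = 0
  · rw [h2]
    simp
  have h3 := hB j h2
  have hq : (Polynomial.C m * Polynomial.X + Polynomial.C c).natDegree ≤ 1 :=
    Polynomial.natDegree_linear_le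
  have h5 := Polynomial.coeff_pow_of_natDegree_le (m := j) hq
  rw [mul_one] at h5
  have h6 : ((Polynomial.C m * Polynomial.X + Polynomial.C c) ^ j).natDegree ≤ j :=
    (Polynomial.natDegree_pow_le_of_le j hq).trans (by omega)
  have h7 : (B.coeff j).natDegree ≤ a - j := by omega
  have h8 := Polynomial.coeff_mul_add_eq_of_natDegree_le h7 h6
  rw [show a - j + j = a by omega] at h8
  rw [h8, h5]
  simp

private theorem coeffb {κ : Type} [Fintype κ] (mm cc : κ → ℂ) (hinj : Function.Injective mm)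
    (a : ℕ) (ha : 1 ≤ a) (hk : 2 ≤ Fintype.card κ) (Ξ : Polynomial ℂ) (hΞ : Ξ.coeff a = 1)
    (B : Polynomial (Polynomial ℂ))
    (hB : ∀ j, B.coeff j ≠ 0 → (B.coeff j).natDegree + j ≤ a)
    (hB0 : ∀ j, Fintype.card κ ≤ j → B.coeff j = 0)
    (hBe : ∀ i, B.eval (Polynomial.C (mm i) * Polynomial.X + Polynomial.C (cc i)) =
      Polynomial.C (mm i) * Ξ) : (B.coeff 1).coeff (a - 1) = 1 := by
  obtain ⟨P, hPd⟩ : ∃ P : Polynomial ℂ, P = ∑ j ∈ Finset.range (a + 1),
    Polynomial.C ((B.coeff j).coeff (a - j)) * Polynomial.X ^ j - Polynomial.X := ⟨_, rfl⟩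
  have hc : ∀ k, P.coeff k = (if k < a + 1 then (B.coeff k).coeff (a - k) else 0) -
      (if 1 = k then 1 else 0) := by
    intro k
    rw [hPd, Polynomial.coeff_sub, Polynomial.finsetSum_coeff, Polynomial.coeff_X]
    congr 1
    simp only [Polynomial.coeff_C_mul_X_pow]
    rw [Finset.sum_ite_eq]
    simp only [Finset.mem_range]
  have hP : P = 0 := by
    refine Polynomial.eq_zero_of_natDegree_lt_card_of_eval_eq_zero P hinj (fun i => ?_) ?_
    · have h1 := topc a B hB (mm i) (cc i)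
      rw [hBe, Polynomial.coeff_C_mul, hΞ, mul_one] at h1
      rw [hPd, Polynomial.eval_sub, Polynomial.eval_finsetSum, Polynomial.eval_X]
      simp only [Polynomial.eval_mul, Polynomial.eval_C, Polynomial.eval_pow, Polynomial.eval_X]
      rw [← h1, sub_self]
    · have h1 : P.natDegree ≤ Fintype.card κ - 1 := by
        rw [Polynomial.natDegree_le_iff_coeff_eq_zero]
        intro k hk1
        rw [hc, hB0 k (by omega), if_neg (by omega : ¬ 1 = k)]
        simp
      omega
  have h2 := hc 1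
  rw [hP, if_pos (by omega), if_pos rfl, Polynomial.coeff_zero] at h2
  exact (sub_eq_zero.1 h2.symm)

private theorem wr_ne {f g : Polynomial ℂ} {d : ℕ} (hf : f ≠ 0) (hfd : f.natDegree < d)
    (hg : g.natDegree ≤ d) (hgd : g.coeff d = 1) : Polynomial.wronskian f g ≠ 0 := by
  intro h
  rw [Polynomial.wronskian, sub_eq_zero] at h
  have hg' : (Polynomial.derivative g).natDegree ≤ d - 1 :=
    (Polynomial.natDegree_derivative_le g).trans (by omega)
  have h1 := Polynomial.coeff_mul_add_eq_of_natDegree_le (le_refl f.natDegree) hg'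
  have hgc : (Polynomial.derivative g).coeff (d - 1) = d := by
    rw [Polynomial.coeff_derivative, show d - 1 + 1 = d by omega, hgd, one_mul,
      Nat.cast_sub (by omega)]
    push_cast
    ring
  have hd0 : (d : ℂ) ≠ 0 := by
    have : d ≠ 0 := by omega
    exact_mod_cast this
  have hlc : f.coeff f.natDegree ≠ 0 := by
    rwa [Polynomial.coeff_natDegree, Ne, Polynomial.leadingCoeff_eq_zero]
  rw [hgc] at h1
  rcases Nat.eq_zero_or_pos f.natDegree with h0 | h0
  · have h2 : Polynomial.derivative f = 0 := by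
      rw [Polynomial.eq_C_of_natDegree_eq_zero h0, Polynomial.derivative_C]
    rw [h, h2, zero_mul, Polynomial.coeff_zero] at h1
    exact mul_ne_zero hlc hd0 h1.symm
  · have hf' : (Polynomial.derivative f).natDegree ≤ f.natDegree - 1 :=
      Polynomial.natDegree_derivative_le f
    have h2 := Polynomial.coeff_mul_add_eq_of_natDegree_le hf' hg
    have hfc : (Polynomial.derivative f).coeff (f.natDegree - 1) =
        f.coeff f.natDegree * f.natDegree := by
      rw [Polynomial.coeff_derivative, show f.natDegree - 1 + 1 = f.natDegree by omega,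
        Nat.cast_sub (by omega)]
      push_cast
      ring
    rw [← h, show f.natDegree - 1 + d = f.natDegree + (d - 1) by omega, h1, hfc, hgd,
      mul_one] at h2
    have h3 := mul_left_cancel₀ hlc h2
    have h4 : d = f.natDegree := by exact_mod_cast h3
    omega

private theorem wr_dvd {f g : Polynomial ℂ} {ξ : ℂ} {m : ℕ}
    (h : (Polynomial.X - Polynomial.C ξ) ^ m ∣ f) :
    (Polynomial.X - Polynomial.C ξ) ^ (m - 1) ∣ Polynomial.wronskian f g := by
  rw [Polynomial.wronskian]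
  refine dvd_sub ((dvd_trans (pow_dvd_pow _ (Nat.sub_le m 1)) h).mul_right _) ?_
  exact (Polynomial.pow_sub_one_dvd_derivative_of_pow_dvd h).mul_right _

private theorem dir0 {κ : Type} [Fintype κ] (mm cc : κ → ℂ)
    (hinj : ∀ i j, i ≠ j → mm i ≠ mm j)
    (S : Finset ℂ) (hS : ∀ i j, i ≠ j → ∃ ξ ∈ S, mm i * ξ + cc i = mm j * ξ + cc j)
    (hnc : ¬ ∃ ξ η : ℂ, ∀ i, mm i * ξ + cc i = η) (i0 : κ) (hm0 : mm i0 = 0)
    (hc0 : cc i0 = 0) : Fintype.card κ + 3 ≤ 2 * S.card := by
  classical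
  have hinj' : Function.Injective mm := by
    intro i j h
    by_contra hne
    exact hinj i j hne h
  obtain ⟨i1, hi1⟩ : ∃ i1 : κ, i1 ≠ i0 := by
    by_contra hh
    push Not at hh
    exact hnc ⟨0, cc i0, fun i => by rw [hh i]; ring⟩
  have hk : 2 ≤ Fintype.card κ := Fintype.one_lt_card_iff.2 ⟨i1, i0, hi1⟩
  have ha : 1 ≤ S.card := by
    obtain ⟨ξ, hξ, -⟩ := hS i1 i0 hi1
    exact Finset.card_pos.2 ⟨ξ, hξ⟩
  obtain ⟨a, ha'⟩ : ∃ a, a = S.card := ⟨_, rfl⟩
  obtain ⟨Ξ, hΞd⟩ : ∃ Ξ : Polynomial ℂ, Ξ = ∏ ξ ∈ S, (Polynomial.X - Polynomial.C ξ) :=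
    ⟨_, rfl⟩
  have hΞm : Ξ.Monic := hΞd ▸ Polynomial.monic_prod_X_sub_C (fun ξ => ξ) S
  have hΞn : Ξ.natDegree = a := by
    rw [hΞd, ha']
    exact Polynomial.natDegree_finsetProd_X_sub_C_eq_card S (fun ξ => ξ)
  have hΞa : Ξ.coeff a = 1 := by
    rw [← hΞn]
    exact hΞm.coeff_natDegree
  have hΞe : ∀ ξ ∈ S, Ξ.eval ξ = 0 := by
    intro ξ hξ
    rw [hΞd, Polynomial.eval_prod]
    exact Finset.prod_eq_zero hξ (by simp)
  obtain ⟨B, hB, hB0, hBe⟩ : ∃ B : Polynomial (Polynomial ℂ),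
      (∀ j, B.coeff j ≠ 0 → (B.coeff j).natDegree + j ≤ a) ∧
      (∀ j, Fintype.card κ ≤ j → B.coeff j = 0) ∧
      ∀ i, B.eval (Polynomial.C (mm i) * Polynomial.X + Polynomial.C (cc i)) =
        Polynomial.C (mm i) * Ξ := by
    have e := Fintype.equivFin κ
    obtain ⟨B, h1, h2, h3⟩ := exists_interp (Fintype.card κ) (fun i => mm (e.symm i))
      (fun i => cc (e.symm i)) (fun i j h => hinj _ _ (fun h' => h (e.symm.injective h'))) S
      (fun i j h => hS _ _ (fun h' => h (e.symm.injective h')))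
    refine ⟨B, by rw [ha']; exact h1, h2, fun i => ?_⟩
    have := h3 (e i)
    rw [Equiv.symm_apply_apply] at this
    rw [this, hΞd]
  obtain ⟨b, hb⟩ : ∃ b, b = B.coeff 1 := ⟨_, rfl⟩
  have hb1 : b.coeff (a - 1) = 1 := by
    rw [hb]
    exact coeffb mm cc hinj' a (by omega) hk Ξ hΞa B hB hB0 hBe
  have hb0 : b ≠ 0 := by
    rintro rfl
    simp at hb1
  have hbd : b.natDegree ≤ a - 1 := by
    have := hB 1 (hb ▸ hb0)
    rw [← hb] at this
    omega
  -- the slopes at a point
  obtain ⟨F, hF⟩ : ∃ F : ℂ → Finset κ, ∀ ξ i, i ∈ F ξ ↔ mm i * ξ + cc i = 0 :=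
    ⟨fun ξ => Finset.univ.filter fun i => mm i * ξ + cc i = 0, fun ξ i => by simp⟩
  have hFd : ∀ ξ ∈ S, (Polynomial.X - Polynomial.C ξ) ^ (F ξ).card ∣
      (Polynomial.X - Polynomial.C ξ) * b - Ξ := by
    intro ξ hξ
    rw [hb, ← Finset.card_image_of_injective (F ξ) hinj']
    refine local_coeff B Ξ ξ (hΞe ξ hξ) _ (fun m hm => ?_)
    obtain ⟨i, hi, rfl⟩ := Finset.mem_image.1 hm
    rw [← hBe i]
    congr 1
    have h1 : cc i = -(mm i * ξ) := by
      have := (hF ξ i).1 hi
      linear_combination this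
    rw [h1, Polynomial.C_neg, Polynomial.C_mul]
    ring
  have hF0 : ∀ ξ, i0 ∈ F ξ := fun ξ => (hF ξ i0).2 (by rw [hm0, hc0]; ring)
  have hcount : Fintype.card κ - 1 ≤ ∑ ξ ∈ S, ((F ξ).card - 1) := by
    have h1 : (Finset.univ.erase i0 : Finset κ) ⊆ S.biUnion fun ξ => (F ξ).erase i0 := by
      intro i hi
      have hne := (Finset.mem_erase.1 hi).1
      obtain ⟨ξ, hξ, h⟩ := hS i i0 hne
      refine Finset.mem_biUnion.2 ⟨ξ, hξ, Finset.mem_erase.2 ⟨hne, (hF ξ i).2 ?_⟩⟩
      rw [h, hm0, hc0]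
      ring
    have h2 := (Finset.card_le_card h1).trans Finset.card_biUnion_le
    rw [Finset.card_erase_of_mem (Finset.mem_univ _), Finset.card_univ] at h2
    refine h2.trans (le_of_eq (Finset.sum_congr rfl fun ξ _ => ?_))
    rw [Finset.card_erase_of_mem (hF0 ξ)]
  -- the polynomial `f`
  obtain ⟨c, hc⟩ : ∃ c : ℂ, c = (Polynomial.X * b - Ξ).coeff (a - 1) := ⟨_, rfl⟩
  obtain ⟨f, hf⟩ : ∃ f : Polynomial ℂ, f = Polynomial.X * b - Ξ - Polynomial.C c * b :=
    ⟨_, rfl⟩
  have hcoef : ∀ k, a - 1 ≤ k → f.coeff k = 0 := by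
    intro k hk1
    rw [hf, Polynomial.coeff_sub, Polynomial.coeff_C_mul]
    rcases Nat.lt_or_ge k a with h | h
    · have h2 : k = a - 1 := by omega
      rw [h2, ← hc, hb1]
      ring
    · obtain ⟨k', rfl⟩ : ∃ k', k = k' + 1 := ⟨k - 1, by omega⟩
      rw [Polynomial.coeff_sub, Polynomial.coeff_X_mul]
      have h4 : b.coeff (k' + 1) = 0 := Polynomial.coeff_eq_zero_of_natDegree_lt (by omega)
      rw [h4, mul_zero, sub_zero]
      rcases Nat.lt_or_ge a (k' + 1) with h5 | h5
      · rw [Polynomial.coeff_eq_zero_of_natDegree_lt (by omega : b.natDegree < k'),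
          Polynomial.coeff_eq_zero_of_natDegree_lt (by omega : Ξ.natDegree < k' + 1), sub_zero]
      · have h6 : k' + 1 = a := by omega
        have h7 : k' = a - 1 := by omega
        rw [h6, hΞa, h7, hb1, sub_self]
  by_cases hf0 : f = 0
  · exfalso
    have h1 : Ξ = (Polynomial.X - Polynomial.C c) * b := by
      rw [hf] at hf0
      linear_combination -hf0
    have h2 : ∀ ξ ∈ S, 2 ≤ (F ξ).card → ξ = c := by
      intro ξ hξ hcard
      by_contra hne
      have h3 : (Polynomial.X - Polynomial.C ξ) ^ 2 ∣ Polynomial.C (c - ξ) * b := by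
        have h4 := (pow_dvd_pow (Polynomial.X - Polynomial.C ξ) hcard).trans (hFd ξ hξ)
        rw [h1] at h4
        convert h4 using 1
        rw [Polynomial.C_sub]
        ring
      have h5 : IsUnit (Polynomial.C (c - ξ)) :=
        Polynomial.isUnit_C.2 (isUnit_iff_ne_zero.2 (sub_ne_zero.2 (Ne.symm hne)))
      have h6 : (Polynomial.X - Polynomial.C ξ) ^ 2 ∣ Ξ := by
        rw [h1]
        exact (h5.dvd_mul_left.1 h3).mul_left _
      have h7 := (Polynomial.le_rootMultiplicity_iff hΞm.ne_zero).2 h6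
      have h8 : Ξ.roots = S.val := by
        rw [hΞd]
        exact Polynomial.roots_prod_X_sub_C S
      rw [← Polynomial.count_roots, h8] at h7
      have h9 := Multiset.nodup_iff_count_le_one.1 S.nodup ξ
      omega
    refine hnc ⟨c, 0, fun i => ?_⟩
    by_cases hi : i = i0
    · rw [hi, hm0, hc0]
      ring
    obtain ⟨ξ, hξ, h⟩ := hS i i0 hi
    have h3 : i ∈ F ξ := (hF ξ i).2 (by rw [h, hm0, hc0]; ring)
    have h4 : 2 ≤ (F ξ).card := Finset.one_lt_card_iff.2 ⟨i, i0, h3, hF0 ξ, hi⟩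
    rw [← h2 ξ hξ h4]
    exact (hF ξ i).1 h3
  · have ha2 : 2 ≤ a := by
      by_contra hlt
      apply hf0
      ext k
      rw [Polynomial.coeff_zero]
      exact hcoef k (by omega)
    have hfd : f.natDegree < a - 1 := by
      have h1 : f.natDegree ≤ a - 2 := by
        rw [Polynomial.natDegree_le_iff_coeff_eq_zero]
        intro k hk1
        exact hcoef k (by omega)
      omega
    have hW : Polynomial.wronskian f b ≠ 0 := wr_ne hf0 hfd hbd hb1
    have hWd := Polynomial.natDegree_wronskian_lt_add hW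
    have hdvd : ∀ ξ ∈ S, (Polynomial.X - Polynomial.C ξ) ^ ((F ξ).card - 1) ∣
        Polynomial.wronskian f b := by
      intro ξ hξ
      have h1 := wr_dvd (g := b) (hFd ξ hξ)
      convert h1 using 1
      rw [hf]
      simp only [Polynomial.wronskian, Polynomial.derivative_sub, Polynomial.derivative_mul,
        Polynomial.derivative_X, Polynomial.derivative_C]
      ring
    have hprod : ∏ ξ ∈ S, (Polynomial.X - Polynomial.C ξ) ^ ((F ξ).card - 1) ∣
        Polynomial.wronskian f b := by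
      refine Finset.prod_dvd_of_coprime (fun ξ _ ζ _ hne => ?_) hdvd
      exact (Polynomial.isCoprime_X_sub_C_of_isUnit_sub
        (isUnit_iff_ne_zero.2 (sub_ne_zero.2 hne))).pow
    have hle := Polynomial.natDegree_le_of_dvd hprod hW
    rw [Polynomial.natDegree_prod_of_monic _ _
      (fun ξ _ => (Polynomial.monic_X_sub_C ξ).pow _)] at hle
    simp only [Polynomial.natDegree_pow, Polynomial.natDegree_X_sub_C, mul_one] at hle
    omega

/-- (6c, 6d, 6e of the text.) -/
theorem directions {κ : Type} [Fintype κ] (mm cc : κ → ℂ) (hinj : ∀ i j, i ≠ j → mm i ≠ mm j)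
    (S : Finset ℂ) (hS : ∀ i j, i ≠ j → ∃ ξ ∈ S, mm i * ξ + cc i = mm j * ξ + cc j)
    (hnc : ¬ ∃ ξ η : ℂ, ∀ i, mm i * ξ + cc i = η) : Fintype.card κ + 3 ≤ 2 * S.card := by
  rcases isEmpty_or_nonempty κ with he | ⟨⟨i0⟩⟩
  · exact absurd ⟨0, 0, fun i => (he.false i).elim⟩ hnc
  refine dir0 (fun i => mm i - mm i0) (fun i => cc i - cc i0)
    (fun i j h h' => hinj i j h (sub_left_inj.1 h')) S (fun i j h => ?_) ?_ i0 (sub_self _)
    (sub_self _)
  · obtain ⟨ξ, hξ, h1⟩ := hS i j h
    exact ⟨ξ, hξ, by linear_combination h1⟩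
  · rintro ⟨ξ, η, h⟩
    exact hnc ⟨ξ, η + mm i0 * ξ + cc i0, fun i => by linear_combination h i⟩

end Pool.Agent.MPf00b8a
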