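import Pool.Agent.Lib.MP_f00b8a_ag.Socle

/-!
# Duality from the Gorenstein property
-/

set_option autoImplicit false

namespace Pool.Agent.MPf00b8a

open MvPolynomial

variable {ι : Type}

private theorem map_eq_sum [Fintype ι] [DecidableEq ι] (φ : (ι → ℂ) →ₗ[ℂ] ℂ) (f : ι → ℂ) :
    φ f = ∑ i, φ (Pi.single i 1) * f i := by
  have hf : f = ∑ i, f i • (Pi.single i (1 : ℂ) : ι → ℂ) := by
    funext j
    rw [Finset.sum_apply]
    simp [Pi.single_apply]
  conv_lhs => rw [hf]
  rw [map_sum]
  refine Finset.sum_congr rfl fun i _ => ?_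
  rw [map_smul, smul_eq_mul, mul_comm]

/-- The multiplications by the variables lead to the top. -/
private theorem exists_dual [Fintype ι] {v : ι → V4} {l : MvPolynomial (Fin 4) ℂ}
    (h : Norm v l)
    (hs : Module.finrank ℂ (socle (vanIdeal v ⊔ Ideal.span {l})) = 1) {s : ℕ}
    (h1 : filt v (s + 1) = ⊤) (h2 : filt v s ≠ ⊤) {φ : (ι → ℂ) →ₗ[ℂ] ℂ}
    (hφ : LinearMap.ker φ = filt v s) (n : ℕ) :
    n ≤ s → ∀ f : ι → ℂ, f ∈ filt v (s + 1 - n) → f ∉ filt v (s - n) →
      ∃ g ∈ filt v (n + 1), φ (f * g) ≠ 0 := by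
  induction n with
  | zero =>
    intro _ f _ hf
    refine ⟨fun _ => 1, (mem_filt_one v _).2 ⟨1, fun _ => rfl⟩, fun hz => hf ?_⟩
    have h3 : f * (fun _ => (1 : ℂ)) = f := by
      funext i
      simp
    rw [h3] at hz
    rw [Nat.sub_zero, ← hφ]
    exact LinearMap.mem_ker.2 hz
  | succ n ih =>
    intro hn f hf1 hf2
    have e1 : s + 1 - (n + 1) = (s - (n + 1)) + 1 := by omega
    rw [e1] at hf1
    obtain ⟨q, hq, hqf⟩ := (mem_filt_succ v _ f).1 hf1
    have hqf' : evalMap v q = f := funext fun i => by rw [evalMap_apply, hqf i]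
    have hlt : s - (n + 1) < s := by omega
    obtain ⟨i, hi⟩ := socle_step h hs h1 h2 hlt hq (by rw [hqf']; exact hf2)
    have hX : (X i * q : MvPolynomial (Fin 4) ℂ).IsHomogeneous (s - (n + 1) + 1) := by
      have := (isHomogeneous_X ℂ i).mul hq
      rwa [add_comm] at this
    have hm : evalMap v (X i * q) ∈ filt v (s + 1 - n) := by
      have e2 : s + 1 - n = (s - (n + 1) + 1) + 1 := by omega
      rw [e2]
      exact (mem_filt_succ v _ _).2 ⟨_, hX, fun j => (evalMap_apply v _ j).symm⟩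
    have e3 : s - n = s - (n + 1) + 1 := by omega
    obtain ⟨g, hg, hg0⟩ := ih (by omega) _ hm (by rw [e3]; exact hi)
    have hXi : evalMap v (X i) ∈ filt v (1 + 1) :=
      (mem_filt_succ v _ _).2 ⟨X i, isHomogeneous_X ℂ i, fun j => (evalMap_apply v _ j).symm⟩
    have hXg := filt_mul hXi hg
    have e4 : 1 + n + 1 = n + 1 + 1 := by omega
    rw [e4] at hXg
    refine ⟨_, hXg, ?_⟩
    have e5 : f * (evalMap v (X i) * g) = evalMap v (X i * q) * g := by
      funext j
      simp only [Pi.mul_apply, evalMap_apply, map_mul]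
      rw [hqf j]
      ring
    rw [e5]
    exact hg0

/-- (Step 1 of the text: `σ = s + 1` with `s` minimal such that `filt v (s + 1) = ⊤`, `w i` are the
coefficients of the functional `φ` with kernel `filt v s`.) -/
theorem dual_of_gor [Fintype ι] [Nonempty ι] {v : ι → V4} {l : MvPolynomial (Fin 4) ℂ}
    (h : Norm v l) (hv : Function.Injective v)
    (hs : Module.finrank ℂ (socle (vanIdeal v ⊔ Ideal.span {l})) = 1) :
    ∃ (σ : ℕ) (w : ι → ℂ), Dual v σ w := by
  classical
  have hex : ∃ s, filt v (s + 1) = ⊤ := by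
    refine ⟨Fintype.card ι - 1, ?_⟩
    have hc : Fintype.card ι - 1 + 1 = Fintype.card ι := Nat.succ_pred_eq_of_pos Fintype.card_pos
    rw [hc]
    exact filt_card h hv
  obtain ⟨s, h1, hmin⟩ : ∃ s, filt v (s + 1) = ⊤ ∧ ∀ u < s, filt v (u + 1) ≠ ⊤ :=
    ⟨Nat.find hex, Nat.find_spec hex, fun u hu => Nat.find_min hex hu⟩
  have h2 : filt v s ≠ ⊤ := by
    rcases Nat.eq_zero_or_pos s with h0 | h0
    · rw [h0, filt_zero]
      exact bot_ne_top
    · obtain ⟨u, rfl⟩ := Nat.exists_eq_succ_of_ne_zero h0.ne'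
      exact hmin u (Nat.lt_succ_self u)
  obtain ⟨φ, hφ⟩ := socle_top h hs h1 h2
  set w : ι → ℂ := fun i => φ (Pi.single i 1) with hw
  have hsum : ∀ f g : ι → ℂ, ∑ i, w i * f i * g i = φ (f * g) := by
    intro f g
    rw [map_eq_sum φ (f * g)]
    refine Finset.sum_congr rfl fun i _ => ?_
    rw [Pi.mul_apply, mul_assoc]
  have hperp : ∀ t ≤ s + 1, ∀ f : ι → ℂ,
      f ∈ filt v (s + 1 - t) ↔ ∀ g ∈ filt v t, ∑ i, w i * f i * g i = 0 := by
    intro t ht f
    constructor
    · intro hf g hg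
      rw [hsum]
      cases t with
      | zero =>
        rw [filt_zero, Submodule.mem_bot] at hg
        rw [hg, mul_zero, map_zero]
      | succ t =>
        rcases Nat.eq_zero_or_pos (s - t) with h0 | h0
        · have e : s + 1 - (t + 1) = 0 := by omega
          rw [e, filt_zero, Submodule.mem_bot] at hf
          rw [hf, zero_mul, map_zero]
        · obtain ⟨u, hu⟩ := Nat.exists_eq_succ_of_ne_zero h0.ne'
          have e : s + 1 - (t + 1) = u + 1 := by omega
          rw [e] at hf
          have h3 := filt_mul hf hg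
          have e2 : u + t + 1 = s := by omega
          rw [e2, ← hφ] at h3
          exact LinearMap.mem_ker.1 h3
    · intro hf
      by_contra hcon
      have hex2 : ∃ u, f ∈ filt v u := ⟨s + 1, by rw [h1]; exact Submodule.mem_top⟩
      obtain ⟨u, hu1, hu2⟩ : ∃ u, f ∈ filt v u ∧ ∀ k < u, f ∉ filt v k :=
        ⟨Nat.find hex2, Nat.find_spec hex2, fun k hk => Nat.find_min hex2 hk⟩
      have hus : u ≤ s + 1 := by
        by_contra hlt
        exact hu2 (s + 1) (by omega) (by rw [h1]; exact Submodule.mem_top)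
      have hut : s + 1 - t < u := by
        by_contra hlt
        exact hcon (filt_mono h (by omega) hu1)
      have e1 : s + 1 - (s + 1 - u) = u := by omega
      obtain ⟨g, hg, hg0⟩ := exists_dual h hs h1 h2 hφ (s + 1 - u) (by omega) f
        (by rw [e1]; exact hu1) (hu2 _ (by omega))
      apply hg0
      rw [← hsum]
      exact hf g (filt_mono h (by omega) hg)
  refine ⟨s + 1, w, ⟨fun i hi => ?_, hperp⟩⟩
  have h3 := (hperp (s + 1) le_rfl (Pi.single i 1)).2 (fun g _ => by
    refine Finset.sum_eq_zero fun j _ => ?_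
    by_cases hji : j = i
    · rw [hji, hi, zero_mul, zero_mul]
    · rw [Pi.single_eq_of_ne hji, mul_zero, zero_mul])
  rw [Nat.sub_self, filt_zero, Submodule.mem_bot] at h3
  have h4 := congrFun h3 i
  rw [Pi.single_eq_same, Pi.zero_apply] at h4
  exact one_ne_zero h4

end Pool.Agent.MPf00b8a
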