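import Pool.Agent.Lib.MP_f00b8a_ag.Defs

/-!
# The filtration `filt`: first facts
-/

set_option autoImplicit false

namespace Pool.Agent.MPf00b8a

open MvPolynomial

variable {ι : Type}

/-- (Multiply by `l`.) -/
theorem filt_mono {v : ι → V4} {l : MvPolynomial (Fin 4) ℂ} (h : Norm v l) {s t : ℕ}
    (hst : s ≤ t) : filt v s ≤ filt v t := by
  cases s with
  | zero => rw [filt_zero]; exact bot_le
  | succ s =>
    cases t with
    | zero => omega
    | succ t =>
      intro f hf
      obtain ⟨q, hq, hf⟩ := (mem_filt_succ v s f).1 hf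
      refine (mem_filt_succ v t f).2 ⟨q * l ^ (t - s), ?_, fun i => ?_⟩
      · have h1 := hq.mul (h.hom.pow (t - s))
        have h2 : s + 1 * (t - s) = t := by omega
        rwa [h2] at h1
      · rw [map_mul, map_pow, h.one i, one_pow, mul_one, hf i]

theorem filt_mul {v : ι → V4} {s t : ℕ} {f g : ι → ℂ} (hf : f ∈ filt v (s + 1))
    (hg : g ∈ filt v (t + 1)) : f * g ∈ filt v (s + t + 1) := by
  obtain ⟨q, hq, hf⟩ := (mem_filt_succ v s f).1 hf
  obtain ⟨r, hr, hg⟩ := (mem_filt_succ v t g).1 hg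
  refine (mem_filt_succ v (s + t) (f * g)).2 ⟨q * r, hq.mul hr, fun i => ?_⟩
  rw [map_mul, hf i, hg i, Pi.mul_apply]

theorem mem_filt_one (v : ι → V4) (f : ι → ℂ) : f ∈ filt v 1 ↔ ∃ c : ℂ, ∀ i, f i = c := by
  rw [show (1 : ℕ) = 0 + 1 from rfl, mem_filt_succ]
  constructor
  · rintro ⟨q, hq, hf⟩
    have h1 : q.totalDegree = 0 := Nat.le_zero.1 hq.totalDegree_le
    have h2 := MvPolynomial.totalDegree_eq_zero_iff_eq_C.1 h1
    refine ⟨MvPolynomial.coeff 0 q, fun i => ?_⟩
    rw [← hf i]
    conv_lhs => rw [h2]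
    rw [eval_C]
  · rintro ⟨c, hc⟩
    exact ⟨C c, isHomogeneous_C _ c, fun i => by rw [eval_C, hc i]⟩

/-- (For each `i` there is a form of degree `card ι - 1` that vanishes exactly at the other vectors:
a product of linear forms; `v i`, `v j` are not proportional because of `l`.) -/
theorem filt_card [Fintype ι] {v : ι → V4} {l : MvPolynomial (Fin 4) ℂ} (h : Norm v l)
    (hv : Function.Injective v) : filt v (Fintype.card ι) = ⊤ := by
  classical
  rcases isEmpty_or_nonempty ι with he | he
  · refine eq_top_iff.2 fun f _ => ?_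
    have h0 : f = 0 := Subsingleton.elim _ _
    rw [h0]
    exact Submodule.zero_mem _
  have hc : Fintype.card ι - 1 + 1 = Fintype.card ι := Nat.succ_pred_eq_of_pos Fintype.card_pos
  have key : ∀ i : ι, Pi.single i (1 : ℂ) ∈ filt v (Fintype.card ι) := by
    intro i
    have hex : ∀ j : ι, ∃ q : MvPolynomial (Fin 4) ℂ, q.IsHomogeneous 1 ∧
        eval (v j) q = 0 ∧ (j ≠ i → eval (v i) q ≠ 0) := by
      intro j
      by_cases hji : j = i
      · exact ⟨0, isHomogeneous_zero _ _ _, by simp, fun h => absurd hji h⟩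
      · have hne : v i ≠ v j := fun h => hji (hv h).symm
        obtain ⟨k, hk⟩ := Function.ne_iff.1 hne
        refine ⟨X k - C (v j k) * l, ?_, ?_, fun _ => ?_⟩
        · have h1 : (C (v j k) * l).IsHomogeneous (0 + 1) := (isHomogeneous_C _ _).mul h.hom
          exact (isHomogeneous_X _ _).sub (by simpa using h1)
        · simp [h.one j]
        · simpa [h.one i] using sub_ne_zero.2 hk
    choose q hq hq0 hq1 using hex
    rw [← hc, mem_filt_succ]
    have hP : (∏ j ∈ Finset.univ.erase i, q j).IsHomogeneous (Fintype.card ι - 1) := by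
      have h1 := IsHomogeneous.prod (Finset.univ.erase i) q (fun _ => 1) fun j _ => hq j
      rwa [Finset.sum_const, smul_eq_mul, mul_one, Finset.card_erase_of_mem (Finset.mem_univ i),
        Finset.card_univ] at h1
    have hPi : eval (v i) (∏ j ∈ Finset.univ.erase i, q j) ≠ 0 := by
      rw [map_prod]
      exact Finset.prod_ne_zero_iff.2 fun j hj => hq1 j (Finset.ne_of_mem_erase hj)
    refine ⟨C (eval (v i) (∏ j ∈ Finset.univ.erase i, q j))⁻¹ *
      ∏ j ∈ Finset.univ.erase i, q j, ?_, fun j => ?_⟩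
    · have h1 := (isHomogeneous_C (Fin 4) (eval (v i) (∏ j ∈ Finset.univ.erase i, q j))⁻¹).mul hP
      rwa [zero_add] at h1
    · rw [map_mul, eval_C]
      by_cases hji : j = i
      · subst hji
        rw [Pi.single_eq_same, inv_mul_cancel₀ hPi]
      · have h0 : eval (v j) (∏ k ∈ Finset.univ.erase i, q k) = 0 := by
          rw [map_prod]
          exact Finset.prod_eq_zero (Finset.mem_erase.2 ⟨hji, Finset.mem_univ j⟩) (hq0 j)
        rw [Pi.single_eq_of_ne hji, h0, mul_zero]
  refine eq_top_iff.2 fun f _ => ?_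
  have hf : f = ∑ i, f i • (Pi.single i (1 : ℂ) : ι → ℂ) := by
    funext j
    rw [Finset.sum_apply]
    simp [Pi.single_apply]
  rw [hf]
  exact Submodule.sum_mem _ fun i _ => Submodule.smul_mem _ _ (key i)

end Pool.Agent.MPf00b8a
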