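import Pool.Agent.Lib.MP_f00b8a_ag.Main

/-!
# The theorem for sets of points of projective space
-/

set_option autoImplicit false

namespace Pool.Agent.MPf00b8a

open MvPolynomial

theorem eval_smul_hom {n d : ℕ} {f : MvPolynomial (Fin n) ℂ} (hf : f.IsHomogeneous d)
    (a : ℂ) (v : Fin n → ℂ) : eval (a • v) f = a ^ d * eval v f := by
  rw [MvPolynomial.eval_eq', MvPolynomial.eval_eq', Finset.mul_sum]
  refine Finset.sum_congr rfl fun e he => ?_
  have h1 : ∑ i, e i = d := by
    have := hf (mem_support_iff.1 he)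
    rw [← this]
    simp [Finsupp.weight_apply, Finsupp.sum_fintype]
  have h2 : ∏ i, (a • v) i ^ e i = a ^ d * ∏ i, v i ^ e i := by
    rw [← h1, ← Finset.prod_pow_eq_pow_sum, ← Finset.prod_mul_distrib]
    refine Finset.prod_congr rfl fun i _ => ?_
    rw [Pi.smul_apply, smul_eq_mul, mul_pow]
  rw [h2]
  ring

/-- A homogeneous polynomial vanishes at a point if and only if it vanishes at any vector that
represents it. -/
theorem eval_rep_iff {n d : ℕ} {f : MvPolynomial (Fin n) ℂ} (hf : f.IsHomogeneous d)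
    {v : Fin n → ℂ} (hv : v ≠ 0) {p : Projectivization ℂ (Fin n → ℂ)}
    (hp : Projectivization.mk ℂ v hv = p) : eval p.rep f = 0 ↔ eval v f = 0 := by
  subst hp
  obtain ⟨a, ha⟩ := Projectivization.exists_smul_eq_mk_rep ℂ v hv
  rw [← ha]
  have h1 : eval (a • v) f = (a : ℂ) ^ d * eval v f := eval_smul_hom hf (a : ℂ) v
  rw [h1, mul_eq_zero, or_iff_right (pow_ne_zero _ a.ne_zero)]

theorem main {Z : Set (Projectivization ℂ (Fin 4 → ℂ))} {r m : ℕ} (hr : 2 ≤ r) (hm : 2 ≤ m)
    (hZ : OnSkewLines Z r m) (hg : r ≤ m ∨ IsGeproci Z m r ∨ IsGeproci Z r m) :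
    ¬ IsArithGorenstein Z := by
  classical
  rintro ⟨l, hl, hl0, hs⟩
  obtain ⟨L, hL2, hLs, hLc, hLn⟩ := hZ
  -- enumerate the points on the lines
  have hfin : ∀ i, {p ∈ Z | p.submodule ≤ L i}.Finite := fun i =>
    Set.finite_of_ncard_ne_zero (by rw [hLn i]; omega)
  have henum : ∀ i, ∃ e : Fin m → Projectivization ℂ (Fin 4 → ℂ), Function.Injective e ∧
      Set.range e = {p ∈ Z | p.submodule ≤ L i} := by
    intro i
    have h1 : (hfin i).toFinset.card = m := by
      rw [← Set.ncard_eq_toFinset_card _ (hfin i)]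
      exact hLn i
    let e := (Finset.equivFinOfCardEq h1).symm
    refine ⟨fun a => (e a : Projectivization ℂ (Fin 4 → ℂ)), ?_, ?_⟩
    · intro a b hab
      exact e.injective (Subtype.ext hab)
    · ext p
      constructor
      · rintro ⟨a, rfl⟩
        exact (hfin i).mem_toFinset.1 (e a).2
      · intro hp
        refine ⟨e.symm ⟨p, (hfin i).mem_toFinset.2 hp⟩, ?_⟩
        simp
  choose e he1 he2 using henum
  let P : Fin r × Fin m → Projectivization ℂ (Fin 4 → ℂ) := fun q => e q.1 q.2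
  have hPZ : ∀ q, P q ∈ Z := by
    intro q
    have : P q ∈ Set.range (e q.1) := ⟨q.2, rfl⟩
    rw [he2] at this
    exact this.1
  have hPL : ∀ q, (P q).submodule ≤ L q.1 := by
    intro q
    have : P q ∈ Set.range (e q.1) := ⟨q.2, rfl⟩
    rw [he2] at this
    exact this.2
  have hPs : ∀ p ∈ Z, ∃ q, P q = p := by
    intro p hp
    obtain ⟨i, hi⟩ := hLc p hp
    have h1 : p ∈ Set.range (e i) := by
      rw [he2]
      exact ⟨hp, hi⟩
    obtain ⟨a, ha⟩ := h1
    exact ⟨(i, a), ha⟩
  have hl1 : ∀ q, eval (P q).rep l ≠ 0 := fun q => hl0 _ (hPZ q)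
  let z : Fin r × Fin m → V4 := fun q => (eval (P q).rep l)⁻¹ • (P q).rep
  have hz0 : ∀ q, z q ≠ 0 := fun q =>
    smul_ne_zero (inv_ne_zero (hl1 q)) (Projectivization.rep_nonzero _)
  have hzP : ∀ q, Projectivization.mk ℂ (z q) (hz0 q) = P q := by
    intro q
    conv_rhs => rw [← Projectivization.mk_rep (P q)]
    rw [Projectivization.mk_eq_mk_iff']
    exact ⟨(eval (P q).rep l)⁻¹, rfl⟩
  have hzL : ∀ q, z q ∈ L q.1 := by
    intro q
    apply hPL q
    rw [← hzP q, Projectivization.submodule_mk]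
    exact Submodule.mem_span_singleton_self _
  have hPinj : Function.Injective P := by
    intro p q hpq
    have h1 : p.1 = q.1 := by
      by_contra hne
      have h2 := hzL p
      have h3 : z p ∈ L q.1 := by
        apply hPL q
        rw [← hpq, ← hzP p, Projectivization.submodule_mk]
        exact Submodule.mem_span_singleton_self _
      have h4 := (Submodule.disjoint_def.1 (hLs _ _ hne)) _ h2 h3
      exact hz0 p h4
    have h5 : e p.1 p.2 = e q.1 q.2 := hpq
    rw [← h1] at h5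
    exact Prod.ext h1 (he1 _ h5)
  have hNorm : Norm z l := by
    refine ⟨hl, fun q => ?_⟩
    have := eval_smul_hom hl ((eval (P q).rep l)⁻¹) (P q).rep
    rw [pow_one] at this
    exact this.trans (inv_mul_cancel₀ (hl1 q))
  have hC : Conf r m L z := by
    refine ⟨hL2, hLs, hzL, fun p q hpq => ?_⟩
    rw [LinearIndependent.pair_iff' (hz0 p)]
    intro a ha
    apply hpq
    apply hPinj
    rw [← hzP p, ← hzP q, Projectivization.mk_eq_mk_iff']
    have ha0 : a ≠ 0 := by
      rintro rfl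
      exact hz0 q (by rw [← ha, zero_smul])
    exact ⟨a⁻¹, by rw [← ha, smul_smul, inv_mul_cancel₀ ha0, one_smul]⟩
  have hinj : Function.Injective z := by
    intro p q hpq
    apply hPinj
    rw [← hzP p, ← hzP q]
    congr 1
  have hJ : homIdeal Z = vanIdeal z := by
    unfold homIdeal vanIdeal
    congr 1
    ext f
    constructor
    · rintro ⟨⟨d, hd⟩, h⟩
      refine ⟨⟨d, hd⟩, fun q => ?_⟩
      exact (eval_rep_iff hd (hz0 q) (hzP q)).1 (h _ (hPZ q))
    · rintro ⟨⟨d, hd⟩, h⟩
      refine ⟨⟨d, hd⟩, fun p hp => ?_⟩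
      obtain ⟨q, rfl⟩ := hPs p hp
      exact (eval_rep_iff hd (hz0 q) (hzP q)).2 (h q)
  rw [hJ] at hs
  have : Nonempty (Fin r × Fin m) := ⟨(⟨0, by omega⟩, ⟨0, by omega⟩)⟩
  obtain ⟨σ, w, hD⟩ := dual_of_gor hNorm hinj hs
  refine no_dual hC hr hm ?_ hNorm hD
  rcases hg with h | h
  · exact Or.inl h
  · exact Or.inr (genCone_of_geproci (by omega) h z hz0 (fun q => by rw [hzP q]; exact hPZ q))

end Pool.Agent.MPf00b8a
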