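import Pool.Agent.Lib.MP_f00b8a_ag.LineA

/-!
# General position and cones
-/

set_option autoImplicit false

namespace Pool.Agent.MPf00b8a

open MvPolynomial

variable {r m : ℕ} {L : Fin r → Submodule ℂ V4} {z : Fin r × Fin m → V4}

/-- A linear functional as a polynomial. -/
private noncomputable def Gen_pol (f : V4 →ₗ[ℂ] ℂ) : MvPolynomial (Fin 4) ℂ :=
  ∑ i, C (f (Pi.single i 1)) * X i

private theorem Gen_eval (f : V4 →ₗ[ℂ] ℂ) (P : V4) : eval P (Gen_pol f) = f P := by
  unfold Gen_pol
  rw [map_sum]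
  have h : P = ∑ i, P i • (Pi.single i 1 : V4) := by
    funext k
    simp [Finset.sum_apply, Pi.single_apply]
  conv_rhs => rw [h, map_sum]
  refine Finset.sum_congr rfl fun i _ => ?_
  rw [map_mul, eval_C, eval_X, map_smul, smul_eq_mul, mul_comm]

private theorem Gen_prod {ι : Type} (s : Finset ι) (f : ι → (V4 →ₗ[ℂ] ℂ))
    (h : ∀ i ∈ s, f i ≠ 0) : ∃ Ψ : MvPolynomial (Fin 4) ℂ, Ψ ≠ 0 ∧
      ∀ P : V4, eval P Ψ = ∏ i ∈ s, f i P := by
  refine ⟨∏ i ∈ s, Gen_pol (f i), ?_, fun P => ?_⟩
  · rw [Finset.prod_ne_zero_iff]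
    intro i hi h0
    apply h i hi
    ext x
    have := Gen_eval (f i) (LinearMap.single ℂ (fun _ => ℂ) x 1)
    rw [h0, map_zero] at this
    simpa using this.symm
  · rw [map_prod]
    exact Finset.prod_congr rfl fun i _ => Gen_eval _ _

private theorem Gen_exists {Ψ : MvPolynomial (Fin 4) ℂ} (h : Ψ ≠ 0) : ∃ P : V4, eval P Ψ ≠ 0 := by
  by_contra hc
  push Not at hc
  exact h (MvPolynomial.funext fun x => by rw [hc x, map_zero])

private theorem Gen_plane (x : V4) {L : Submodule ℂ V4} (hL : Module.finrank ℂ L = 2) :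
    Module.finrank ℂ (Submodule.span ℂ {x} ⊔ L : Submodule ℂ V4) ≤ 3 := by
  have h1 := Submodule.finrank_add_le_finrank_add_finrank (Submodule.span ℂ {x}) L
  have h2 : Module.finrank ℂ (Submodule.span ℂ {x}) ≤ 1 := by
    have := finrank_span_le_card (R := ℂ) ({x} : Set V4)
    simpa using this
  omega

private theorem Gen_func (x : V4) {L : Submodule ℂ V4} (hL : Module.finrank ℂ L = 2) :
    ∃ f : V4 →ₗ[ℂ] ℂ, f ≠ 0 ∧ Submodule.span ℂ {x} ⊔ L ≤ LinearMap.ker f := by
  refine Submodule.exists_le_ker_of_lt_top _ (lt_top_iff_ne_top.2 fun h => ?_)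
  have h1 := Gen_plane x hL
  rw [h, finrank_top] at h1
  simp at h1

theorem Conf.isCompl (hC : Conf r m L z) {i j : Fin r} (hij : i ≠ j) : IsCompl (L i) (L j) := by
  refine ⟨hC.skew i j hij, codisjoint_iff.2 ?_⟩
  refine Submodule.eq_top_of_disjoint _ _ ?_ (hC.skew i j hij)
  rw [hC.two, hC.two]
  simp

/-- (A product of linear forms.) -/
theorem exists_gen (hC : Conf r m L z) :
    ∃ Ψ : MvPolynomial (Fin 4) ℂ, Ψ ≠ 0 ∧ ∀ P : V4, eval P Ψ ≠ 0 → ∀ p j, j ≠ p.1 →
      P ∉ Submodule.span ℂ {z p} ⊔ L j := by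
  classical
  choose f hf hk using fun (q : (Fin r × Fin m) × Fin r) => Gen_func (z q.1) (hC.two q.2)
  obtain ⟨Ψ, h0, h1⟩ := Gen_prod Finset.univ f fun q _ => hf q
  refine ⟨Ψ, h0, fun P hP p j _ hmem => hP ?_⟩
  rw [h1]
  exact Finset.prod_eq_zero (Finset.mem_univ (p, j)) (hk (p, j) hmem)

/-- (Step 5 of the text: if `F = 0` on `L i` then `F = 0` on all `L j`, hence on the `r > m`
distinct planes spanned by `P` and `L j`, so `F = 0`.) -/
theorem cone_lines (hC : Conf r m L z) (hr : m < r) {P : V4}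
    (hP : ∀ p j, j ≠ p.1 → P ∉ Submodule.span ℂ {z p} ⊔ L j) (hP' : ∀ j, P ∉ L j)
    {F : MvPolynomial (Fin 4) ℂ} (hF : F.IsHomogeneous m) (hF0 : F ≠ 0)
    (hcone : ∀ (x : V4) (c : ℂ), eval (x + c • P) F = eval x F) (hz : ∀ p, eval (z p) F = 0)
    (i : Fin r) : ∃ y ∈ L i, eval y F ≠ 0 := by
  classical
  by_contra hc
  push Not at hc
  -- `F` vanishes on all lines
  have hall : ∀ j, ∀ y ∈ L j, eval y F = 0 := by
    intro j
    by_cases hij : i = j
    · rw [← hij]
      exact hc
    · obtain ⟨u, hu, v, hv, huv⟩ := Submodule.mem_sup.1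
        ((hC.isCompl hij).sup_eq_top ▸ Submodule.mem_top : P ∈ L i ⊔ L j)
      have hv0 : eval v F = 0 := by
        have h := hcone (-u) 1
        rw [one_smul, ← huv, neg_add_cancel_left] at h
        rw [h]
        exact hc _ (Submodule.neg_mem _ hu)
      have hind : ∀ b : Fin m, LinearIndependent ℂ ![v, z (j, b)] := by
        intro b
        have hz0 : z (j, b) ≠ 0 := by
          have h := (hC.indep (j, b) (i, b) (fun h => hij (congrArg Prod.fst h).symm)).ne_zero 0
          simpa using h
        rw [LinearIndependent.pair_iff]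
        intro s t hst
        have hs : s = 0 := by
          by_contra hs
          apply hP (j, b) i hij
          rw [← huv]
          have hvs : v = (-(s⁻¹ * t)) • z (j, b) := by
            have h2 : s • v = (-t) • z (j, b) := by
              rw [neg_smul]
              exact eq_neg_of_add_eq_zero_left hst
            calc v = s⁻¹ • (s • v) := by rw [smul_smul, inv_mul_cancel₀ hs, one_smul]
              _ = _ := by rw [h2, smul_smul]; congr 1; ring
          refine Submodule.add_mem _ (Submodule.mem_sup_right hu) (Submodule.mem_sup_left ?_)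
          rw [hvs]
          exact Submodule.smul_mem _ _ (Submodule.mem_span_singleton_self _)
        refine ⟨hs, ?_⟩
        rw [hs, zero_smul, zero_add] at hst
        exact (smul_eq_zero.1 hst).resolve_right hz0
      intro y hy
      refine form_zero_on_line (hC.two j) (Finset.univ : Finset (Option (Fin m)))
        (fun o => o.elim v fun b => z (j, b)) ?_ ?_ (t := m) ?_ hF ?_ hy
      · rintro (_ | b) -
        · exact hv
        · exact hC.mem (j, b)
      · rintro (_ | a) - (_ | b) - hab
        · exact absurd rfl hab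
        · exact hind b
        · exact LinearIndependent.pair_symm_iff.1 (hind a)
        · exact hC.indep _ _ fun h => hab (congrArg some (congrArg Prod.snd h))
      · simp
      · rintro (_ | b) -
        · exact hv0
        · exact hz (j, b)
  -- the case of one line
  rcases Nat.lt_or_ge r 2 with hr2 | hr2
  · have hm : m = 0 := by omega
    subst hm
    apply hF0
    obtain ⟨c, hc'⟩ : ∃ c, F = C c := ⟨_, (totalDegree_eq_zero_iff_eq_C).1
      (le_antisymm hF.totalDegree_le (Nat.zero_le _))⟩
    have := hc 0 (Submodule.zero_mem _)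
    rw [hc', eval_C] at this
    rw [hc', this, map_zero]
  obtain ⟨x₀, hx₀⟩ := Gen_exists hF0
  choose f hf hk using fun j : Fin r => Gen_func P (hC.two j)
  have hfL : ∀ j, ∀ y ∈ L j, f j y = 0 := fun j y hy => hk j (Submodule.mem_sup_right hy)
  have hker : ∀ j, Submodule.span ℂ {P} ⊔ L j = LinearMap.ker (f j) := by
    intro j
    refine Submodule.eq_of_le_of_finrank_eq (hk j) ?_
    have hP0 : P ≠ 0 := fun h => hP' j (h ▸ Submodule.zero_mem _)
    have hdis : Disjoint (Submodule.span ℂ {P}) (L j) := by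
      refine Disjoint.symm ?_
      rw [Submodule.disjoint_span_singleton' hP0]
      exact hP' j
    have h1 := Submodule.finrank_sup_add_finrank_inf_eq (Submodule.span ℂ {P}) (L j)
    rw [hdis.eq_bot, finrank_bot, finrank_span_singleton hP0, hC.two] at h1
    have h2 := LinearMap.finrank_range_add_finrank_ker (f j)
    have h3 : LinearMap.range (f j) = ⊤ := by
      rw [LinearMap.range_eq_top]
      exact LinearMap.surjective (hf j)
    rw [h3, finrank_top] at h2
    simp at h2
    omega
  have hfx : ∀ j, f j x₀ ≠ 0 := by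
    intro j h0
    have hmem : x₀ ∈ Submodule.span ℂ {P} ⊔ L j := by
      rw [hker j]
      exact h0
    obtain ⟨a, ha, y, hy, hay⟩ := Submodule.mem_sup.1 hmem
    obtain ⟨c, rfl⟩ := Submodule.mem_span_singleton.1 ha
    apply hx₀
    rw [← hay, add_comm, hcone]
    exact hall j y hy
  have hg : ∀ p ∈ (Finset.univ : Finset (Fin r × Fin r)).filter (fun p => p.1 ≠ p.2),
      (f p.1 x₀ • f p.2 - f p.2 x₀ • f p.1 : V4 →ₗ[ℂ] ℂ) ≠ 0 := by
    rintro ⟨a, b⟩ hp h0
    have hab : a ≠ b := (Finset.mem_filter.1 hp).2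
    apply hf b
    have hle : L a ⊔ L b ≤ LinearMap.ker (f b) := by
      refine sup_le (fun y hy => ?_) (fun y hy => hfL b y hy)
      have h1 := LinearMap.congr_fun h0 y
      simp only [LinearMap.sub_apply, LinearMap.smul_apply, smul_eq_mul, LinearMap.zero_apply,
        hfL a y hy, mul_zero, sub_zero] at h1
      exact (mul_eq_zero.1 h1).resolve_left (hfx a)
    rw [(hC.isCompl hab).sup_eq_top, top_le_iff, LinearMap.ker_eq_top] at hle
    exact hle
  obtain ⟨Ψ, hΨ, hΨe⟩ := Gen_prod _ (fun p : Fin r × Fin r => f p.1 x₀ • f p.2 - f p.2 x₀ • f p.1)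
    hg
  obtain ⟨d, hd⟩ := Gen_exists hΨ
  rw [hΨe, Finset.prod_ne_zero_iff] at hd
  have hdet : ∀ a b : Fin r, a ≠ b → f a x₀ * f b d - f b x₀ * f a d ≠ 0 := by
    intro a b hab
    have h := hd (a, b) (Finset.mem_filter.2 ⟨Finset.mem_univ _, hab⟩)
    simpa using h
  have hxd : LinearIndependent ℂ ![x₀, d] := by
    rw [LinearIndependent.pair_iff]
    intro s t hst
    have h1 := hdet ⟨0, by omega⟩ ⟨1, by omega⟩ (by simp)
    have e : ∀ a, s * f a x₀ + t * f a d = 0 := fun a => by
      have := congrArg (f a) hst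
      simpa using this
    have e0 := e ⟨0, by omega⟩
    have e1 := e ⟨1, by omega⟩
    constructor
    · refine (mul_eq_zero.1 (?_ : s * _ = 0)).resolve_right h1
      linear_combination (f ⟨1, by omega⟩ d) * e0 - (f ⟨0, by omega⟩ d) * e1
    · refine (mul_eq_zero.1 (?_ : t * _ = 0)).resolve_right h1
      linear_combination (f ⟨0, by omega⟩ x₀) * e1 - (f ⟨1, by omega⟩ x₀) * e0
  apply hx₀
  refine form_zero_on_line (L := Submodule.span ℂ {x₀, d}) ?_ (Finset.univ : Finset (Fin r))
    (fun j => f j d • x₀ - f j x₀ • d) ?_ ?_ (t := m) ?_ hF ?_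
    (Submodule.subset_span (Set.mem_insert _ _))
  · have h := finrank_span_eq_card hxd
    rw [Matrix.range_cons, Matrix.range_cons, Matrix.range_empty, Set.union_empty,
      Fintype.card_fin] at h
    exact h
  · intro j _
    exact Submodule.sub_mem _
      (Submodule.smul_mem _ _ (Submodule.subset_span (Set.mem_insert _ _)))
      (Submodule.smul_mem _ _ (Submodule.subset_span (Set.mem_insert_of_mem _ rfl)))
  · intro a _ b _ hab
    rw [LinearIndependent.pair_iff]
    intro s t hst
    have h2 : (s * f a d + t * f b d) • x₀ + (-(s * f a x₀ + t * f b x₀)) • d = 0 := by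
      rw [← hst]
      module
    obtain ⟨h3, h4⟩ := (LinearIndependent.pair_iff.1 hxd) _ _ h2
    have h1 := hdet a b hab
    constructor
    · refine (mul_eq_zero.1 (?_ : s * _ = 0)).resolve_right h1
      linear_combination (-f b d) * h4 - (f b x₀) * h3
    · refine (mul_eq_zero.1 (?_ : t * _ = 0)).resolve_right h1
      linear_combination (f a x₀) * h3 + (f a d) * h4
  · simpa using hr
  · intro j _
    have hmem : f j d • x₀ - f j x₀ • d ∈ LinearMap.ker (f j) := by
      rw [LinearMap.mem_ker, map_sub, map_smul, map_smul, smul_eq_mul, smul_eq_mul, mul_comm,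
        sub_self]
    rw [← hker j] at hmem
    obtain ⟨a, ha, y, hy, hay⟩ := Submodule.mem_sup.1 hmem
    obtain ⟨c, rfl⟩ := Submodule.mem_span_singleton.1 ha
    rw [← hay, add_comm, hcone]
    exact hall j y hy

end Pool.Agent.MPf00b8a
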