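import Pool.Agent.Lib.MP_f00b8a_ag.FiltA

/-!
# Membership in `I(Z) + (l)`
-/

set_option autoImplicit false

namespace Pool.Agent.MPf00b8a

open MvPolynomial

variable {ι : Type}

/-- Homogeneous components of a multiple of a form. -/
private theorem comp_mul {x : MvPolynomial (Fin 4) ℂ} {d : ℕ} (hx : x.IsHomogeneous d)
    (p : MvPolynomial (Fin 4) ℂ) (n : ℕ) :
    homogeneousComponent n (p * x) = ∑ i ∈ Finset.range (p.totalDegree + 1),
      if n = i + d then homogeneousComponent i p * x else 0 := by
  have h1 : p * x = ∑ i ∈ Finset.range (p.totalDegree + 1), homogeneousComponent i p * x := by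
    rw [← Finset.sum_mul, sum_homogeneousComponent]
  conv_lhs => rw [h1]
  rw [map_sum]
  refine Finset.sum_congr rfl fun i _ => ?_
  exact homogeneousComponent_of_mem ((homogeneousComponent_isHomogeneous i p).mul hx)

/-- An ideal spanned by forms contains the homogeneous components of its elements. -/
private theorem comp_span (S : Set (MvPolynomial (Fin 4) ℂ))
    (hS : ∀ x ∈ S, ∃ d, x.IsHomogeneous d) {q : MvPolynomial (Fin 4) ℂ}
    (hq : q ∈ Ideal.span S) (t : ℕ) : homogeneousComponent t q ∈ Ideal.span S := by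
  have key : ∀ p : MvPolynomial (Fin 4) ℂ, ∀ n : ℕ,
      homogeneousComponent n (p * q) ∈ Ideal.span S := by
    refine Submodule.span_induction (p := fun y _ => ∀ p : MvPolynomial (Fin 4) ℂ, ∀ n : ℕ,
      homogeneousComponent n (p * y) ∈ Ideal.span S) ?_ ?_ ?_ ?_ hq
    · intro x hx p n
      obtain ⟨d, hd⟩ := hS x hx
      rw [comp_mul hd]
      refine Ideal.sum_mem _ fun i _ => ?_
      split_ifs
      · exact Ideal.mul_mem_left _ _ (Ideal.subset_span hx)
      · exact Ideal.zero_mem _
    · intro p n
      rw [mul_zero, map_zero]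
      exact Ideal.zero_mem _
    · intro x y _ _ hx hy p n
      rw [mul_add, map_add]
      exact Ideal.add_mem _ (hx p n) (hy p n)
    · intro a x _ hx p n
      rw [smul_eq_mul, ← mul_assoc]
      exact hx (p * a) n
  have h1 := key 1 t
  rwa [one_mul] at h1

private theorem comp_vanIdeal {v : ι → V4} {g : MvPolynomial (Fin 4) ℂ} (hg : g ∈ vanIdeal v)
    (t : ℕ) : homogeneousComponent t g ∈ vanIdeal v :=
  comp_span _ (fun _ hx => hx.1) hg t

/-- The ideal `I(Z) + (l)` is homogeneous. -/
theorem component_mem {v : ι → V4} {l : MvPolynomial (Fin 4) ℂ} (h : Norm v l)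
    {q : MvPolynomial (Fin 4) ℂ} (hq : q ∈ vanIdeal v ⊔ Ideal.span {l}) (t : ℕ) :
    homogeneousComponent t q ∈ vanIdeal v ⊔ Ideal.span {l} := by
  unfold vanIdeal at hq ⊢
  rw [← Ideal.span_union] at hq ⊢
  refine comp_span _ (fun x hx => ?_) hq t
  rcases hx with hx | hx
  · exact hx.1
  · rw [Set.mem_singleton_iff.1 hx]
    exact ⟨1, h.hom⟩

/-- The elements of `I(Z)` vanish at the vectors. -/
private theorem eval_vanIdeal {v : ι → V4} {g : MvPolynomial (Fin 4) ℂ} (hg : g ∈ vanIdeal v)
    (i : ι) : eval (v i) g = 0 := by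
  have h1 : vanIdeal v ≤ RingHom.ker (eval (v i)) := by
    refine Ideal.span_le.2 fun x hx => ?_
    exact (RingHom.mem_ker).2 (hx.2 i)
  exact (RingHom.mem_ker).1 (h1 hg)

/-- (If `q = g + l * h` take the components of degree `t` of `g` and of degree `t - 1` of `h`.
Conversely if `q` and `h` of degree `t - 1` have the same values then `q - l * h` vanishes at all
vectors.) -/
theorem mem_ideal_iff {v : ι → V4} {l : MvPolynomial (Fin 4) ℂ} (h : Norm v l) {t : ℕ}
    {q : MvPolynomial (Fin 4) ℂ} (hq : q.IsHomogeneous t) :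
    q ∈ vanIdeal v ⊔ Ideal.span {l} ↔ evalMap v q ∈ filt v t := by
  constructor
  · intro hm
    obtain ⟨g, hg, x, hx, hgx⟩ := Submodule.mem_sup.1 hm
    obtain ⟨p, rfl⟩ := Ideal.mem_span_singleton'.1 hx
    have hgt : homogeneousComponent t g ∈ vanIdeal v := comp_vanIdeal hg t
    have hqt : q = homogeneousComponent t g + homogeneousComponent t (p * l) := by
      rw [← map_add, hgx, homogeneousComponent_eq_self hq]
    rw [comp_mul h.hom] at hqt
    cases t with
    | zero =>
      have h0 : (∑ i ∈ Finset.range (p.totalDegree + 1),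
          if 0 = i + 1 then homogeneousComponent i p * l else 0) = 0 :=
        Finset.sum_eq_zero fun i _ => if_neg (by omega)
      rw [h0, add_zero] at hqt
      rw [filt_zero, Submodule.mem_bot]
      funext i
      rw [evalMap_apply, hqt, eval_vanIdeal hgt i, Pi.zero_apply]
    | succ s =>
      refine (mem_filt_succ v s _).2 ⟨∑ i ∈ Finset.range (p.totalDegree + 1),
        if s + 1 = i + 1 then homogeneousComponent i p else 0, ?_, fun i => ?_⟩
      · refine IsHomogeneous.sum _ _ _ fun i _ => ?_
        split_ifs with hi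
        · have h2 : i = s := by omega
          rw [h2]
          exact homogeneousComponent_isHomogeneous s p
        · exact isHomogeneous_zero _ _ _
      · rw [evalMap_apply, hqt, map_add, eval_vanIdeal hgt i, zero_add, map_sum, map_sum]
        refine Finset.sum_congr rfl fun j _ => ?_
        split_ifs
        · rw [map_mul, h.one i, mul_one]
        · rfl
  · intro hm
    cases t with
    | zero =>
      rw [filt_zero, Submodule.mem_bot] at hm
      refine Submodule.mem_sup_left (Ideal.subset_span ⟨⟨0, hq⟩, fun i => ?_⟩)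
      rw [← evalMap_apply, hm, Pi.zero_apply]
    | succ s =>
      obtain ⟨r, hr, hrq⟩ := (mem_filt_succ v s _).1 hm
      have h1 : q - r * l ∈ vanIdeal v := by
        refine Ideal.subset_span ⟨⟨s + 1, hq.sub (hr.mul h.hom)⟩, fun i => ?_⟩
        rw [map_sub, map_mul, h.one i, mul_one, hrq i, evalMap_apply, sub_self]
      have h2 : q = (q - r * l) + r * l := by ring
      rw [h2]
      exact Submodule.add_mem_sup h1 (Ideal.mem_span_singleton'.2 ⟨r, rfl⟩)

end Pool.Agent.MPf00b8a
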