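import Pool.Agent.Lib.MP_f00b8a_ag.Carnot

/-!
# Property (T)
-/

set_option autoImplicit false

namespace Pool.Agent.MPf00b8a

open MvPolynomial

variable {r m : ℕ} {L : Fin r → Submodule ℂ V4} {z : Fin r × Fin m → V4}

/-- The span of a vector and a line has dimension at most three. -/
private theorem finrank_plane_le (hC : Conf r m L z) (v : V4) (j : Fin r) :
    Module.finrank ℂ (Submodule.span ℂ {v} ⊔ L j : Submodule ℂ V4) ≤ 3 := by
  have h1 := Submodule.finrank_add_le_finrank_add_finrank (Submodule.span ℂ {v}) (L j)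
  have h2 : Module.finrank ℂ (Submodule.span ℂ {v} : Submodule ℂ V4) ≤ 1 := by
    have := finrank_span_le_card (R := ℂ) ({v} : Set V4)
    simpa using this
  have h3 := hC.two j
  omega

/-- A plane does not contain two skew lines. -/
private theorem not_two_lines (hC : Conf r m L z) {i j : Fin r} (hij : i ≠ j) {W : Submodule ℂ V4}
    (hW : Module.finrank ℂ W ≤ 3) (hi : L i ≤ W) (hj : L j ≤ W) : False := by
  have h1 := Submodule.finrank_sup_add_finrank_inf_eq (L i) (L j)
  have h2 : L i ⊓ L j = ⊥ := (hC.skew i j hij).eq_bot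
  rw [h2, finrank_bot, hC.two i, hC.two j] at h1
  have h3 : Module.finrank ℂ (L i ⊔ L j : Submodule ℂ V4) ≤ Module.finrank ℂ W :=
    Submodule.finrank_mono (sup_le hi hj)
  omega

/-- (The plane spanned by `z (i, a)` and `L j` is contained in a finite union of planes, so in one
of them; it does not contain `L i` nor `L k`.) -/
theorem propT_of_genCone (hC : Conf r m L z) (hg : GenCone m z) (hr : m < r) : PropT L z := by
  intro i j k hij hjk hik a
  set Q : Submodule ℂ V4 := Submodule.span ℂ {z (i, a)} ⊔ L j with hQ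
  let D : Fin m ⊕ (Fin m ⊕ Fin m) → Submodule ℂ V4 :=
    Sum.elim (fun b => Submodule.span ℂ {z (j, b)} ⊔ L i)
      (Sum.elim (fun b => Submodule.span ℂ {z (k, b)} ⊔ L j)
        (fun b => Submodule.span ℂ {z (i, b)} ⊔ L k))
  have hcov : ⋃ x, ((D x).comap Q.subtype : Set Q) = Set.univ := by
    rw [Set.eq_univ_iff_forall]
    intro P
    rw [Set.mem_iUnion]
    rcases carnot hC hg hr hij hjk hik (P := (P : V4)) (a := a) P.2 with ⟨b, hb⟩ | ⟨b, hb⟩ | ⟨b, hb⟩
    · exact ⟨Sum.inl b, hb⟩
    · exact ⟨Sum.inr (Sum.inl b), hb⟩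
    · exact ⟨Sum.inr (Sum.inr b), hb⟩
  obtain ⟨x, hx⟩ := Subspace.exists_eq_top_of_iUnion_eq_univ hcov
  have hle : Q ≤ D x := by
    intro y hy
    have : (⟨y, hy⟩ : Q) ∈ (D x).comap Q.subtype := by
      rw [hx]
      exact Submodule.mem_top
    exact this
  have hj : L j ≤ Q := le_sup_right
  rcases x with b | b | b
  · exact (not_two_lines hC hij (finrank_plane_le hC _ _) (le_sup_right : L i ≤ D (Sum.inl b))
      (hj.trans hle)).elim
  · refine ⟨b, ?_⟩
    have hz : z (i, a) ∉ L j := by
      intro hmem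
      have h1 : z (i, a) ∈ L i := hC.mem (i, a)
      have h2 : z (i, a) = 0 := by
        have := (Submodule.disjoint_def.mp (hC.skew i j hij)) _ h1 hmem
        exact this
      have h3 := (hC.indep (i, a) (j, a) (fun h => hij (congrArg Prod.fst h))).ne_zero 0
      exact h3 (by simpa using h2)
    have hlt : L j < Q := by
      refine lt_of_le_of_ne hj ?_
      intro he
      apply hz
      rw [he]
      exact (le_sup_left : Submodule.span ℂ {z (i, a)} ≤ Q) (Submodule.mem_span_singleton_self _)
    have h4 : Module.finrank ℂ (L j) < Module.finrank ℂ Q := Submodule.finrank_lt_finrank_of_lt hlt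
    have h5 := hC.two j
    have h6 : Module.finrank ℂ (D (Sum.inr (Sum.inl b))) ≤ 3 := finrank_plane_le hC _ _
    have h7 : Q = D (Sum.inr (Sum.inl b)) :=
      Submodule.eq_of_le_of_finrank_le hle (by omega)
    rw [h7]
    exact (le_sup_left : Submodule.span ℂ {z (k, b)} ≤ D (Sum.inr (Sum.inl b)))
      (Submodule.mem_span_singleton_self _)
  · exact (not_two_lines hC hjk.symm (finrank_plane_le hC _ _)
      (le_sup_right : L k ≤ D (Sum.inr (Sum.inr b))) (hj.trans hle)).elim

end Pool.Agent.MPf00b8a
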