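import Pool.Agent.Lib.MP_f00b8a_ag.Star
import Pool.Agent.Lib.MP_f00b8a_ag.DirC

/-!
# At most `2 m - 2` lines, or a common transversal
-/

set_option autoImplicit false

namespace Pool.Agent.MPf00b8a

open MvPolynomial

theorem star_or {r m : ℕ} {L : Fin r → Submodule ℂ V4} {z : Fin r × Fin m → V4}
    (hC : Conf r m L z) (hT : PropT L z) (hr : 3 ≤ r) (hm : 1 ≤ m) :
    r + 2 ≤ 2 * m ∨ ∃ T : Submodule ℂ V4, Module.finrank ℂ T = 2 ∧ ∀ i, ∃ b, z (i, b) ∈ T := by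
  classical
  have h0 : 0 < r := by omega
  have hm0 : 0 < m := hm
  obtain ⟨mm, cc, S, hS, h1, h2⟩ := star_data hC hT hr ⟨0, h0⟩ ⟨0, hm0⟩
  by_cases hc : ∃ ξ η : ℂ, ∀ i, i ≠ ⟨0, h0⟩ → mm i * ξ + cc i = η
  · exact Or.inr (h2 hc)
  · left
    have hd := directions (κ := {i : Fin r // i ≠ ⟨0, h0⟩}) (fun i => mm i) (fun i => cc i)
      (fun i j hij => (h1 i j i.2 j.2 (fun h => hij (Subtype.ext h))).1) S
      (fun i j hij => (h1 i j i.2 j.2 (fun h => hij (Subtype.ext h))).2)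
      (fun ⟨ξ, η, h⟩ => hc ⟨ξ, η, fun i hi => h ⟨i, hi⟩⟩)
    have hcard : Fintype.card {i : Fin r // i ≠ ⟨0, h0⟩} + 1 = r := by
      have := Fintype.card_subtype_compl (fun i : Fin r => i = ⟨0, h0⟩)
      simp only [Fintype.card_fin, Fintype.card_subtype_eq] at this
      have h3 : Fintype.card {i : Fin r // i ≠ ⟨0, h0⟩} = r - 1 := by
        convert this using 1
      omega
    omega

end Pool.Agent.MPf00b8a
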