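import Pool.Agent.Lib.MP_f00b8a_ag.Chain
import Pool.Agent.Lib.MP_f00b8a_ag.StarB
import Pool.Agent.Lib.MP_f00b8a_ag.Persp
import Pool.Agent.Lib.MP_f00b8a_ag.Cone
import Pool.Agent.Lib.MP_f00b8a_ag.DualOf

/-!
# No grid and no half grid is arithmetically Gorenstein
-/

set_option autoImplicit false

namespace Pool.Agent.MPf00b8a

open MvPolynomial

/-- The main theorem for families of vectors. -/
theorem no_dual {r m : ℕ} {L : Fin r → Submodule ℂ V4} {z : Fin r × Fin m → V4}
    (hC : Conf r m L z) (hr : 2 ≤ r) (hm : 2 ≤ m) (hg : r ≤ m ∨ GenCone m z)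
    {l : MvPolynomial (Fin 4) ℂ} (h : Norm z l) {σ : ℕ} {w : Fin r × Fin m → ℂ}
    (hD : Dual z σ w) : False := by
  classical
  have h1 : m < σ := hC.lt_sigma hr (by omega) h hD
  have h2 : σ ≤ max m r := hC.sigma_le hr (by omega) h hD
  have hmr : m < r := by
    rcases le_total r m with h3 | h3
    · rw [max_eq_left h3] at h2
      omega
    · rw [max_eq_right h3] at h2
      omega
  rw [max_eq_right hmr.le] at h2
  have hgc : GenCone m z := by
    rcases hg with h3 | h3
    · omega
    · exact h3
  have hT : PropT L z := propT_of_genCone hC hgc hmr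
  rcases star_or hC hT (by omega) (by omega) with h3 | ⟨T, hT2, hTb⟩
  · exact chain hC hT (by omega) hmr (by omega) h hD
  · choose b hb using hTb
    have hcard : (Finset.univ.image (fun i : Fin r => ((i, b i) : Fin r × Fin m))).card = r := by
      rw [Finset.card_image_of_injective _ (fun i j hij => (Prod.mk.inj hij).1)]
      simp
    have hi : ∃ p : Fin r × Fin m,
        p ∉ Finset.univ.image (fun i : Fin r => ((i, b i) : Fin r × Fin m)) := by
      by_contra hcon
      push Not at hcon
      have h4 : (Finset.univ : Finset (Fin r × Fin m)).card ≤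
          (Finset.univ.image (fun i : Fin r => ((i, b i) : Fin r × Fin m))).card :=
        Finset.card_le_card (fun p _ => hcon p)
      rw [hcard, Finset.card_univ, Fintype.card_prod, Fintype.card_fin, Fintype.card_fin] at h4
      nlinarith
    obtain ⟨p, hp⟩ := hi
    have h5 := hD.card_lt h (Finset.univ.image (fun i : Fin r => ((i, b i) : Fin r × Fin m)))
      hT2 (fun q hq => by
        obtain ⟨i, _, rfl⟩ := Finset.mem_image.1 hq
        exact hb i) (fun p _ q _ hpq => hC.indep p q hpq) hp
    rw [hcard] at h5
    omega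

end Pool.Agent.MPf00b8a
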