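import Pool.Agent.Lib.MP_f00b8a_ag.FiltA

/-!
# Ranks of subsets
-/

set_option autoImplicit false

namespace Pool.Agent.MPf00b8a

open MvPolynomial

variable {ι : Type}

/-- The weighted bilinear form on functions. -/
private noncomputable def RkA_B {κ : Type} [Fintype κ] (w : κ → ℂ) :
    LinearMap.BilinForm ℂ (κ → ℂ) :=
  LinearMap.mk₂ ℂ (fun g f => ∑ i, w i * f i * g i)
    (fun g g' f => by
      rw [← Finset.sum_add_distrib]
      exact Finset.sum_congr rfl fun i _ => by rw [Pi.add_apply]; ring)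
    (fun c g f => by
      rw [smul_eq_mul, Finset.mul_sum]
      exact Finset.sum_congr rfl fun i _ => by rw [Pi.smul_apply, smul_eq_mul]; ring)
    (fun g f f' => by
      rw [← Finset.sum_add_distrib]
      exact Finset.sum_congr rfl fun i _ => by rw [Pi.add_apply]; ring)
    (fun c g f => by
      rw [smul_eq_mul, Finset.mul_sum]
      exact Finset.sum_congr rfl fun i _ => by rw [Pi.smul_apply, smul_eq_mul]; ring)

private theorem RkA_perp {κ : Type} [Fintype κ] {w : κ → ℂ} (hw : ∀ i, w i ≠ 0)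
    (W P : Submodule ℂ (κ → ℂ)) (h : ∀ f, f ∈ P ↔ ∀ g ∈ W, ∑ i, w i * f i * g i = 0) :
    Module.finrank ℂ P + Module.finrank ℂ W = Fintype.card κ := by
  classical
  have e : P = (RkA_B w).orthogonal W := by
    ext f
    rw [LinearMap.BilinForm.mem_orthogonal_iff, h f]
    exact Iff.rfl
  have k : LinearMap.ker (RkA_B w) = ⊥ := by
    rw [eq_bot_iff]
    intro g hg
    rw [LinearMap.mem_ker] at hg
    rw [Submodule.mem_bot]
    funext i
    have h1 : RkA_B w g (Pi.single i 1) = 0 := by
      rw [hg]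
      rfl
    have h2 : RkA_B w g (Pi.single i 1) = w i * g i := by
      change ∑ j, w j * (Pi.single i 1 : κ → ℂ) j * g j = _
      rw [Finset.sum_eq_single i]
      · rw [Pi.single_eq_same, mul_one]
      · intro j _ hj
        rw [Pi.single_eq_of_ne hj, mul_zero, zero_mul]
      · intro hi
        exact absurd (Finset.mem_univ i) hi
    rw [h2] at h1
    rcases mul_eq_zero.1 h1 with h3 | h3
    · exact absurd h3 (hw i)
    · exact h3
  have h1 := LinearMap.BilinForm.finrank_add_finrank_orthogonal' (B := RkA_B w) W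
  rw [k, inf_bot_eq, finrank_bot, add_zero, Module.finrank_fintype_fun_eq_card] at h1
  rw [e, add_comm]
  exact h1

/-- (Formula (D) of the text: `filt v t ⊓ fsupp Y` is the orthogonal space of
`filt v (σ - t) ⊔ fsupp Yᶜ` for the form `∑ i, w i * f i * g i`.) -/
theorem rk_dual [Fintype ι] {v : ι → V4} {σ : ℕ} {w : ι → ℂ} (hD : Dual v σ w) (Y : Finset ι)
    {t : ℕ} (ht : t ≤ σ) :
    Module.finrank ℂ (filt v t ⊓ fsupp Y : Submodule ℂ (ι → ℂ)) + rk v Y (σ - t) = Y.card := by
  classical
  set R : (ι → ℂ) →ₗ[ℂ] (Y → ℂ) := LinearMap.funLeft ℂ ℂ (Subtype.val : Y → ι) with hR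
  have hRa : ∀ (f : ι → ℂ) (i : Y), R f i = f i := fun f i => rfl
  have hsum : ∀ (f g : ι → ℂ), f ∈ fsupp Y →
      ∑ i : Y, w i * R f i * R g i = ∑ i, w i * f i * g i := by
    intro f g hf
    have h1 : ∑ i, w i * f i * g i = ∑ i ∈ Y, w i * f i * g i := by
      refine (Finset.sum_subset (Finset.subset_univ Y) fun i _ hi => ?_).symm
      rw [hf i hi, mul_zero, zero_mul]
    rw [h1, ← Finset.sum_coe_sort Y fun i => w i * f i * g i]
    exact Finset.sum_congr rfl fun i _ => rfl
  have hinj : Module.finrank ℂ ((filt v t ⊓ fsupp Y : Submodule ℂ (ι → ℂ)).map R) =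
      Module.finrank ℂ (filt v t ⊓ fsupp Y : Submodule ℂ (ι → ℂ)) := by
    rw [← LinearMap.range_domRestrict]
    refine LinearMap.finrank_range_of_inj ?_
    intro a b hab
    apply Subtype.ext
    funext i
    by_cases hi : i ∈ Y
    · have := congrFun hab ⟨i, hi⟩
      exact this
    · rw [a.2.2 i hi, b.2.2 i hi]
  have hmain := RkA_perp (κ := Y) (w := fun i => w i) (fun i => hD.ne i)
    ((filt v (σ - t)).map R) ((filt v t ⊓ fsupp Y : Submodule ℂ (ι → ℂ)).map R) (by
      intro f
      constructor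
      · rintro ⟨f', hf', rfl⟩ g ⟨g', hg', rfl⟩
        rw [hsum f' g' hf'.2]
        have h1 := (hD.perp (σ - t) (Nat.sub_le _ _) f').1 (by
          rw [Nat.sub_sub_self ht]
          exact hf'.1)
        exact h1 g' hg'
      · intro hf
        refine ⟨fun i => if hi : i ∈ Y then f ⟨i, hi⟩ else 0, ⟨?_, ?_⟩, ?_⟩
        · have h1 := (hD.perp (σ - t) (Nat.sub_le _ _)
            (fun i => if hi : i ∈ Y then f ⟨i, hi⟩ else 0)).2 (by
              intro g hg
              rw [← hsum _ g (fun i hi => dif_neg hi), ← hf (R g) ⟨g, hg, rfl⟩]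
              refine Finset.sum_congr rfl fun i _ => ?_
              rw [hRa, dif_pos i.2])
          rwa [Nat.sub_sub_self ht] at h1
        · intro i hi
          exact dif_neg hi
        · funext i
          rw [hRa, dif_pos i.2])
  rw [hinj, Fintype.card_coe] at hmain
  exact hmain

theorem finrank_dual [Fintype ι] {v : ι → V4} {σ : ℕ} {w : ι → ℂ} (hD : Dual v σ w)
    {t : ℕ} (ht : t ≤ σ) :
    Module.finrank ℂ (filt v t) + Module.finrank ℂ (filt v (σ - t)) = Fintype.card ι := by
  rw [add_comm]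
  exact RkA_perp hD.ne _ _ fun f => hD.perp t ht f

end Pool.Agent.MPf00b8a
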