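import Pool.Agent.Lib.MP_f00b8a_ag.RkA

/-!
# Growth and plane sections
-/

set_option autoImplicit false

namespace Pool.Agent.MPf00b8a

open MvPolynomial

variable {ι : Type}

private theorem rkb_rank [Fintype ι] {κ : Type} [Fintype κ] (S : Submodule ℂ (ι → ℂ))
    (f : (ι → ℂ) →ₗ[ℂ] (κ → ℂ)) :
    Module.finrank ℂ (S.map f) + Module.finrank ℂ (S ⊓ LinearMap.ker f : Submodule ℂ (ι → ℂ)) =
      Module.finrank ℂ S := by
  have h := LinearMap.finrank_range_add_finrank_ker (f.domRestrict S)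
  rw [LinearMap.range_domRestrict, LinearMap.ker_domRestrict] at h
  rw [← Submodule.map_comap_subtype, Submodule.finrank_map_subtype_eq]
  exact h

private noncomputable def rkbMul (v : ι → V4) (lam : V4 →ₗ[ℂ] ℂ) : (ι → ℂ) →ₗ[ℂ] (ι → ℂ) :=
  LinearMap.pi fun i => lam (v i) • LinearMap.proj i

private theorem rkbMul_apply (v : ι → V4) (lam : V4 →ₗ[ℂ] ℂ) (f : ι → ℂ) (i : ι) :
    rkbMul v lam f i = lam (v i) * f i := rfl

private theorem rkb_form (lam : V4 →ₗ[ℂ] ℂ) : ∃ l : MvPolynomial (Fin 4) ℂ,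
    l.IsHomogeneous 1 ∧ ∀ x : V4, eval x l = lam x := by
  refine ⟨∑ j, C (lam (Pi.single j 1)) * X j, ?_, fun x => ?_⟩
  · refine IsHomogeneous.sum _ _ _ fun j _ => ?_
    have h := (isHomogeneous_C (Fin 4) (lam (Pi.single j 1))).mul (isHomogeneous_X ℂ j)
    rwa [zero_add] at h
  · rw [map_sum]
    have h : x = ∑ j, x j • (Pi.single j (1 : ℂ) : V4) := by
      funext k
      rw [Finset.sum_apply]
      simp [Pi.single_apply]
    conv_rhs => rw [h, map_sum]
    refine Finset.sum_congr rfl fun j _ => ?_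
    rw [map_mul, eval_C, eval_X, map_smul, smul_eq_mul, mul_comm]

private theorem rkb_mul_le (v : ι → V4) (lam : V4 →ₗ[ℂ] ℂ) (t : ℕ) :
    (filt v t).map (rkbMul v lam) ≤ filt v (t + 1) := by
  cases t with
  | zero =>
    rw [filt_zero, Submodule.map_bot]
    exact bot_le
  | succ t =>
    rintro _ ⟨f, hf, rfl⟩
    rw [SetLike.mem_coe, mem_filt_succ] at hf
    obtain ⟨q, hq, hqf⟩ := hf
    obtain ⟨l, hl, hlx⟩ := rkb_form lam
    rw [mem_filt_succ]
    refine ⟨q * l, hq.mul hl, fun i => ?_⟩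
    rw [map_mul, hqf, hlx, rkbMul_apply, mul_comm]

/-- ((8b) of the text: the kernel of the restriction of `filt v (t + 1)` to `Y` contains
`lam * filt v t`, and the kernel of the multiplication by `lam` on `filt v t` is
`filt v t ⊓ fsupp Y`.) -/
theorem growth_section [Fintype ι] {v : ι → V4} {σ : ℕ} {w : ι → ℂ} (hD : Dual v σ w)
    (Y : Finset ι) (lam : V4 →ₗ[ℂ] ℂ) (hY : ∀ i, i ∈ Y ↔ lam (v i) = 0) {t : ℕ}
    (ht : t + 1 ≤ σ) :
    Module.finrank ℂ (filt v t) + rk v Y (t + 1) + rk v Y (σ - t) ≤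
      Module.finrank ℂ (filt v (t + 1)) + Y.card := by
  have h1 := rkb_rank (filt v (t + 1)) (LinearMap.funLeft ℂ ℂ (Subtype.val : Y → ι))
  have h2 := rkb_rank (filt v t) (rkbMul v lam)
  have h3 : (filt v t ⊓ LinearMap.ker (rkbMul v lam) : Submodule ℂ (ι → ℂ)) =
      filt v t ⊓ fsupp Y := by
    congr 1
    ext f
    rw [LinearMap.mem_ker]
    constructor
    · intro h i hi
      have h4 := congrFun h i
      rw [rkbMul_apply] at h4
      exact (mul_eq_zero.mp h4).resolve_left fun h5 => hi ((hY i).mpr h5)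
    · intro h
      funext i
      rw [rkbMul_apply]
      by_cases hi : i ∈ Y
      · rw [(hY i).mp hi, zero_mul]
        rfl
      · rw [h i hi, mul_zero]
        rfl
  rw [h3] at h2
  have h4 := rk_dual hD Y (t := t) (by omega)
  have h5 : Module.finrank ℂ ((filt v t).map (rkbMul v lam)) ≤
      Module.finrank ℂ (filt v (t + 1) ⊓
        LinearMap.ker (LinearMap.funLeft ℂ ℂ (Subtype.val : Y → ι)) : Submodule ℂ (ι → ℂ)) := by
    refine Submodule.finrank_mono (le_inf (rkb_mul_le v lam t) ?_)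
    rintro _ ⟨f, -, rfl⟩
    rw [LinearMap.mem_ker]
    funext y
    rw [LinearMap.funLeft_apply, rkbMul_apply, (hY _).mp y.2, zero_mul]
    rfl
  unfold rk at *
  omega

end Pool.Agent.MPf00b8a
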