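import Pool.Agent.Lib.MP_f00b8a_ag.Ideal

/-!
# The socle
-/

set_option autoImplicit false

namespace Pool.Agent.MPf00b8a

open MvPolynomial

variable {ι : Type}

private theorem mk_mem_socle {v : ι → V4} {l : MvPolynomial (Fin 4) ℂ} (h : Norm v l) {t : ℕ}
    {q : MvPolynomial (Fin 4) ℂ} (hq : q.IsHomogeneous t)
    (hx : ∀ i, evalMap v (X i * q) ∈ filt v (t + 1)) :
    Ideal.Quotient.mk (vanIdeal v ⊔ Ideal.span {l}) q ∈ socle (vanIdeal v ⊔ Ideal.span {l}) := by
  intro i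
  rw [← map_mul, Ideal.Quotient.eq_zero_iff_mem]
  have h1 : (X i * q : MvPolynomial (Fin 4) ℂ).IsHomogeneous (t + 1) := by
    have := (isHomogeneous_X ℂ i).mul hq
    rwa [add_comm] at this
  exact (mem_ideal_iff h h1).2 (hx i)

private theorem exists_form {v : ι → V4} {s : ℕ} (h1 : filt v (s + 1) = ⊤) (f : ι → ℂ) :
    ∃ q : MvPolynomial (Fin 4) ℂ, q.IsHomogeneous s ∧ evalMap v q = f := by
  have hf : f ∈ filt v (s + 1) := by rw [h1]; exact Submodule.mem_top
  obtain ⟨q, hq, hqf⟩ := (mem_filt_succ v s f).1 hf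
  exact ⟨q, hq, funext fun i => by rw [evalMap_apply, hqf i]⟩

private theorem form_mem_socle {v : ι → V4} {l : MvPolynomial (Fin 4) ℂ} (h : Norm v l) {s : ℕ}
    (h1 : filt v (s + 1) = ⊤) {q : MvPolynomial (Fin 4) ℂ} (hq : q.IsHomogeneous s) :
    Ideal.Quotient.mk (vanIdeal v ⊔ Ideal.span {l}) q ∈ socle (vanIdeal v ⊔ Ideal.span {l}) :=
  mk_mem_socle h hq fun i => by rw [h1]; exact Submodule.mem_top

/-- Two elements of a socle of dimension one are proportional. -/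
private theorem prop_of_socle {J : Ideal (MvPolynomial (Fin 4) ℂ)}
    (hs : Module.finrank ℂ (socle J) = 1) {p q : MvPolynomial (Fin 4) ℂ}
    (hp : Ideal.Quotient.mk J p ∈ socle J) (hq : Ideal.Quotient.mk J q ∈ socle J)
    (hp0 : p ∉ J) : ∃ c : ℂ, q - c • p ∈ J := by
  have hne : (⟨Ideal.Quotient.mk J p, hp⟩ : socle J) ≠ 0 := by
    intro hz
    apply hp0
    rw [← Ideal.Quotient.eq_zero_iff_mem]
    exact congrArg Subtype.val hz
  obtain ⟨c, hc⟩ := (finrank_eq_one_iff_of_nonzero' _ hne).1 hs ⟨Ideal.Quotient.mk J q, hq⟩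
  refine ⟨c, ?_⟩
  have hc' : c • Ideal.Quotient.mk J p = Ideal.Quotient.mk J q := congrArg Subtype.val hc
  rw [← Ideal.Quotient.eq_zero_iff_mem, map_sub, ← hc', sub_eq_zero]
  rfl

/-- (The classes of the forms of degree `s` are in the socle, and not all are zero.) -/
theorem socle_top [Fintype ι] {v : ι → V4} {l : MvPolynomial (Fin 4) ℂ} (h : Norm v l)
    (hs : Module.finrank ℂ (socle (vanIdeal v ⊔ Ideal.span {l})) = 1) {s : ℕ}
    (h1 : filt v (s + 1) = ⊤) (h2 : filt v s ≠ ⊤) :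
    ∃ φ : (ι → ℂ) →ₗ[ℂ] ℂ, LinearMap.ker φ = filt v s := by
  obtain ⟨f₀, hf₀⟩ : ∃ f₀ : ι → ℂ, f₀ ∉ filt v s := by
    by_contra hcon
    push Not at hcon
    exact h2 (Submodule.eq_top_iff'.2 hcon)
  obtain ⟨q₀, hq₀, hq₀f⟩ := exists_form h1 f₀
  have hq₀J : q₀ ∉ vanIdeal v ⊔ Ideal.span {l} := by
    intro hmem
    apply hf₀
    rw [← hq₀f]
    exact (mem_ideal_iff h hq₀).1 hmem
  have hne : (Submodule.mkQ (filt v s)) f₀ ≠ 0 := by
    intro hz
    exact hf₀ ((Submodule.Quotient.mk_eq_zero _).1 hz)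
  have hfin : Module.finrank ℂ ((ι → ℂ) ⧸ filt v s) = 1 := by
    rw [finrank_eq_one_iff_of_nonzero' _ hne]
    intro w
    obtain ⟨f, rfl⟩ := Submodule.mkQ_surjective (filt v s) w
    obtain ⟨q, hq, hqf⟩ := exists_form h1 f
    obtain ⟨c, hc⟩ := prop_of_socle hs (form_mem_socle h h1 hq₀) (form_mem_socle h h1 hq) hq₀J
    refine ⟨c, ?_⟩
    have hhom : (q - c • q₀).IsHomogeneous s := by
      have h3 : (c • q₀).IsHomogeneous s := by
        have := (homogeneousSubmodule (Fin 4) ℂ s).smul_mem c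
          ((mem_homogeneousSubmodule s q₀).2 hq₀)
        exact (mem_homogeneousSubmodule s _).1 this
      exact hq.sub h3
    have hmem := (mem_ideal_iff h hhom).1 hc
    rw [map_sub, map_smul, hqf, hq₀f] at hmem
    rw [← map_smul]
    have h4 : (Submodule.mkQ (filt v s)) (f - c • f₀) = 0 :=
      (Submodule.Quotient.mk_eq_zero _).2 hmem
    rw [map_sub, sub_eq_zero] at h4
    exact h4.symm
  let e : ((ι → ℂ) ⧸ filt v s) ≃ₗ[ℂ] ℂ :=
    LinearEquiv.ofFinrankEq _ _ (by rw [hfin, Module.finrank_self])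
  refine ⟨e.toLinearMap ∘ₗ Submodule.mkQ (filt v s), ?_⟩
  rw [LinearEquiv.ker_comp, Submodule.ker_mkQ]

/-- (Otherwise the class of `q` is in the socle, so it is a multiple of the class of a form of
degree `s`, which contradicts `component_mem`.) -/
theorem socle_step [Fintype ι] {v : ι → V4} {l : MvPolynomial (Fin 4) ℂ} (h : Norm v l)
    (hs : Module.finrank ℂ (socle (vanIdeal v ⊔ Ideal.span {l})) = 1) {s : ℕ}
    (h1 : filt v (s + 1) = ⊤) (h2 : filt v s ≠ ⊤) {t : ℕ} (hts : t < s)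
    {q : MvPolynomial (Fin 4) ℂ} (hq : q.IsHomogeneous t) (hne : evalMap v q ∉ filt v t) :
    ∃ i, evalMap v (X i * q) ∉ filt v (t + 1) := by
  by_contra hcon
  push Not at hcon
  obtain ⟨f₀, hf₀⟩ : ∃ f₀ : ι → ℂ, f₀ ∉ filt v s := by
    by_contra hcon'
    push Not at hcon'
    exact h2 (Submodule.eq_top_iff'.2 hcon')
  obtain ⟨q₀, hq₀, hq₀f⟩ := exists_form h1 f₀
  have hqJ : q ∉ vanIdeal v ⊔ Ideal.span {l} := fun hmem => hne ((mem_ideal_iff h hq).1 hmem)
  obtain ⟨c, hc⟩ := prop_of_socle hs (mk_mem_socle h hq hcon) (form_mem_socle h h1 hq₀) hqJ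
  have hcomp := component_mem h hc s
  rw [map_sub, map_smul, homogeneousComponent_of_mem ((mem_homogeneousSubmodule s q₀).2 hq₀),
    homogeneousComponent_of_mem ((mem_homogeneousSubmodule t q).2 hq), if_pos rfl,
    if_neg hts.ne', smul_zero, sub_zero] at hcomp
  apply hf₀
  rw [← hq₀f]
  exact (mem_ideal_iff h hq₀).1 hcomp

end Pool.Agent.MPf00b8a
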