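import Pool.Agent.Lib.MP_f00b8a_ag.Defs

/-!
# The star of a point
-/

set_option autoImplicit false

namespace Pool.Agent.MPf00b8a

open MvPolynomial

private theorem pair2 {L : Submodule ℂ V4} (h2 : Module.finrank ℂ L = 2) {x y : V4}
    (hx : x ∈ L) (hy : y ∈ L) (hi : LinearIndependent ℂ ![x, y]) {v : V4} (hv : v ∈ L) :
    ∃ a b : ℂ, v = a • x + b • y := by
  have h1 : Submodule.span ℂ (Set.range ![x, y]) = L := by
    refine Submodule.eq_of_le_of_finrank_eq ?_ ?_
    · rw [Submodule.span_le]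
      rintro _ ⟨i, rfl⟩
      fin_cases i
      · exact hx
      · exact hy
    · rw [finrank_span_eq_card hi, h2, Fintype.card_fin]
  rw [← h1] at hv
  obtain ⟨c, hc⟩ := (Submodule.mem_span_range_iff_exists_fun ℂ).1 hv
  exact ⟨c 0, c 1, by rw [← hc, Fin.sum_univ_two]; rfl⟩

private theorem sup2 {L L' : Submodule ℂ V4} (h2 : Module.finrank ℂ L = 2)
    (h2' : Module.finrank ℂ L' = 2) (hd : Disjoint L L') (v : V4) :
    ∃ a ∈ L, ∃ b ∈ L', v = a + b := by
  have h1 : L ⊔ L' = ⊤ := by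
    refine Submodule.eq_top_of_finrank_eq ?_
    have h3 := Submodule.finrank_sup_add_finrank_inf_eq L L'
    rw [hd.eq_bot, finrank_bot, h2, h2'] at h3
    rw [Module.finrank_fintype_fun_eq_card, Fintype.card_fin]
    omega
  have h3 : v ∈ L ⊔ L' := by rw [h1]; exact Submodule.mem_top
  rw [Submodule.mem_sup] at h3
  obtain ⟨a, ha, b, hb, hab⟩ := h3
  exact ⟨a, ha, b, hb, hab.symm⟩

private theorem exists_snd {L : Submodule ℂ V4} (h2 : Module.finrank ℂ L = 2) {x : V4}
    (h0 : x ≠ 0) : ∃ e ∈ L, LinearIndependent ℂ ![x, e] := by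
  obtain ⟨e, he, hex⟩ : ∃ e ∈ L, e ∉ Submodule.span ℂ {x} := by
    by_contra hcon
    push Not at hcon
    have h3 : L ≤ Submodule.span ℂ {x} := hcon
    have h4 := Submodule.finrank_mono h3
    rw [h2, finrank_span_singleton h0] at h4
    omega
  refine ⟨e, he, ?_⟩
  rw [LinearIndependent.pair_iff]
  intro s t hst
  have ht : t = 0 := by
    by_contra ht
    apply hex
    rw [Submodule.mem_span_singleton]
    refine ⟨-(t⁻¹ * s), ?_⟩
    have h3 : t • e = -(s • x) := by
      rw [eq_neg_iff_add_eq_zero, add_comm]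
      exact hst
    rw [neg_smul, mul_smul, ← smul_neg, ← h3, smul_smul, inv_mul_cancel₀ ht, one_smul]
  refine ⟨?_, ht⟩
  rw [ht, zero_smul, add_zero] at hst
  exact (smul_eq_zero.1 hst).resolve_right h0

private theorem gam {L L' : Submodule ℂ V4} (h2 : Module.finrank ℂ L = 2)
    (h2' : Module.finrank ℂ L' = 2) (hd : Disjoint L L') {z0 e : V4} (hz : z0 ∈ L)
    (he : e ∈ L) (hi : LinearIndependent ℂ ![z0, e]) :
    ∃ g : V4 →ₗ[ℂ] ℂ, g z0 = 0 ∧ g e = 1 ∧ (∀ v ∈ L', g v = 0) ∧
      ∀ v, g v = 0 → ∃ c : ℂ, ∃ l ∈ L', v = c • z0 + l := by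
  have h1 : e ∉ Submodule.span ℂ {z0} ⊔ L' := by
    intro h
    rw [Submodule.mem_sup] at h
    obtain ⟨u, hu, l, hl, hul⟩ := h
    rw [Submodule.mem_span_singleton] at hu
    obtain ⟨c, rfl⟩ := hu
    have h3 : l ∈ L := by
      have h4 : l = e - c • z0 := by rw [← hul, add_sub_cancel_left]
      rw [h4]
      exact L.sub_mem he (L.smul_mem c hz)
    have h5 := Submodule.disjoint_def.1 hd l h3 hl
    rw [h5, add_zero] at hul
    have h6 := LinearIndependent.pair_iff.1 hi c (-1)
      (by rw [hul, neg_one_smul, add_neg_cancel])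
    exact neg_ne_zero.2 one_ne_zero h6.2
  obtain ⟨f, hf, hf'⟩ := Submodule.exists_dual_map_eq_bot_of_notMem h1 inferInstance
  have hker : ∀ v ∈ Submodule.span ℂ {z0} ⊔ L', f v = 0 := by
    intro v hv
    have h3 : f v ∈ (Submodule.span ℂ {z0} ⊔ L').map f := Submodule.mem_map_of_mem hv
    rw [hf'] at h3
    exact (Submodule.mem_bot ℂ).1 h3
  have hfz : f z0 = 0 :=
    hker z0 (Submodule.mem_sup_left (Submodule.mem_span_singleton_self z0))
  have hfL : ∀ v ∈ L', f v = 0 := fun v hv => hker v (Submodule.mem_sup_right hv)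
  refine ⟨(f e)⁻¹ • f, ?_, ?_, ?_, ?_⟩
  · rw [LinearMap.smul_apply, hfz, smul_zero]
  · rw [LinearMap.smul_apply, smul_eq_mul, inv_mul_cancel₀ hf]
  · intro v hv
    rw [LinearMap.smul_apply, hfL v hv, smul_zero]
  · intro v hv
    obtain ⟨a, ha, b, hb, rfl⟩ := sup2 h2 h2' hd v
    obtain ⟨c, d, rfl⟩ := pair2 h2 hz he hi ha
    rw [LinearMap.smul_apply, smul_eq_mul, mul_eq_zero] at hv
    have h3 := hv.resolve_left (inv_ne_zero hf)
    rw [map_add, map_add, map_smul, map_smul, hfz, hfL b hb, smul_zero, zero_add, add_zero,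
      smul_eq_mul, mul_eq_zero] at h3
    have h4 := h3.resolve_right hf
    exact ⟨c, b, hb, by rw [h4, zero_smul, add_zero]⟩

private theorem exists_good {L : Submodule ℂ V4} (h2 : Module.finrank ℂ L = 2) {m : ℕ}
    {w : Fin m → V4} (hw : ∀ b, w b ∈ L) (h0 : ∀ b, w b ≠ 0) :
    ∃ f1 ∈ L, ∃ f2 ∈ L, LinearIndependent ℂ ![f1, f2] ∧ ∃ x y : Fin m → ℂ,
      ∀ b, x b ≠ 0 ∧ w b = x b • f1 + y b • f2 := by
  obtain ⟨f1, hf1, hf10⟩ : ∃ f1 ∈ L, f1 ≠ 0 := by
    by_contra hcon
    push Not at hcon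
    have h3 : L = ⊥ := (Submodule.eq_bot_iff L).2 hcon
    rw [h3, finrank_bot] at h2
    omega
  obtain ⟨f2, hf2, hf⟩ := exists_snd h2 hf10
  have h3 : ∀ b, ∃ x y : ℂ, w b = x • f1 + y • f2 := fun b => pair2 h2 hf1 hf2 hf (hw b)
  choose x y hxy using h3
  obtain ⟨t, ht⟩ := Infinite.exists_notMem_finset
    (Finset.univ.image fun b : Fin m => -x b / y b)
  refine ⟨f1, hf1, f2 - t • f1, L.sub_mem hf2 (L.smul_mem t hf1), ?_,
    fun b => x b + t * y b, y, fun b => ⟨fun h => ?_, ?_⟩⟩
  · rw [LinearIndependent.pair_iff] at hf ⊢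
    intro a b hab
    have h4 := hf (a - b * t) b (by
      rw [← hab, sub_smul, smul_sub, mul_smul]
      abel)
    refine ⟨?_, h4.2⟩
    have h5 := h4.1
    rw [h4.2, zero_mul, sub_zero] at h5
    exact h5
  · by_cases hy : y b = 0
    · have h' : x b = 0 := by
        have h6 : x b + t * y b = 0 := h
        rw [hy, mul_zero, add_zero] at h6
        exact h6
      apply h0 b
      rw [hxy b, hy, h', zero_smul, zero_smul, add_zero]
    · apply ht
      rw [Finset.mem_image]
      refine ⟨b, Finset.mem_univ b, ?_⟩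
      have h6 : x b + t * y b = 0 := h
      rw [div_eq_iff hy]
      linear_combination -h6
  · rw [hxy b, smul_sub, add_smul, smul_smul, mul_comm t (y b)]
    abel

private theorem exists_third {r : ℕ} (hr : 3 ≤ r) (i j : Fin r) : ∃ k : Fin r, k ≠ i ∧ k ≠ j := by
  by_contra hcon
  push Not at hcon
  have h1 : (Finset.univ : Finset (Fin r)) ⊆ {i, j} := by
    intro k _
    rw [Finset.mem_insert, Finset.mem_singleton]
    by_cases h : k = i
    · exact Or.inl h
    · exact Or.inr (hcon k h)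
  have h2 := (Finset.card_le_card h1).trans Finset.card_le_two
  rw [Finset.card_univ, Fintype.card_fin] at h2
  omega

/-- (Step 7 of the text.) -/
theorem star_data {r m : ℕ} {L : Fin r → Submodule ℂ V4} {z : Fin r × Fin m → V4}
    (hC : Conf r m L z) (hT : PropT L z) (hr : 3 ≤ r) (i₀ : Fin r) (a₀ : Fin m) :
    ∃ (mm cc : Fin r → ℂ) (S : Finset ℂ), S.card ≤ m ∧
      (∀ i j, i ≠ i₀ → j ≠ i₀ → i ≠ j →
        mm i ≠ mm j ∧ ∃ ξ ∈ S, mm i * ξ + cc i = mm j * ξ + cc j) ∧
      ((∃ ξ η : ℂ, ∀ i, i ≠ i₀ → mm i * ξ + cc i = η) →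
        ∃ T : Submodule ℂ V4, Module.finrank ℂ T = 2 ∧ ∀ i, ∃ b, z (i, b) ∈ T) := by
  have hm : 0 < m := lt_of_le_of_lt (Nat.zero_le _) a₀.2
  have hz : ∀ p, z p ≠ 0 := by
    intro p
    obtain ⟨q, hq⟩ : ∃ q : Fin r × Fin m, p ≠ q := by
      by_cases h : p.1 = ⟨0, by omega⟩
      · exact ⟨(⟨1, by omega⟩, p.2), fun h' => by
          rw [h'] at h
          simp at h⟩
      · exact ⟨(⟨0, by omega⟩, p.2), fun h' => h (by rw [h'])⟩
    exact (hC.indep p q hq).ne_zero 0
  obtain ⟨i₁, hi₁⟩ : ∃ i₁ : Fin r, i₁ ≠ i₀ := by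
    by_cases h : i₀ = ⟨0, by omega⟩
    · exact ⟨⟨1, by omega⟩, fun h' => by
        rw [h] at h'
        simp at h'⟩
    · exact ⟨⟨0, by omega⟩, fun h' => h h'.symm⟩
  obtain ⟨e, he, hie⟩ := exists_snd (hC.two i₀) (hz (i₀, a₀))
  have hz0 : z (i₀, a₀) ∈ L i₀ := hC.mem (i₀, a₀)
  obtain ⟨f1, hf1, f2, hf2, hf, x, y, hxy⟩ := exists_good (hC.two i₁)
    (w := fun b => z (i₁, b)) (fun b => hC.mem (i₁, b)) (fun b => hz _)
  have hg : ∀ i, ∃ g : V4 →ₗ[ℂ] ℂ, i ≠ i₀ → g (z (i₀, a₀)) = 0 ∧ g e = 1 ∧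
      (∀ v ∈ L i, g v = 0) ∧ ∀ v, g v = 0 → ∃ c : ℂ, ∃ l ∈ L i, v = c • z (i₀, a₀) + l := by
    intro i
    by_cases h : i = i₀
    · exact ⟨0, fun h' => absurd h h'⟩
    · obtain ⟨g, hg⟩ := gam (hC.two i₀) (hC.two i) (hC.skew i₀ i (Ne.symm h)) hz0 he hie
      exact ⟨g, fun _ => hg⟩
  choose g hg using hg
  have hgz := fun i hi => (hg i hi).1
  have hge := fun i hi => (hg i hi).2.1
  have hgL := fun i hi => (hg i hi).2.2.1
  have hgk := fun i hi => (hg i hi).2.2.2
  -- no linear form vanishes on two lines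
  have hno : ∀ i j, i ≠ j → ∀ φ : V4 →ₗ[ℂ] ℂ, (∀ v ∈ L i, φ v = 0) → (∀ v ∈ L j, φ v = 0) →
      ∀ v, φ v = 0 := by
    intro i j hij φ h1 h2 v
    obtain ⟨a, ha, b, hb, rfl⟩ := sup2 (hC.two i) (hC.two j) (hC.skew i j hij) v
    rw [map_add, h1 a ha, h2 b hb, add_zero]
  -- two forms which agree at the four vectors are equal
  have heq : ∀ φ : V4 →ₗ[ℂ] ℂ, φ (z (i₀, a₀)) = 0 → φ e = 0 → φ f1 = 0 → φ f2 = 0 →
      ∀ v, φ v = 0 := by
    intro φ h1 h2 h3 h4
    refine hno i₀ i₁ (Ne.symm hi₁) φ (fun v hv => ?_) fun v hv => ?_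
    · obtain ⟨a, b, rfl⟩ := pair2 (hC.two i₀) hz0 he hie hv
      rw [map_add, map_smul, map_smul, h1, h2, smul_zero, smul_zero, add_zero]
    · obtain ⟨a, b, rfl⟩ := pair2 (hC.two i₁) hf1 hf2 hf hv
      rw [map_add, map_smul, map_smul, h3, h4, smul_zero, smul_zero, add_zero]
  -- a point of the first line on the plane of two forms
  have hkey : ∀ i j, i ≠ i₀ → j ≠ i₀ → i ≠ j → ∃ b',
      x b' * (g i f1 - g j f1) + y b' * (g i f2 - g j f2) = 0 := by
    intro i j hi hj hij
    obtain ⟨b, hb⟩ := hT i₀ j i (Ne.symm hj) (Ne.symm hij) (Ne.symm hi) a₀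
    rw [Submodule.mem_sup] at hb
    obtain ⟨u, hu, l, hl, hul⟩ := hb
    rw [Submodule.mem_span_singleton] at hu
    obtain ⟨c, rfl⟩ := hu
    have h1 : g j (z (i, b)) = 0 := by
      rw [← hul, map_add, map_smul, hgz j hj, hgL j hj l hl, smul_zero, add_zero]
    have h2 : g i (z (i, b)) = 0 := hgL i hi _ (hC.mem (i, b))
    obtain ⟨b', c', u', hu', hb'⟩ : ∃ b', ∃ c' : ℂ, ∃ u' ∈ L i₀,
        z (i₁, b') = c' • z (i, b) + u' := by
      by_cases h : i = i₁
      · subst h
        exact ⟨b, 1, 0, (L i₀).zero_mem, by rw [one_smul, add_zero]⟩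
      · obtain ⟨b', hb'⟩ := hT i i₀ i₁ hi (Ne.symm hi₁) h b
        rw [Submodule.mem_sup] at hb'
        obtain ⟨v, hv, l', hl', hvl⟩ := hb'
        rw [Submodule.mem_span_singleton] at hv
        obtain ⟨c', rfl⟩ := hv
        exact ⟨b', c', l', hl', hvl.symm⟩
    have h3 : ∀ v ∈ L i₀, g i v - g j v = 0 := by
      intro v hv
      obtain ⟨a, d, rfl⟩ := pair2 (hC.two i₀) hz0 he hie hv
      rw [map_add, map_smul, map_smul, map_add, map_smul, map_smul, hgz i hi, hgz j hj,
        hge i hi, hge j hj, sub_self]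
    refine ⟨b', ?_⟩
    have h4 : g i (z (i₁, b')) - g j (z (i₁, b')) = 0 := by
      rw [hb', map_add, map_smul, map_add, map_smul, h1, h2]
      linear_combination h3 u' hu'
    rw [(hxy b').2, map_add, map_smul, map_smul, map_add, map_smul, map_smul] at h4
    simp only [smul_eq_mul] at h4
    linear_combination h4
  refine ⟨fun i => g i f2, fun i => g i f1, Finset.univ.image fun b => y b / x b, ?_, ?_, ?_⟩
  · exact Finset.card_image_le.trans (by rw [Finset.card_univ, Fintype.card_fin])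
  · intro i j hi hj hij
    obtain ⟨b', hb'⟩ := hkey i j hi hj hij
    have hx := (hxy b').1
    refine ⟨fun h => ?_, y b' / x b', Finset.mem_image_of_mem _ (Finset.mem_univ b'), ?_⟩
    · have h' : g i f2 = g j f2 := h
      have h1 : g i f1 = g j f1 := by
        rw [h', sub_self, mul_zero, add_zero] at hb'
        rcases mul_eq_zero.1 hb' with h2 | h2
        · exact absurd h2 hx
        · exact sub_eq_zero.1 h2
      have h2 : ∀ v, (g i - g j) v = 0 := by
        refine heq _ ?_ ?_ ?_ ?_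
        · rw [LinearMap.sub_apply, hgz i hi, hgz j hj, sub_self]
        · rw [LinearMap.sub_apply, hge i hi, hge j hj, sub_self]
        · rw [LinearMap.sub_apply, h1, sub_self]
        · rw [LinearMap.sub_apply, h', sub_self]
      have h3 : ∀ v, g i v = 0 := by
        refine hno i j hij _ (hgL i hi) fun v hv => ?_
        have := h2 v
        rw [LinearMap.sub_apply, hgL j hj v hv, sub_zero] at this
        exact this
      have h4 := hge i hi
      rw [h3 e] at h4
      exact zero_ne_one h4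
    · show g i f2 * (y b' / x b') + g i f1 = g j f2 * (y b' / x b') + g j f1
      field_simp
      linear_combination hb'
  · rintro ⟨ξ, η, h⟩
    have hw : ∀ i, i ≠ i₀ → g i (f1 + ξ • f2 - η • e) = 0 := by
      intro i hi
      have h1 : g i f2 * ξ + g i f1 = η := h i hi
      rw [map_sub, map_add, map_smul, map_smul, hge i hi]
      simp only [smul_eq_mul]
      linear_combination h1
    have hwL : f1 + ξ • f2 - η • e ∉ L i₀ := by
      intro hw'
      have h1 : f1 + ξ • f2 ∈ L i₀ := by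
        have h2 := (L i₀).add_mem hw' ((L i₀).smul_mem η he)
        rwa [sub_add_cancel] at h2
      have h2 : f1 + ξ • f2 ∈ L i₁ := (L i₁).add_mem hf1 ((L i₁).smul_mem ξ hf2)
      have h3 := Submodule.disjoint_def.1 (hC.skew i₀ i₁ (Ne.symm hi₁)) _ h1 h2
      have h4 := LinearIndependent.pair_iff.1 hf 1 ξ (by rw [one_smul]; exact h3)
      exact one_ne_zero h4.1
    set w := f1 + ξ • f2 - η • e with hwdef
    have hind : LinearIndependent ℂ ![z (i₀, a₀), w] := by
      rw [LinearIndependent.pair_iff]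
      intro s t hst
      have ht : t = 0 := by
        by_contra ht
        apply hwL
        have h1 : w = (-(t⁻¹ * s)) • z (i₀, a₀) := by
          have h2 : t • w = -(s • z (i₀, a₀)) := by
            rw [eq_neg_iff_add_eq_zero, add_comm]
            exact hst
          rw [neg_smul, mul_smul, ← smul_neg, ← h2, smul_smul, inv_mul_cancel₀ ht, one_smul]
        rw [h1]
        exact (L i₀).smul_mem _ hz0
      refine ⟨?_, ht⟩
      rw [ht, zero_smul, add_zero] at hst
      exact (smul_eq_zero.1 hst).resolve_right (hz _)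
    refine ⟨Submodule.span ℂ (Set.range ![z (i₀, a₀), w]), ?_, ?_⟩
    · rw [finrank_span_eq_card hind, Fintype.card_fin]
    · intro i
      have hzT : z (i₀, a₀) ∈ Submodule.span ℂ (Set.range ![z (i₀, a₀), w]) :=
        Submodule.subset_span ⟨0, rfl⟩
      have hwT : w ∈ Submodule.span ℂ (Set.range ![z (i₀, a₀), w]) :=
        Submodule.subset_span ⟨1, rfl⟩
      by_cases hi : i = i₀
      · subst hi
        exact ⟨a₀, hzT⟩
      · obtain ⟨j, hji, hj⟩ : ∃ j : Fin r, j ≠ i ∧ j ≠ i₀ := exists_third hr i i₀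
        obtain ⟨b, hb⟩ := hT i₀ j i (Ne.symm hj) hji (Ne.symm hi) a₀
        refine ⟨b, ?_⟩
        rw [Submodule.mem_sup] at hb
        obtain ⟨u, hu, l, hl, hul⟩ := hb
        rw [Submodule.mem_span_singleton] at hu
        obtain ⟨c, rfl⟩ := hu
        have h1 : g j (z (i, b)) = 0 := by
          rw [← hul, map_add, map_smul, hgz j hj, hgL j hj l hl, smul_zero, add_zero]
        obtain ⟨c', l', hl', hwl⟩ := hgk i hi w (hw i hi)
        have hl0 : l' ≠ 0 := by
          intro h0
          apply hwL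
          rw [hwl, h0, add_zero]
          exact (L i₀).smul_mem _ hz0
        have h2 : g j l' = 0 := by
          have h3 := hw j hj
          rw [hwl, map_add, map_smul, hgz j hj, smul_zero, zero_add] at h3
          exact h3
        obtain ⟨v, hv, hgv⟩ : ∃ v ∈ L i, g j v ≠ 0 := by
          by_contra hcon
          push Not at hcon
          have h3 := hno i j (Ne.symm hji) (g j) hcon (hgL j hj) e
          rw [hge j hj] at h3
          exact one_ne_zero h3
        have hlv : LinearIndependent ℂ ![l', v] := by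
          rw [LinearIndependent.pair_iff]
          intro s t hst
          have ht : t = 0 := by
            have h3 : g j (s • l' + t • v) = 0 := by rw [hst, map_zero]
            rw [map_add, map_smul, map_smul, h2, smul_zero, zero_add, smul_eq_mul] at h3
            exact (mul_eq_zero.1 h3).resolve_right hgv
          refine ⟨?_, ht⟩
          rw [ht, zero_smul, add_zero] at hst
          exact (smul_eq_zero.1 hst).resolve_right hl0
        obtain ⟨p, q, hpq⟩ := pair2 (hC.two i) hl' hv hlv (hC.mem (i, b))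
        have hq : q = 0 := by
          rw [hpq, map_add, map_smul, map_smul, h2, smul_zero, zero_add, smul_eq_mul] at h1
          exact (mul_eq_zero.1 h1).resolve_right hgv
        rw [hq, zero_smul, add_zero] at hpq
        have h5 : l' = w - c' • z (i₀, a₀) := by rw [hwl, add_sub_cancel_left]
        rw [hpq, h5]
        exact Submodule.smul_mem _ _ (Submodule.sub_mem _ hwT (Submodule.smul_mem _ _ hzT))

end Pool.Agent.MPf00b8a
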