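import Pool.Agent.Lib.MP_f00b8a_ag.Defs

/-!
# Standard monomials
-/

set_option autoImplicit false

namespace Pool.Agent.MPf00b8a

open MvPolynomial

/-- The function given by a monomial in three functions. -/
def mon {ι : Type} (x : Fin 3 → ι → ℂ) (e : Fin 3 → ℕ) : ι → ℂ := fun p => ∏ k, x k p ^ e k

/-- The space spanned by the monomials of degree less than `t`. -/
noncomputable def aff {ι : Type} (x : Fin 3 → ι → ℂ) (t : ℕ) : Submodule ℂ (ι → ℂ) :=
  Submodule.span ℂ {f | ∃ e : Fin 3 → ℕ, ∑ k, e k < t ∧ f = mon x e}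

/-- The order of the monomials: first the degree, then lexicographic. -/
private def key (e : Fin 3 → ℕ) : ℕ ×ₗ Lex (Fin 3 → ℕ) := toLex (∑ k, e k, toLex e)

private theorem key_inj {e f : Fin 3 → ℕ} (h : key e = key f) : e = f :=
  congrArg (fun p : ℕ ×ₗ Lex (Fin 3 → ℕ) => ofLex (ofLex p).2) h

private theorem key_lt {e f : Fin 3 → ℕ} : key e < key f ↔
    (∑ k, e k < ∑ k, f k) ∨ (∑ k, e k = ∑ k, f k ∧ toLex e < toLex f) :=
  Prod.Lex.toLex_lt_toLex

private theorem key_sum {e f : Fin 3 → ℕ} (h : key e < key f) : ∑ k, e k ≤ ∑ k, f k := by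
  rcases key_lt.1 h with h | h
  · exact h.le
  · exact h.1.le

private theorem key_add {e f : Fin 3 → ℕ} (s : Fin 3 → ℕ) (h : key e < key f) :
    key (e + s) < key (f + s) := by
  rw [key_lt] at h ⊢
  simp only [Pi.add_apply, Finset.sum_add_distrib]
  rcases h with h | ⟨h, h'⟩
  · exact Or.inl (by omega)
  · refine Or.inr ⟨by omega, ?_⟩
    rw [toLex_add, toLex_add]
    exact add_lt_add_left h' _

private theorem mon_add {ι : Type} (x : Fin 3 → ι → ℂ) (e : Fin 3 → ℕ) (k : Fin 3) :
    mon x (e + Pi.single k 1) = x k * mon x e := by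
  funext p
  simp only [mon, Pi.mul_apply, Pi.add_apply, pow_add, Finset.prod_mul_distrib]
  have h : ∏ j, x j p ^ (Pi.single k 1 : Fin 3 → ℕ) j = x k p := by
    rw [Finset.prod_eq_single k]
    · rw [Pi.single_eq_same, pow_one]
    · intro j _ hj
      rw [Pi.single_eq_of_ne hj, pow_zero]
    · intro h
      exact absurd (Finset.mem_univ k) h
  rw [h, mul_comm]

/-- The span of the smaller monomials. -/
private def low {ι : Type} (x : Fin 3 → ι → ℂ) (e : Fin 3 → ℕ) : Submodule ℂ (ι → ℂ) :=
  Submodule.span ℂ (mon x '' {f | key f < key e})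

private theorem low_mul {ι : Type} (x : Fin 3 → ι → ℂ) (e : Fin 3 → ℕ) (k : Fin 3)
    {g : ι → ℂ} (hg : g ∈ low x e) : x k * g ∈ low x (e + Pi.single k 1) := by
  induction hg using Submodule.span_induction with
  | mem g hg =>
    obtain ⟨f, hf, rfl⟩ := hg
    rw [← mon_add]
    exact Submodule.subset_span ⟨_, key_add _ hf, rfl⟩
  | zero =>
    rw [mul_zero]
    exact Submodule.zero_mem _
  | add a b _ _ ha hb =>
    rw [mul_add]
    exact Submodule.add_mem _ ha hb
  | smul c a _ ha =>
    rw [mul_smul_comm]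
    exact Submodule.smul_mem _ _ ha

private theorem std_indep {ι : Type} (x : Fin 3 → ι → ℂ) (T : Set (Fin 3 → ℕ))
    (hT : ∀ e ∈ T, mon x e ∉ low x e) : LinearIndependent ℂ (fun e : T => mon x e.1) := by
  classical
  rw [linearIndependent_iff']
  intro s g hg
  by_contra hne
  push Not at hne
  obtain ⟨i, hi, hgi⟩ := hne
  obtain ⟨e, he, hmax⟩ := (s.filter fun i => g i ≠ 0).exists_max_image (fun i => key i.1)
    ⟨i, Finset.mem_filter.2 ⟨hi, hgi⟩⟩
  obtain ⟨hes, hge⟩ := Finset.mem_filter.1 he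
  apply hT e.1 e.2
  have h1 : g e • mon x e.1 = -∑ i ∈ s.erase e, g i • mon x i.1 := by
    rw [eq_neg_iff_add_eq_zero, Finset.add_sum_erase s (fun i : T => g i • mon x i.1) hes]
    exact hg
  have h2 : g e • mon x e.1 ∈ low x e.1 := by
    rw [h1]
    refine Submodule.neg_mem _ (Submodule.sum_mem _ fun j hj => ?_)
    obtain ⟨hje, hjs⟩ := Finset.mem_erase.1 hj
    by_cases h0 : g j = 0
    · rw [h0, zero_smul]
      exact Submodule.zero_mem _
    · refine Submodule.smul_mem _ _ (Submodule.subset_span ⟨j.1, ?_, rfl⟩)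
      refine lt_of_le_of_ne (hmax j (Finset.mem_filter.2 ⟨hjs, h0⟩)) fun h => hje ?_
      exact Subtype.ext (key_inj h)
  have h3 := Submodule.smul_mem (low x e.1) (g e)⁻¹ h2
  rwa [smul_smul, inv_mul_cancel₀ hge, one_smul] at h3

private theorem std_span {ι : Type} (x : Fin 3 → ι → ℂ) (t : ℕ) (e : Fin 3 → ℕ)
    (he : ∑ k, e k < t) :
    mon x e ∈ Submodule.span ℂ (mon x '' {f | mon x f ∉ low x f ∧ ∑ k, f k < t}) := by
  have hwf : WellFounded fun a b : Fin 3 → ℕ => key a < key b :=
    InvImage.wf key (wellFounded_lt (α := ℕ ×ₗ Lex (Fin 3 → ℕ)))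
  induction e using hwf.induction with
  | _ e ih =>
    by_cases h : mon x e ∈ low x e
    · refine (Submodule.span_le.2 ?_ : low x e ≤ _) h
      rintro _ ⟨f, hf, rfl⟩
      exact ih f hf (lt_of_le_of_lt (key_sum hf) he)
    · exact Submodule.subset_span ⟨e, ⟨h, he⟩, rfl⟩

/-- (`S` = the monomials which are not combinations of smaller monomials, with respect to the order:
first the degree, then lexicographic.) -/
theorem exists_std {ι : Type} [Finite ι] (x : Fin 3 → ι → ℂ) :
    ∃ S : Set (Fin 3 → ℕ), (∀ e ∈ S, ∀ k, 0 < e k → e - Pi.single k 1 ∈ S) ∧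
      ∀ t, Module.finrank ℂ (aff x t) = {e ∈ S | ∑ k, e k < t}.ncard := by
  refine ⟨{e | mon x e ∉ low x e}, ?_, fun t => ?_⟩
  · intro e he k hk h
    have e1 : e - Pi.single k 1 + Pi.single k 1 = e := by
      funext j
      by_cases hj : j = k
      · subst hj
        rw [Pi.add_apply, Pi.sub_apply, Pi.single_eq_same]
        omega
      · rw [Pi.add_apply, Pi.sub_apply, Pi.single_eq_of_ne hj]
        rfl
    apply he
    have h2 := low_mul x _ k h
    rwa [← mon_add, e1] at h2
  · have hfin : {e ∈ {e | mon x e ∉ low x e} | ∑ k, e k < t}.Finite := by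
      refine (Set.finite_Iic (fun _ : Fin 3 => t)).subset ?_
      intro e he k
      exact (Finset.single_le_sum (f := e) (fun _ _ => Nat.zero_le _)
        (Finset.mem_univ k)).trans he.2.le
    have := hfin.fintype
    have h1 := finrank_span_eq_card (std_indep x {e ∈ {e | mon x e ∉ low x e} | ∑ k, e k < t}
      fun e he => he.1)
    rw [← Nat.card_eq_fintype_card, Nat.card_coe_set_eq] at h1
    have h2 : aff x t = Submodule.span ℂ (Set.range fun e :
        {e | e ∈ {e | mon x e ∉ low x e} ∧ ∑ k, e k < t} => mon x e.1) := by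
      apply le_antisymm
      · refine Submodule.span_le.2 ?_
        rintro _ ⟨e, he, rfl⟩
        have h3 := std_span x t e he
        rwa [Set.image_eq_range] at h3
      · refine Submodule.span_mono ?_
        rintro _ ⟨e, rfl⟩
        exact ⟨e.1, e.2.2, rfl⟩
    rw [h2]
    exact h1

end Pool.Agent.MPf00b8a
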