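import Pool.Agent.Lib.MP_f00b8a_ag.StdA

/-!
# Growth of the filtration: double counting
-/

set_option autoImplicit false

namespace Pool.Agent.MPf00b8a

open MvPolynomial

open Classical in
/-- The elements of `S` of degree `j`. -/
private noncomputable def StdB_A (S : Set (Fin 3 → ℕ)) (j : ℕ) : Finset (Fin 3 → ℕ) :=
  (Finset.piAntidiag Finset.univ j).filter (· ∈ S)

private theorem StdB_mem (S : Set (Fin 3 → ℕ)) (j : ℕ) (e : Fin 3 → ℕ) :
    e ∈ StdB_A S j ↔ ∑ k, e k = j ∧ e ∈ S := by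
  classical
  unfold StdB_A
  rw [Finset.mem_filter, Finset.mem_piAntidiag]
  simp

private theorem StdB_H (S : Set (Fin 3 → ℕ)) (t : ℕ) :
    {e ∈ S | ∑ k, e k < t + 1}.ncard = {e ∈ S | ∑ k, e k < t}.ncard + (StdB_A S t).card := by
  classical
  have hB : ∀ t, {e ∈ S | ∑ k, e k < t} =
      (((Finset.range t).biUnion (StdB_A S) : Finset (Fin 3 → ℕ)) : Set (Fin 3 → ℕ)) := by
    intro t
    ext e
    rw [Finset.mem_coe, Finset.mem_biUnion]
    constructor
    · rintro ⟨h1, h2⟩
      exact ⟨_, Finset.mem_range.2 h2, (StdB_mem S _ e).2 ⟨rfl, h1⟩⟩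
    · rintro ⟨i, hi, he⟩
      obtain ⟨h1, h2⟩ := (StdB_mem S i e).1 he
      exact ⟨h2, by rw [h1]; exact Finset.mem_range.1 hi⟩
  have hc : ∀ t, {e ∈ S | ∑ k, e k < t}.ncard = ∑ i ∈ Finset.range t, (StdB_A S i).card := by
    intro t
    rw [hB t, Set.ncard_coe_finset, Finset.card_biUnion]
    intro i _ i' _ hne
    refine Finset.disjoint_left.2 fun e he he' => ?_
    rw [StdB_mem] at he he'
    exact hne (he.1.symm.trans he'.1)
  rw [hc, hc, Finset.sum_range_succ]

private theorem StdB_key (S : Set (Fin 3 → ℕ))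
    (hS : ∀ e ∈ S, ∀ k, 0 < e k → e - Pi.single k 1 ∈ S) (j : ℕ) :
    (j + 1) * (StdB_A S (j + 1)).card ≤ (j + 3) * (StdB_A S j).card := by
  classical
  have h1 : (j + 1) * (StdB_A S (j + 1)).card = ∑ k, ∑ e ∈ StdB_A S (j + 1), e k := by
    rw [Finset.sum_comm, Finset.sum_congr rfl fun e he => ((StdB_mem S (j + 1) e).1 he).1,
      Finset.sum_const, smul_eq_mul, mul_comm]
  have h2 : (j + 3) * (StdB_A S j).card = ∑ k : Fin 3, ∑ e ∈ StdB_A S j, (e k + 1) := by
    rw [Finset.sum_comm]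
    have : ∀ e ∈ StdB_A S j, ∑ k : Fin 3, (e k + 1) = j + 3 := by
      intro e he
      rw [Finset.sum_add_distrib, ((StdB_mem S j e).1 he).1]
      simp
    rw [Finset.sum_congr rfl this, Finset.sum_const, smul_eq_mul, mul_comm]
  rw [h1, h2]
  refine Finset.sum_le_sum fun k _ => ?_
  have hk : ∀ e : Fin 3 → ℕ, 0 < e k → e - Pi.single k 1 + Pi.single k 1 = e := by
    intro e he
    funext i
    rw [Pi.add_apply, Pi.sub_apply]
    by_cases hi : i = k
    · subst hi
      rw [Pi.single_eq_same]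
      omega
    · rw [Pi.single_eq_of_ne hi]
      omega
  have hinj : Set.InjOn (fun e : Fin 3 → ℕ => e - Pi.single k 1)
      ((StdB_A S (j + 1)).filter fun e => e k ≠ 0) := by
    intro e he e' he' hee
    have h3 := (Finset.mem_filter.1 he).2
    have h4 := (Finset.mem_filter.1 he').2
    rw [← hk e (Nat.pos_of_ne_zero h3), ← hk e' (Nat.pos_of_ne_zero h4)]
    have h5 : e - Pi.single k 1 = e' - Pi.single k 1 := hee
    rw [h5]
  have h3 : ∑ e ∈ StdB_A S (j + 1), e k =
      ∑ e ∈ ((StdB_A S (j + 1)).filter fun e => e k ≠ 0).image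
        (fun e : Fin 3 → ℕ => e - Pi.single k 1), (e k + 1) := by
    rw [Finset.sum_image hinj, ← Finset.sum_filter_ne_zero]
    refine Finset.sum_congr rfl fun e he => ?_
    have h4 := (Finset.mem_filter.1 he).2
    rw [Pi.sub_apply, Pi.single_eq_same]
    omega
  rw [h3]
  refine Finset.sum_le_sum_of_subset fun e' he' => ?_
  obtain ⟨e, he, rfl⟩ := Finset.mem_image.1 he'
  obtain ⟨he1, he2⟩ := Finset.mem_filter.1 he
  obtain ⟨h4, h5⟩ := (StdB_mem S (j + 1) e).1 he1
  have he2' : 0 < e k := Nat.pos_of_ne_zero he2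
  refine (StdB_mem S j _).2 ⟨?_, hS e h5 k he2'⟩
  have h6 : ∑ i, (e - Pi.single k 1 + Pi.single k 1 : Fin 3 → ℕ) i = j + 1 := by
    rw [hk e he2', h4]
  simp only [Pi.add_apply] at h6
  rw [Finset.sum_add_distrib, Finset.sum_pi_single'] at h6
  rw [if_pos (Finset.mem_univ k)] at h6
  omega

/-- (With `h j` the number of standard monomials of degree `j`: `(j + 1) h (j + 1) ≤ (j + 3) h j`;
count the pairs (`e`, `k`), `e` standard of degree `j + 1`, `0 < e k`, with weight `e k`.) -/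
theorem aff_growth {ι : Type} [Finite ι] (x : Fin 3 → ι → ℂ) (j : ℕ) :
    (j + 1) * Module.finrank ℂ (aff x (j + 2)) + (j + 3) * Module.finrank ℂ (aff x j) ≤
      (2 * j + 4) * Module.finrank ℂ (aff x (j + 1)) := by
  obtain ⟨S, hS, hcard⟩ := exists_std x
  have hH := StdB_H S
  have hk := StdB_key S hS j
  rw [hcard, hcard, hcard, hH (j + 1), hH j]
  nlinarith

/-- (Induction on `j`.) -/
theorem aff_mac {ι : Type} [Finite ι] (x : Fin 3 → ι → ℂ) (j : ℕ) :
    j * Module.finrank ℂ (aff x (j + 1)) ≤ (j + 3) * Module.finrank ℂ (aff x j) := by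
  induction j with
  | zero => simp
  | succ j ih =>
    have h := aff_growth x j
    have e : j + 1 + 1 = j + 2 := rfl
    rw [e]
    nlinarith

end Pool.Agent.MPf00b8a
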