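import Pool.Agent.Lib.MP_f00b8a_ag.Defs

/-!
# Geproci sets and arithmetically Gorenstein sets: the definitions of the statement

`ℙⁿ` is `Projectivization ℂ (Fin (n + 1) → ℂ)`.  For a homogeneous polynomial `f` the condition
`eval p.rep f = 0` says that `f` vanishes at the point `p`.
-/

set_option autoImplicit false

namespace Pool.Agent.MPf00b8a

open MvPolynomial

/-- The homogeneous ideal of a set of points of `ℙⁿ⁻¹`: the ideal generated by the forms (of any
degree) that vanish at all points of the set. -/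
noncomputable def homIdeal {n : ℕ} (S : Set (Projectivization ℂ (Fin n → ℂ))) :
    Ideal (MvPolynomial (Fin n) ℂ) :=
  Ideal.span {f | (∃ d, f.IsHomogeneous d) ∧ ∀ p ∈ S, eval p.rep f = 0}

/-- A set of points of `ℙ³` is arithmetically Gorenstein: for a linear form `l` that vanishes at
no point of the set (so that `l` is a nonzerodivisor modulo the homogeneous ideal `I(Z)` and
`ℂ[x₀, x₁, x₂, x₃] / (I(Z) + (l))` is the artinian reduction) the socle of
`ℂ[x₀, x₁, x₂, x₃] / (I(Z) + (l))` has dimension one over `ℂ`. -/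
def IsArithGorenstein (Z : Set (Projectivization ℂ (Fin 4 → ℂ))) : Prop :=
  ∃ l : MvPolynomial (Fin 4) ℂ, l.IsHomogeneous 1 ∧ (∀ p ∈ Z, eval p.rep l ≠ 0) ∧
    Module.finrank ℂ (socle (homIdeal Z ⊔ Ideal.span {l})) = 1

/-- A set of points of the plane `ℙ²` is a (reduced) complete intersection of type `(a, b)`: its
homogeneous ideal is generated by two nonzero forms of degrees `a` and `b`. -/
def IsPlaneCI (S : Set (Projectivization ℂ (Fin 3 → ℂ))) (a b : ℕ) : Prop :=
  ∃ F G : MvPolynomial (Fin 3) ℂ, F.IsHomogeneous a ∧ G.IsHomogeneous b ∧ F ≠ 0 ∧ G ≠ 0 ∧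
    homIdeal S = Ideal.span {F, G}

/-- The image of a set of points of `ℙ³` under the projection to `ℙ²` given by a linear map `π`
(the centre of the projection is the kernel of `π`). -/
def projImage (π : (Fin 4 → ℂ) →ₗ[ℂ] (Fin 3 → ℂ)) (Z : Set (Projectivization ℂ (Fin 4 → ℂ))) :
    Set (Projectivization ℂ (Fin 3 → ℂ)) :=
  {q | ∃ p ∈ Z, ∃ h : π p.rep ≠ 0, q = Projectivization.mk ℂ (π p.rep) h}

/-- A set of points of `ℙ³` is `(a, b)`-geproci: for a general point `P` (that is, for all `P` at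
which some fixed nonzero polynomial `Φ` does not vanish) the image of the set under the projection
from `P` to a plane is a complete intersection of type `(a, b)`. -/
def IsGeproci (Z : Set (Projectivization ℂ (Fin 4 → ℂ))) (a b : ℕ) : Prop :=
  ∃ Φ : MvPolynomial (Fin 4) ℂ, Φ ≠ 0 ∧ ∀ P : Fin 4 → ℂ, eval P Φ ≠ 0 →
    ∀ π : (Fin 4 → ℂ) →ₗ[ℂ] (Fin 3 → ℂ), LinearMap.ker π = Submodule.span ℂ {P} →
      IsPlaneCI (projImage π Z) a b

/-- `Z` consists of `m` points on each of `r` pairwise skew lines of `ℙ³`. -/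
def OnSkewLines (Z : Set (Projectivization ℂ (Fin 4 → ℂ))) (r m : ℕ) : Prop :=
  ∃ L : Fin r → Submodule ℂ (Fin 4 → ℂ), (∀ i, Module.finrank ℂ (L i) = 2) ∧
    (∀ i j, i ≠ j → Disjoint (L i) (L j)) ∧ (∀ p ∈ Z, ∃ i, p.submodule ≤ L i) ∧
    ∀ i, {p ∈ Z | p.submodule ≤ L i}.ncard = m

end Pool.Agent.MPf00b8a
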